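import Pool.Agent.H29.DW.Defs

/-!
# Abbreviations for the statement of the hybrid Weyl bound
-/

set_option autoImplicit false

open NumberField NumberField.InfinitePlace NumberField.Units MeasureTheory Set Filter Complex

namespace Pool.Agent.H29.DW

open Pool.Agent.H23.LC

section

variable {K : Type} [Field K] [NumberField K]

/-- `L` is the analytic continuation of the Dirichlet series of `χ`, analytic except possibly at
`0` and `1`, and entire if `χ` takes a value different from `0` and `1`. -/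
def IsCon {f : Ideal (𝓞 K)} (χ : HG K f) (L : ℂ → ℂ) : Prop :=
  (∀ s : ℂ, 1 < s.re → L s = χ.series s) ∧
  (∀ s : ℂ, s ≠ 0 → s ≠ 1 → DifferentiableAt ℂ L s) ∧
  ((∃ I : Ideal (𝓞 K), χ.ψ I ≠ 0 ∧ χ.ψ I ≠ 1) → Differentiable ℂ L)

/-- the analytic conductor `|d_K| N(f) C_∞` of `L(1/2 + i t, χ)` -/
noncomputable def Cond {f : Ideal (𝓞 K)} (χ : HG K f) (t : ℝ) : ℝ :=
  |(discr K : ℝ)| * Ideal.absNorm f * Ci χ.k χ.ν t

/-- `|d_K|^(1/4) (N(l g) + N(k))^(1/2) C_∞^(1/6)` -/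
noncomputable def WB (l g k : Ideal (𝓞 K)) {f : Ideal (𝓞 K)} (χ : HG K f) (t : ℝ) : ℝ :=
  |(discr K : ℝ)| ^ (1 / 4 : ℝ) * (Ideal.absNorm (l * g) + Ideal.absNorm k) ^ (1 / 2 : ℝ) *
    Ci χ.k χ.ν t ^ (1 / 6 : ℝ)

end

end Pool.Agent.H29.DW
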