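import Pool.Agent.H29.DW.Tools

/-!
# The correlations
-/

set_option autoImplicit false
set_option linter.unusedVariables false

open NumberField NumberField.InfinitePlace NumberField.Units
  NumberField.Units.dirichletUnitTheorem MeasureTheory Set Filter Complex
open scoped nonZeroDivisors ENNReal

namespace Pool.Agent.H29.DW

open Pool.Agent.H25.HK Pool.Agent.H23.LB Pool.Agent.H23.LC
open Pool.Agent.H28.RC (Rep ft idl)
open Pool.Agent.H29.TC (GK fk_le dvs cq LC Gn)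

theorem norm_cq {K : Type} [Field K] [NumberField K] (f : Ideal (𝓞 K)) {η : 𝓞 K ⧸ f → ℂ}
    (h : LC f η) (M : FI K) (x₀ x : K) : ‖cq f η M x₀ x‖ ≤ 1 := by
  unfold cq
  split_ifs
  · exact h.mc.norm_le _
  · rw [norm_zero]
    exact zero_le_one

theorem conj_ft {K : Type} [Field K] [NumberField K] (X : Finset K) (c : K → ℂ) (y : K) :
    ft K X (fun x => (starRingEnd ℂ) (c x)) y = (starRingEnd ℂ) (ft K X c (-y)) := by
  unfold ft
  rw [map_sum]
  refine Finset.sum_congr rfl fun r _ => ?_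
  rw [map_mul (starRingEnd ℂ) (c r), ← Complex.exp_conj]
  congr 2
  rw [mul_neg, map_neg]
  have h1 : (starRingEnd ℂ) (2 * Real.pi * I * ((-(Algebra.trace ℚ K (r * y)) : ℚ) : ℂ)) =
      2 * Real.pi * (-I) * ((-(Algebra.trace ℚ K (r * y)) : ℚ) : ℂ) := by
    rw [map_mul (starRingEnd ℂ), map_mul (starRingEnd ℂ), map_mul (starRingEnd ℂ),
      Complex.conj_I, Complex.conj_ofReal, map_ofNat, map_ratCast]
  rw [h1]
  push_cast
  ring

theorem pf_CC (hCS : Pool.Agent.H29.TC.T_CS) (hEX : Pool.Agent.H29.TC.T_EX)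
    (hCQ : Pool.Agent.H29.TC.T_CQ) (hDF : Pool.Agent.H29.TC.T_DF) : V_CC := by
  refine ⟨?_, ?_⟩
  · intro K _ _ l g k hG η hη M x₀ hM hx₀
    have hG' : GK (⊤ : Ideal (𝓞 K)) g k :=
      ⟨top_ne_bot, hG.g_ne, hG.k_ne, hG.k_top, hG.rad, top_sup_eq k, hG.odd⟩
    have hf : l * (g * k ^ 2) ≠ ⊥ := by
      rw [← Ideal.zero_eq_bot]
      exact mul_ne_zero hG.l_ne (mul_ne_zero hG.g_ne (pow_ne_zero 2 hG.k_ne))
    have hx₁ : Gn (g * k ^ 2) M x₀ :=
      (hCQ K (l * (g * k ^ 2)) (fun _ => 0) M x₀ hf hM hx₀).2.2 _ Ideal.mul_le_right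
    have key : ∀ h ∈ ((l * g : Ideal (𝓞 K)) : FI K) * M, ∃ e ∈ dvs K k,
        h ∈ ((l * g * e : Ideal (𝓞 K)) : FI K) * M ∧
        (∀ x ∈ M, ∀ t ∈ ((k ^ 2 : Ideal (𝓞 K)) : FI K) * M,
          cq (g * k ^ 2) η M x₀ (x + t + h) * (starRingEnd ℂ) (cq (g * k ^ 2) η M x₀ (x + t)) =
            cq (g * k ^ 2) η M x₀ (x + h) * (starRingEnd ℂ) (cq (g * k ^ 2) η M x₀ x)) ∧
        ∀ X : Finset K, Rep K (k ^ 2) M X → ∀ y ∈ du K (((k ^ 2 : Ideal (𝓞 K)) : FI K) * M),
          ‖ft K X (fun x => cq (g * k ^ 2) η M x₀ (x + h) *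
            (starRingEnd ℂ) (cq (g * k ^ 2) η M x₀ x)) y‖ ≤
            ((dvs K k).card : ℝ) * (Nf K k * Nf K e) := by
      intro h hh
      have hg : h ∈ (g : FI K) * M := by
        have : ((l * g : Ideal (𝓞 K)) : FI K) ≤ (g : FI K) :=
          (FractionalIdeal.coeIdeal_le_coeIdeal' (𝓞 K)⁰ le_rfl).2 Ideal.mul_le_right
        exact mul_le_mul_left this M hh
      obtain ⟨e, h1, h2, h3, h4⟩ := hEX K g k hG.g_ne hG.k_ne M hM h hg
      obtain ⟨h5, h6⟩ := hCS K g k hG' η hη M x₀ e h hM hx₁ h1 h2 h3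
      exact ⟨e, (hDF K k hG.k_ne e).2 h1, h4 l hG.cop hh, h5, h6⟩
    refine ⟨⟨fun x _ => norm_cq _ hη _ _ _, fun h hh _ => key h hh⟩,
      ⟨fun x _ => ?_, fun h hh _ => ?_⟩⟩
    · rw [RCLike.norm_conj]
      exact norm_cq _ hη _ _ _
    · obtain ⟨e, h1, h2, h3, h4⟩ := key h hh
      refine ⟨e, h1, h2, fun x hx t ht => ?_, fun X hX y hy => ?_⟩
      · rw [← map_mul, ← map_mul, h3 x hx t ht]
      · have h5 : ft K X (fun x => (starRingEnd ℂ) (cq (g * k ^ 2) η M x₀ (x + h)) *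
            (starRingEnd ℂ) ((starRingEnd ℂ) (cq (g * k ^ 2) η M x₀ x))) y =
            (starRingEnd ℂ) (ft K X (fun x => cq (g * k ^ 2) η M x₀ (x + h) *
            (starRingEnd ℂ) (cq (g * k ^ 2) η M x₀ x)) (-y)) := by
          rw [← conj_ft]
          congr 1
          funext x
          rw [map_mul]
        have h6 : -y ∈ du K (((k ^ 2 : Ideal (𝓞 K)) : FI K) * M) := by
          rw [← FractionalIdeal.mem_coe] at hy ⊢
          exact Submodule.neg_mem _ hy
        rw [h5, RCLike.norm_conj]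
        exact h4 X hX _ h6
  · intro K _ _ M hM
    refine ⟨fun x _ => by simp, fun h hh _ => ⟨⊤, (hDF K ⊤ top_ne_bot ⊤).2 le_rfl, ?_, ?_, ?_⟩⟩
    · rwa [Ideal.mul_top]
    · intro x _ t _
      rfl
    · intro X hX y hy
      have h1 : Nf K (⊤ : Ideal (𝓞 K)) = 1 := by
        unfold Nf
        simp
      have h2 : X.card ≤ 1 := by
        rw [Finset.card_le_one]
        intro a ha b hb
        have h3 : ((⊤ ^ 2 : Ideal (𝓞 K)) : FI K) * M = M := by
          rw [Ideal.top_pow, FractionalIdeal.coeIdeal_top, one_mul]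
        obtain ⟨r, -, h4⟩ := hX.2 a (hX.1 a ha)
        rw [h3] at h4
        have h5 : a = r := h4 a ⟨ha, by
          rw [sub_self, ← FractionalIdeal.mem_coe]
          exact Submodule.zero_mem _⟩
        have h6 : b = r := h4 b ⟨hb, by
          have h7 := hX.1 a ha
          have h8 := hX.1 b hb
          rw [← FractionalIdeal.mem_coe] at h7 h8 ⊢
          exact Submodule.sub_mem _ h7 h8⟩
        rw [h5, h6]
      rw [h1]
      unfold ft
      refine (norm_sum_le _ _).trans ?_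
      have h3 : ∀ r ∈ X, ‖(fun _ : K => (1 : ℂ)) (r + h) *
          (starRingEnd ℂ) ((fun _ : K => (1 : ℂ)) r) *
          cexp (2 * Real.pi * I * ((Algebra.trace ℚ K (r * y) : ℚ) : ℂ))‖ ≤ 1 := by
        intro r _
        have h4 : (2 * Real.pi * I * ((Algebra.trace ℚ K (r * y) : ℚ) : ℂ)) =
            ((2 * Real.pi * ((Algebra.trace ℚ K (r * y) : ℚ) : ℝ) : ℝ) : ℂ) * I := by
          push_cast
          ring
        rw [h4, norm_mul, Complex.norm_exp_ofReal_mul_I]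
        simp
      refine (Finset.sum_le_card_nsmul _ _ _ h3).trans ?_
      rw [nsmul_eq_mul, mul_one, mul_one, mul_one]
      exact_mod_cast h2

end Pool.Agent.H29.DW
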