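import Pool.Agent.H29.DW.BSa

/-!
# The bound for the integral over all positions: one piece
-/

set_option autoImplicit false
set_option linter.unusedVariables false
set_option linter.unusedSectionVars false

open NumberField NumberField.InfinitePlace NumberField.Units
  NumberField.Units.dirichletUnitTheorem MeasureTheory Set Filter Complex
open scoped nonZeroDivisors ENNReal

namespace Pool.Agent.H29.DW

open Pool.Agent.H25.HK Pool.Agent.H23.LB Pool.Agent.H23.LC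
open Pool.Agent.H28.RC (Rep ft idl)
open Pool.Agent.H29.TC (dvs)

section

variable {K : Type} [Field K] [NumberField K]

theorem An_meas : MeasurableSet (An K) := by
  unfold An
  exact MeasurableSet.univ_pi fun _ => measurableSet_Icc

open scoped Classical in
theorem An_vol {n : ℕ} (hn : Module.finrank ℚ K = n) :
    volume (An K) ≤ ENNReal.ofReal ((2 * Real.pi) ^ n) := by
  unfold An
  rw [volume_pi_pi]
  simp only [Real.volume_Icc, sub_zero, Finset.prod_const, Finset.card_univ]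
  rw [← ENNReal.ofReal_pow (by positivity)]
  refine ENNReal.ofReal_le_ofReal ?_
  refine pow_le_pow_right₀ ?_ (card_places_le hn)
  have := Real.pi_gt_three
  linarith

open scoped Classical in
/-- the region of one piece -/
noncomputable def Sp' (K : Type) [Field K] [NumberField K] (τ₁ : ℝ) :
    Set (logSpace K × ℝ × (InfinitePlace K → ℝ)) :=
  Fd K ×ˢ Icc τ₁ (τ₁ + 1) ×ˢ An K

open scoped Classical in
theorem Sp'_meas (hFD : T_FD) (τ₁ : ℝ) : MeasurableSet (Sp' K τ₁) := by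
  unfold Sp'
  exact (hFD K).1.prod (measurableSet_Icc.prod An_meas)

open scoped Classical in
theorem Sp'_int (hFD : T_FD) (τ₁ : ℝ) {f : logSpace K × ℝ × (InfinitePlace K → ℝ) → ℝ≥0∞}
    (hf : Measurable f) : ∫⁻ u in Sp' K τ₁, f u =
      ∫⁻ z in Fd K, ∫⁻ τ in Icc τ₁ (τ₁ + 1), ∫⁻ θ in An K, f (z, τ, θ) := by
  unfold Sp'
  rw [Measure.volume_eq_prod, ← Measure.prod_restrict, Measure.volume_eq_prod,
    ← Measure.prod_restrict, lintegral_prod _ hf.aemeasurable]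
  refine lintegral_congr fun z => ?_
  have h1 : Measurable (fun y : ℝ × (InfinitePlace K → ℝ) => f (z, y)) :=
    hf.comp measurable_prodMk_left
  exact lintegral_prod _ h1.aemeasurable

open scoped Classical in
theorem Sp'_vol {n : ℕ} (hn : Module.finrank ℚ K = n) (hFD : T_FD) (τ₁ : ℝ) :
    volume (Sp' K τ₁) ≤ ENNReal.ofReal (regulator K) * ENNReal.ofReal ((2 * Real.pi) ^ n) := by
  unfold Sp'
  rw [Measure.volume_eq_prod, Measure.prod_prod, Measure.volume_eq_prod, Measure.prod_prod,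
    Real.volume_Icc, add_sub_cancel_left, ENNReal.ofReal_one, one_mul]
  refine mul_le_mul' ?_ (An_vol hn)
  have h1 := Pool.Agent.H94.GLA.vol_Fd (K := K)
  rw [← h1]
  exact le_of_eq (ENNReal.ofReal_toReal (hFD K).2.2.2.1.ne).symm

theorem pl_bmp {n : ℕ} {CB : ℝ} (hCB : 1 ≤ CB)
    (hPB : ∀ (H : ℝ) (l : ℂ), 1 ≤ H → |l.re| ≤ 4 →
      Bmp (2 * n + 4) (CB * (1 + ‖l‖) ^ (2 * n + 4)) (pp H l)) {H : InfinitePlace K → ℝ}
    (hH : ∀ v, 1 ≤ H v) {σ : ℝ} (hσ0 : 0 < σ) (hσ1 : σ ≤ 1) (w : ℝ) (v : InfinitePlace K) :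
    Bmp (2 * n + 4) (CB * (4 + 2 * |w|) ^ (2 * n + 4)) (pl H (1 / 2 + σ + w * I) v) := by
  unfold pl
  have hm := mult_pos' v
  have hm1 : (1 : ℝ) ≤ v.mult := by exact_mod_cast hm.1
  have hm2 : (v.mult : ℝ) ≤ 2 := by exact_mod_cast hm.2
  have h1 : ((v.mult : ℂ) * (1 / 2 + σ + w * I)).re = v.mult * (1 / 2 + σ) := by
    simp
  have h2 : |((v.mult : ℂ) * (1 / 2 + σ + w * I)).re| ≤ 4 := by
    rw [h1, abs_of_nonneg (by positivity)]
    nlinarith
  refine (hPB (H v) _ (hH v) h2).mono le_rfl ?_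
  refine mul_le_mul_of_nonneg_left ?_ (by linarith)
  refine pow_le_pow_left₀ (by positivity) ?_ _
  have h3 : ‖(v.mult : ℂ) * (1 / 2 + σ + w * I)‖ ≤ 2 * (3 / 2 + |w|) := by
    rw [norm_mul, Complex.norm_natCast]
    have h4 : ‖(1 / 2 + σ + w * I : ℂ)‖ ≤ 3 / 2 + |w| := by
      refine (norm_add_le _ _).trans ?_
      rw [norm_mul, Complex.norm_I, mul_one, Complex.norm_real, Real.norm_eq_abs]
      have h5 : (1 / 2 + σ : ℂ) = ((1 / 2 + σ : ℝ) : ℂ) := by
        push_cast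
        ring
      rw [h5, Complex.norm_real, Real.norm_eq_abs, abs_of_pos (by linarith)]
      linarith
    exact mul_le_mul hm2 h4 (norm_nonneg _) (by norm_num)
  linarith

end

open scoped Classical in
/-- one piece -/
theorem piece (hIN : V_IN) (hTT : V_TT) (hMS : V_MS) (hPB : V_PB) (hRR : T_RR) (hTH : T_TH)
    (hYC : T_YC) (hFD : T_FD) :
    ∀ n : ℕ, 0 < n → ∀ ε : ℝ, 0 < ε → ε ≤ 1 → ∃ C : ℝ, 0 ≤ C ∧ ∀ κ : ℝ, 0 < κ → κ ≤ 1 →
    ∀ (K : Type) [Field K] [NumberField K], Module.finrank ℚ K = n → ∀ (ι : Type) [Fintype ι]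
    (M : ι → FI K), Reps K M → ∀ (j k : Ideal (𝓞 K)) (D : ℝ) (q : ι → K → ℂ)
    (X₁ : ι → Finset K) (cp : InfinitePlace K → ℂ) (H : InfinitePlace K → ℝ)
    (X B Λ : ℝ) (v : ℝ → ℂ) (cc : ι → K → ℂ) (s : Bool), j ≠ ⊥ → k ≠ ⊥ → 1 ≤ D →
    (∀ c, Cor j k (M c) (q c) D) → (∀ c, Rep K j (M c) (X₁ c)) → Prm cp H → 1 ≤ X →
    0 ≤ B →
    Wt κ X B v → 0 ≤ Λ → (∀ c, ∃ A : ℝ, ∀ x ∈ M c, ‖cc c x‖ ≤ A) →
    (∀ (c : ι) (p : InfinitePlace K → ℂ → ℂ) (y : InfinitePlace K → ℝ)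
      (ω : InfinitePlace K → ℂ), (∀ v, ∃ B' : ℝ, Bmp (2 * n + 4) B' (p v)) → Pos ω →
      ‖∑' x : {x : K // x ∈ M c}, cc c x * Wg cp H p x y ω‖ ^ 2 ≤
        Λ * ∑ r ∈ X₁ c, ‖Sq j (M c) (q c) r cp H p y ω‖ ^ 2) →
    ∀ τ₁ σ : ℝ, (σ = κ ∨ σ = 1) →
    (∑ c, ∫⁻ u in Sp' K τ₁,
      ENNReal.ofReal ‖∑' x : {x : K // x ∈ M c ∧ x ≠ 0}, cc c x *
        v (Ideal.absNorm (idl K (M c) x)) *
          Wg cp H pb x (yM K (M c) u.2.1 (zs s u.1)) (om s u.2.2)‖) ^ 2 ≤
    ENNReal.ofReal (C * (classNumber K * regulator K) * (B * X ^ σ) ^ 2 *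
      Real.exp (τ₁ * (1 + 2 * σ)) * Λ * (cw K * ((dvs K k).card * D) *
      (|(discr K : ℝ)| * Nf K j * Nf K k * HH H * Real.exp |τ₁|) ^ ε *
      (Real.exp (-τ₁) * (HH H)⁻¹ * (1 + Nf K k / Nf K j +
        Real.exp (-τ₁) * (HH H ^ 2)⁻¹ / (Real.sqrt |(discr K : ℝ)| * Nf K j * Nf K k))))) := by
  intro n hn0 ε hε hε1
  obtain ⟨CT, hCT, hTT'⟩ := hTT n hn0 ε hε hε1
  obtain ⟨CB, hCB, hPB'⟩ := hPB (2 * n + 4)
  -- the constants
  set J : ℝ≥0∞ := ∫⁻ w : ℝ, ENNReal.ofReal (Real.exp (-w ^ 2 / 4) *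
    ((CB * (4 + 2 * |w|) ^ (2 * n + 4)) ^ (2 * n))) with hJ
  have hJfin : J < ⊤ := by
    have h1 := gauss_poly ((2 * n + 4) * (2 * n))
    have h2 : J = ENNReal.ofReal (CB ^ (2 * n)) * ∫⁻ w : ℝ, ENNReal.ofReal
        (Real.exp (-w ^ 2 / 4) * (4 + 2 * |w|) ^ ((2 * n + 4) * (2 * n))) := by
      rw [hJ, ← lintegral_const_mul' _ _ ENNReal.ofReal_ne_top]
      refine lintegral_congr fun w => ?_
      rw [← ENNReal.ofReal_mul (by positivity), mul_pow, ← pow_mul]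
      congr 1
      ring
    rw [h2]
    exact ENNReal.mul_lt_top ENNReal.ofReal_lt_top h1
  set I₀ : ℝ≥0∞ := ∫⁻ w : ℝ, ENNReal.ofReal (Real.exp (-w ^ 2 / 4)) with hI₀
  have hI₀fin : I₀ < ⊤ := by
    have h1 := gauss_poly 0
    simpa only [pow_zero, mul_one] using h1
  refine ⟨Real.exp 3 * I₀.toReal * (2 * Real.pi) ^ n * CT * J.toReal, by positivity, ?_⟩
  intro κ hκ0 hκ1 K _ _ hn ι _ M hM j k D q X₁ cp H X B Λ v cc s hj hk hD hcor hX₁ hP hX hB hv
    hΛ hcc hle τ₁ σ hσ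
  have hσ0 : 0 < σ := by rcases hσ with rfl | rfl <;> linarith
  have hσ1 : σ ≤ 1 := by rcases hσ with rfl | rfl <;> linarith
  have hH : ∀ v, 1 ≤ H v := fun v => hP.one_le v
  have hX0 : 0 < X := lt_of_lt_of_le one_pos hX
  set S := Sp' K τ₁ with hS
  have hSm : MeasurableSet S := Sp'_meas hFD τ₁
  set ρ : ℝ → ℝ≥0∞ := fun w => ENNReal.ofReal (Real.exp (-w ^ 2 / 4)) with hρ
  have hρm : Measurable ρ := by
    rw [hρ]
    fun_prop
  set G : ι → ℝ → logSpace K × ℝ × (InfinitePlace K → ℝ) → ℝ≥0∞ := fun c w u =>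
    ENNReal.ofReal ‖Gw (M c) cp H (cc c) s σ w u‖ with hG
  have hGm : ∀ c, Measurable (fun a : ℝ × (logSpace K × ℝ × (InfinitePlace K → ℝ)) =>
      G c a.1 a.2) := fun c =>
    ENNReal.measurable_ofReal.comp (Gw_measurable hTH hYC (M c) (hM.1 c) hH (cc c) s σ).norm
  have hm1 : ∀ c, Measurable (fun a : ℝ × (logSpace K × ℝ × (InfinitePlace K → ℝ)) =>
      ρ a.1 * G c a.1 a.2) := fun c => (hρm.comp measurable_fst).mul (hGm c)
  have hm2 : ∀ c, Measurable (fun a : ℝ × (logSpace K × ℝ × (InfinitePlace K → ℝ)) =>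
      ρ a.1 * G c a.1 a.2 ^ 2) := fun c =>
    (hρm.comp measurable_fst).mul ((hGm c).pow_const 2)
  have hm3 : Measurable (fun a : ℝ × (logSpace K × ℝ × (InfinitePlace K → ℝ)) => ρ a.1) :=
    hρm.comp measurable_fst
  have hm4 : ∀ c, Measurable (fun w : ℝ => ρ w * ∫⁻ u in S, G c w u ^ 2) := fun c =>
    hρm.mul (((hGm c).pow_const 2).lintegral_prod_right' (ν := volume.restrict S))
  set E : ℝ≥0∞ := ENNReal.ofReal (B * X ^ σ * (Real.exp (3 / 2) *
    Real.exp (τ₁ * (1 / 2 + σ)))) with hE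
  -- step 1: the integral representation
  have h1 : ∀ c, ∀ u ∈ S, ENNReal.ofReal ‖∑' x : {x : K // x ∈ M c ∧ x ≠ 0}, cc c x *
        v (Ideal.absNorm (idl K (M c) x)) *
          Wg cp H pb x (yM K (M c) u.2.1 (zs s u.1)) (om s u.2.2)‖ ≤
      E * ∫⁻ w : ℝ, ρ w * G c w u := by
    intro c u hu
    refine (hIN K (M c) cp H (cc c) s κ X B v (hM.1 c) hP (hcc c) hκ0 hκ1 hX0 hB hv
      (zs s u.1) u.2.1 u.2.2 σ hσ).trans ?_
    refine mul_le_mul' (ENNReal.ofReal_le_ofReal ?_) (le_of_eq (lintegral_congr fun w => ?_))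
    · refine mul_le_mul_of_nonneg_left ?_ (by positivity)
      rw [← Real.exp_add]
      apply Real.exp_le_exp.2
      have h2 : u.2.1 ≤ τ₁ + 1 := hu.2.1.2
      nlinarith
    · rw [hρ, hG]
      simp only
      rw [← ENNReal.ofReal_mul (Real.exp_pos _).le]
      rfl
  have h2 : ∑ c, ∫⁻ u in S, ENNReal.ofReal ‖∑' x : {x : K // x ∈ M c ∧ x ≠ 0}, cc c x *
        v (Ideal.absNorm (idl K (M c) x)) *
          Wg cp H pb x (yM K (M c) u.2.1 (zs s u.1)) (om s u.2.2)‖ ≤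
      E * ∑ c, ∫⁻ a, ρ a.1 * G c a.1 a.2 ∂((volume : Measure ℝ).prod (volume.restrict S)) := by
    rw [Finset.mul_sum]
    refine Finset.sum_le_sum fun c _ => ?_
    refine (setLIntegral_mono' hSm (h1 c)).trans (le_of_eq ?_)
    rw [lintegral_const_mul' _ _ ENNReal.ofReal_ne_top]
    exact congrArg (fun t => E * t) (lintegral_prod_symm' _ (hm1 c)).symm
  -- step 2: Cauchy-Schwarz
  have h3 : ∀ c, (∫⁻ a, ρ a.1 * G c a.1 a.2
      ∂((volume : Measure ℝ).prod (volume.restrict S))) ^ 2 ≤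
      (I₀ * volume S) * ∫⁻ w : ℝ, ρ w * ∫⁻ u in S, G c w u ^ 2 := by
    intro c
    refine (cs_weight _ hm3 (hGm c)).trans ?_
    refine mul_le_mul' (le_of_eq ?_) (le_of_eq ?_)
    · refine (lintegral_prod _ hm3.aemeasurable).trans ?_
      simp only [lintegral_const, Measure.restrict_apply MeasurableSet.univ, univ_inter]
      rw [lintegral_mul_const _ hρm]
    · refine (lintegral_prod _ (hm2 c).aemeasurable).trans ?_
      refine lintegral_congr fun w => ?_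
      have hρt : ρ w ≠ ⊤ := ENNReal.ofReal_ne_top
      exact lintegral_const_mul' (ρ w) (fun u => G c w u ^ 2) hρt
  -- step 3: the mean square
  set R₁ : ℝ := cw K * ((dvs K k).card * D) *
      (|(discr K : ℝ)| * Nf K j * Nf K k * HH H * Real.exp |τ₁|) ^ ε *
      (Real.exp (-τ₁) * (HH H)⁻¹ * (1 + Nf K k / Nf K j +
        Real.exp (-τ₁) * (HH H ^ 2)⁻¹ / (Real.sqrt |(discr K : ℝ)| * Nf K j * Nf K k))) with hR₁
  have hHH := one_le_HH hH
  have hNj : 0 ≤ Nf K j := by unfold Nf; positivity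
  have hNk : 0 ≤ Nf K k := by unfold Nf; positivity
  have hcw : 0 ≤ cw K := by unfold cw; positivity
  have hR₁0 : 0 ≤ R₁ := by
    rw [hR₁]
    positivity
  have h4 : ∀ w : ℝ, ∑ c, ∫⁻ u in S, G c w u ^ 2 ≤ ENNReal.ofReal (Λ * (CT *
      (CB * (4 + 2 * |w|) ^ (2 * n + 4)) ^ (2 * n) * R₁)) := by
    intro w
    have hB' : 1 ≤ CB * (4 + 2 * |w|) ^ (2 * n + 4) := by
      have h5 : (1 : ℝ) ≤ (4 + 2 * |w|) ^ (2 * n + 4) :=
        one_le_pow₀ (by linarith [abs_nonneg w])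
      exact one_le_mul_of_one_le_of_one_le hCB h5
    have hbm : ∀ v, Bmp (2 * n + 4) (CB * (4 + 2 * |w|) ^ (2 * n + 4))
        (pl H (1 / 2 + σ + w * I) v) := fun v => pl_bmp hCB hPB' hH hσ0 hσ1 w v
    have h5 := hTT' K hn ι M hM j k D q X₁ cp H (pl H (1 / 2 + σ + w * I))
      (CB * (4 + 2 * |w|) ^ (2 * n + 4)) s τ₁ hj hk hD hcor hX₁ hP hB' hbm
    rw [ENNReal.ofReal_mul hΛ]
    have h6 : ∀ c, ∫⁻ u in S, G c w u ^ 2 ≤ ENNReal.ofReal Λ *
        ∫⁻ z in Fd K, ∫⁻ τ in Icc τ₁ (τ₁ + 1), ∫⁻ θ in An K, ∑ r ∈ X₁ c,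
      ENNReal.ofReal (‖Sq j (M c) (q c) r cp H (pl H (1 / 2 + σ + w * I))
        (yM K (M c) τ (zs s z)) (om s θ)‖ ^ 2) := by
      intro c
      have hm : Measurable (fun u : logSpace K × ℝ × (InfinitePlace K → ℝ) => ∑ r ∈ X₁ c,
          ENNReal.ofReal (‖Sq j (M c) (q c) r cp H (pl H (1 / 2 + σ + w * I))
            (yM K (M c) u.2.1 (zs s u.1)) (om s u.2.2)‖ ^ 2)) := by
        refine Finset.measurable_fun_sum _ fun r _ => ?_
        refine ENNReal.measurable_ofReal.comp ?_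
        refine Measurable.pow_const (Measurable.norm ?_) 2
        have h7 := (hMS K (M c) cp H (pl H (1 / 2 + σ + w * I))
          (fun x => ci K j (M c) r x * q c x) s (hM.1 c) hP
          (fun v => ⟨_, (hbm v).mono (Nat.zero_le _) le_rfl⟩) ⟨1, fun x hx => by
            rw [norm_mul]
            have h8 : ‖ci K j (M c) r x‖ ≤ 1 := by
              unfold ci
              split_ifs <;> simp
            exact mul_le_one₀ h8 (norm_nonneg _) ((hcor c).norm x hx)⟩).1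
        exact h7
      rw [← Sp'_int hFD τ₁ hm, ← lintegral_const_mul' _ _ ENNReal.ofReal_ne_top]
      refine lintegral_mono fun u => ?_
      rw [hG]
      simp only
      rw [← ENNReal.ofReal_pow (norm_nonneg _),
        ← ENNReal.ofReal_sum_of_nonneg (fun r _ => by positivity), ← ENNReal.ofReal_mul hΛ]
      refine ENNReal.ofReal_le_ofReal ?_
      exact hle c (pl H (1 / 2 + σ + w * I)) (yM K (M c) u.2.1 (zs s u.1)) (om s u.2.2)
        (fun v => ⟨_, hbm v⟩) (Pos_om s u.2.2)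
    refine (Finset.sum_le_sum fun c _ => h6 c).trans ?_
    rw [← Finset.mul_sum]
    refine mul_le_mul' le_rfl (h5.trans (le_of_eq ?_))
    rw [hR₁]
    congr 1
    ring
  have h5 : ∑ c, ∫⁻ w : ℝ, ρ w * ∫⁻ u in S, G c w u ^ 2 ≤ ENNReal.ofReal (Λ * (CT * R₁)) * J := by
    rw [← lintegral_finsetSum _ (fun c _ => hm4 c), hJ,
      ← lintegral_const_mul' _ _ ENNReal.ofReal_ne_top]
    refine lintegral_mono fun w => ?_
    simp only
    rw [← Finset.mul_sum]
    refine (mul_le_mul' le_rfl (h4 w)).trans (le_of_eq ?_)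
    rw [hρ]
    simp only
    rw [← ENNReal.ofReal_mul (Real.exp_pos _).le, ← ENNReal.ofReal_mul (by positivity)]
    congr 1
    ring
  -- assembly
  have h6 : (∑ c, ∫⁻ a, ρ a.1 * G c a.1 a.2
      ∂((volume : Measure ℝ).prod (volume.restrict S))) ^ 2 ≤
      (Fintype.card ι : ℝ≥0∞) * ((I₀ * volume S) * (ENNReal.ofReal (Λ * (CT * R₁)) * J)) := by
    refine (cs_sum _).trans (mul_le_mul' le_rfl ?_)
    refine (Finset.sum_le_sum fun c _ => h3 c).trans ?_
    rw [← Finset.mul_sum]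
    exact mul_le_mul' le_rfl h5
  refine (pow_le_pow_left₀ (zero_le) h2 2).trans ?_
  rw [mul_pow]
  refine (mul_le_mul' le_rfl h6).trans ?_
  have hcard : (Fintype.card ι : ℝ≥0∞) = ENNReal.ofReal (classNumber K) := by
    rw [(hRR K ι M hM).2.2, ENNReal.ofReal_natCast]
  have hreg : 0 < regulator K := regulator_pos K
  rw [hcard]
  calc E ^ 2 * (ENNReal.ofReal (classNumber K) *
        ((I₀ * volume S) * (ENNReal.ofReal (Λ * (CT * R₁)) * J)))
      ≤ E ^ 2 * (ENNReal.ofReal (classNumber K) *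
        ((I₀ * (ENNReal.ofReal (regulator K) * ENNReal.ofReal ((2 * Real.pi) ^ n))) *
          (ENNReal.ofReal (Λ * (CT * R₁)) * J))) := by
        gcongr
        exact Sp'_vol hn hFD τ₁
    _ = ENNReal.ofReal ((B * X ^ σ * (Real.exp (3 / 2) * Real.exp (τ₁ * (1 / 2 + σ)))) ^ 2 *
        (classNumber K * ((I₀.toReal * (regulator K * (2 * Real.pi) ^ n)) *
          ((Λ * (CT * R₁)) * J.toReal)))) := by
        rw [hE, ← ENNReal.ofReal_pow (by positivity)]
        conv_lhs => rw [← ENNReal.ofReal_toReal hI₀fin.ne, ← ENNReal.ofReal_toReal hJfin.ne]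
        rw [← ENNReal.ofReal_mul (by positivity), ← ENNReal.ofReal_mul (by positivity),
          ← ENNReal.ofReal_mul (by positivity), ← ENNReal.ofReal_mul (by positivity),
          ← ENNReal.ofReal_mul (by positivity), ← ENNReal.ofReal_mul (by positivity)]
    _ = _ := by
        congr 1
        have e1 : (Real.exp (3 / 2) * Real.exp (τ₁ * (1 / 2 + σ))) ^ 2 =
            Real.exp 3 * Real.exp (τ₁ * (1 + 2 * σ)) := by
          rw [mul_pow, ← Real.exp_nat_mul, ← Real.exp_nat_mul]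
          congr 2
          · norm_num
          · push_cast
            ring
        rw [mul_pow (B * X ^ σ), e1]
        ring

end Pool.Agent.H29.DW
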