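import Pool.Agent.H29.DW.Targets

/-!
# The hybrid Weyl bound: tools
-/

set_option autoImplicit false
set_option linter.unusedSectionVars false
set_option linter.unusedVariables false

open NumberField NumberField.InfinitePlace NumberField.Units
  NumberField.Units.dirichletUnitTheorem MeasureTheory Set Filter Complex
open scoped nonZeroDivisors ENNReal

namespace Pool.Agent.H29.DW

open Pool.Agent.H25.HK Pool.Agent.H23.LB Pool.Agent.H23.LC
open Pool.Agent.H28.RC (Rep ft idl)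
open Pool.Agent.H29.TC (GK fk_le dvs)

/-! ### Local facts -/

theorem norm_aq (r : Bool) (θ : ℝ) : ‖aq r θ‖ = 1 := by
  unfold aq
  cases r
  · simp [Complex.norm_exp_ofReal_mul_I]
  · simp only [if_true]
    split_ifs <;> simp

theorem aq_real (θ : ℝ) : (aq true θ).im = 0 := by
  unfold aq
  simp only [if_true]
  split_ifs <;> simp

theorem aq_ne (r : Bool) (θ : ℝ) : aq r θ ≠ 0 := by
  intro h
  have := norm_aq r θ
  rw [h, norm_zero] at this
  exact zero_ne_one this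

theorem measurable_aq (r : Bool) : Measurable (aq r) := by
  unfold aq
  cases r
  · simp only [Bool.false_eq_true, if_false]
    fun_prop
  · simp only [if_true]
    exact Measurable.ite measurableSet_Iio measurable_const measurable_const

theorem norm_chp (c w : ℂ) : ‖chp c w‖ = 1 := by
  unfold chp
  rw [← Complex.ofReal_neg]
  exact Complex.norm_exp_ofReal_mul_I _

theorem norm_tw1 (c : ℂ) (H : ℝ) (p : ℂ → ℂ) (w : ℂ) : ‖tw1 c H p w‖ = ‖p (H * (w - 1))‖ := by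
  unfold tw1
  rw [norm_mul, norm_chp, one_mul]

theorem Bmp.norm_le {A : ℕ} {B : ℝ} {p : ℂ → ℂ} (h : Bmp A B p) (x : ℂ) : ‖p x‖ ≤ B := by
  have := h.bound 0 (Nat.zero_le _) x
  rwa [norm_iteratedFDeriv_zero] at this

theorem Bmp.nonneg {A : ℕ} {B : ℝ} {p : ℂ → ℂ} (h : Bmp A B p) : 0 ≤ B :=
  (norm_nonneg _).trans (h.norm_le 0)

theorem Bmp.mono {A A' : ℕ} {B B' : ℝ} {p : ℂ → ℂ} (h : Bmp A B p) (hA : A' ≤ A)
    (hB : B ≤ B') : Bmp A' B' p :=
  ⟨h.smooth, h.supp, fun j hj x => (h.bound j (hj.trans hA) x).trans hB⟩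

theorem Bmp.continuous {A : ℕ} {B : ℝ} {p : ℂ → ℂ} (h : Bmp A B p) : Continuous p :=
  (h.smooth 0).continuous

theorem b0_nonneg (x : ℂ) : 0 ≤ b0 x := b0.nonneg

theorem b0_le_one (x : ℂ) : b0 x ≤ 1 := b0.le_one

theorem b0_zero {x : ℂ} (h : 1 / 16 ≤ ‖x‖) : b0 x = 0 := by
  apply b0.zero_of_le_dist
  rw [dist_zero_right]
  exact h

theorem b0_one {x : ℂ} (h : ‖x‖ ≤ 1 / 32) : b0 x = 1 := by
  apply b0.one_of_mem_closedBall
  rw [Metric.mem_closedBall, dist_zero_right]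
  exact h

theorem b0_contDiff (n : ℕ) : ContDiff ℝ n (fun x : ℂ => (b0 x : ℂ)) :=
  Complex.ofRealCLM.contDiff.comp b0.contDiff

theorem pb_zero (K : Type) [Field K] [NumberField K] (v : InfinitePlace K) :
    Bmp 0 1 (pb v) := by
  refine ⟨fun n => b0_contDiff n, fun x hx => ?_, fun j hj x => ?_⟩
  · unfold pb
    rw [b0_zero hx.le, Complex.ofReal_zero]
  · obtain rfl : j = 0 := Nat.le_zero.1 hj
    rw [norm_iteratedFDeriv_zero]
    unfold pb
    rw [Complex.norm_real, Real.norm_eq_abs, abs_of_nonneg (b0_nonneg x)]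
    exact b0_le_one x

theorem pp_eq (H : ℝ) (l : ℂ) (w : ℂ) (hH : 1 ≤ H) :
    pp H l (H * (w - 1)) = (b0 (H * (w - 1)) : ℂ) * cexp (-l * (Real.log ‖w‖ : ℝ)) := by
  unfold pp
  have : (H : ℂ) ≠ 0 := by
    exact_mod_cast (lt_of_lt_of_le one_pos hH).ne'
  rw [show (1 : ℂ) + H * (w - 1) / H = w by field_simp; ring]

theorem pp_zero {H : ℝ} {l x : ℂ} (h : 1 / 16 ≤ ‖x‖) : pp H l x = 0 := by
  unfold pp
  rw [b0_zero h, Complex.ofReal_zero, zero_mul]

theorem le_nH {H : ℝ} (h : 1 ≤ H) : H ≤ 2 ^ nH H := by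
  unfold nH
  calc H ≤ (⌈H⌉₊ : ℝ) := Nat.le_ceil H
    _ ≤ ((2 ^ Nat.clog 2 ⌈H⌉₊ : ℕ) : ℝ) := by
      exact_mod_cast Nat.le_pow_clog (by norm_num) _
    _ = 2 ^ Nat.clog 2 ⌈H⌉₊ := by push_cast; rfl

theorem nH_lt {H : ℝ} (h : 1 ≤ H) : (2 : ℝ) ^ nH H < 4 * H := by
  unfold nH
  have h1 : 1 ≤ ⌈H⌉₊ := Nat.one_le_ceil_iff.2 (by linarith)
  rcases Nat.lt_or_ge 1 ⌈H⌉₊ with h2 | h2
  · have h3 : (2 : ℕ) ^ (Nat.clog 2 ⌈H⌉₊ - 1) < ⌈H⌉₊ := Nat.pow_pred_clog_lt_self (by norm_num) h2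
    have h4 : 1 ≤ Nat.clog 2 ⌈H⌉₊ := Nat.clog_pos (by norm_num) h2
    have h5 : (2 : ℕ) ^ Nat.clog 2 ⌈H⌉₊ = 2 * 2 ^ (Nat.clog 2 ⌈H⌉₊ - 1) := by
      conv_lhs => rw [show Nat.clog 2 ⌈H⌉₊ = (Nat.clog 2 ⌈H⌉₊ - 1) + 1 by omega]
      rw [pow_succ]
      ring
    have h6 : ((2 : ℕ) ^ Nat.clog 2 ⌈H⌉₊ : ℝ) < 2 * (H + 1) := by
      have h7 : ((2 ^ (Nat.clog 2 ⌈H⌉₊ - 1) : ℕ) : ℝ) < (⌈H⌉₊ : ℝ) := by exact_mod_cast h3
      have h8 : (⌈H⌉₊ : ℝ) < H + 1 := Nat.ceil_lt_add_one (by linarith)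
      have h9 : ((2 ^ Nat.clog 2 ⌈H⌉₊ : ℕ) : ℝ) = 2 * ((2 ^ (Nat.clog 2 ⌈H⌉₊ - 1) : ℕ) : ℝ) := by
        exact_mod_cast h5
      have h10 : ((2 : ℕ) ^ Nat.clog 2 ⌈H⌉₊ : ℝ) = ((2 ^ Nat.clog 2 ⌈H⌉₊ : ℕ) : ℝ) := by
        push_cast; rfl
      rw [h10, h9]
      linarith
    have h11 : ((2 : ℕ) ^ Nat.clog 2 ⌈H⌉₊ : ℝ) = (2 : ℝ) ^ Nat.clog 2 ⌈H⌉₊ := by
      push_cast; rfl
    rw [h11] at h6
    linarith
  · have h3 : ⌈H⌉₊ = 1 := le_antisymm h2 h1
    rw [h3]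
    simp
    linarith

theorem Par.pos {r : Bool} {c : ℂ} {H : ℝ} (h : Par r c H) : 0 < H :=
  lt_of_lt_of_le one_pos h.one_le

theorem Par.norm_le {r : Bool} {c : ℂ} {H : ℝ} (h : Par r c H) : ‖c‖ ≤ H ^ 3 := by
  rw [h.cube]
  exact le_max_right _ _

/-! ### Global facts -/

section NF

variable {K : Type} [Field K] [NumberField K]

theorem rv_iff (v : InfinitePlace K) : rv v = true ↔ v.IsReal := by
  unfold rv
  simp

theorem an_eq (v : InfinitePlace K) (θ : ℝ) : an v θ = aq (rv v) θ := by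
  unfold an aq rv
  by_cases h : v.IsReal <;> simp [h]

theorem dg_rv (v : InfinitePlace K) : dg (rv v) = v.mult := by
  unfold dg rv InfinitePlace.mult
  by_cases h : v.IsReal <;> simp [h]

theorem Pos_om (s : Bool) (θ : InfinitePlace K → ℝ) : Pos (om s θ) := by
  constructor
  · intro v
    unfold om
    cases s <;> simp [an_eq, norm_aq]
  · intro v hv
    have h1 : (an v (θ v)).im = 0 := by
      rw [an_eq, (rv_iff v).2 hv]
      exact aq_real _
    unfold om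
    cases s <;> simp [h1]

theorem Pos.conj {ω : InfinitePlace K → ℂ} (h : Pos ω) :
    Pos (fun v => (starRingEnd ℂ) (ω v)) :=
  ⟨fun v => by simp [h.one v], fun v hv => by simp [h.real v hv]⟩

theorem norm_wv (v : InfinitePlace K) (x : K) (y : InfinitePlace K → ℝ)
    {ω : InfinitePlace K → ℂ} (h : Pos ω) : ‖wv v x y ω‖ = v x * Real.exp (y v / 2) := by
  unfold wv
  rw [norm_mul, norm_mul, h.one v, mul_one, Complex.norm_real, Real.norm_eq_abs,
    abs_of_pos (Real.exp_pos _), InfinitePlace.norm_embedding_eq]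

theorem wv_add (v : InfinitePlace K) (x x' : K) (y : InfinitePlace K → ℝ)
    (ω : InfinitePlace K → ℂ) : wv v (x + x') y ω = wv v x y ω + wv v x' y ω := by
  unfold wv
  rw [map_add]
  ring

theorem wv_zero (v : InfinitePlace K) (y : InfinitePlace K → ℝ)
    (ω : InfinitePlace K → ℂ) : wv v (0 : K) y ω = 0 := by
  unfold wv
  rw [map_zero]
  ring

theorem Rl_wv (v : InfinitePlace K) (x : K) (y : InfinitePlace K → ℝ)
    {ω : InfinitePlace K → ℂ} (h : Pos ω) : Rl (rv v) (wv v x y ω) := by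
  intro hv
  have h1 : v.IsReal := (rv_iff v).1 hv
  have h2 : (v.embedding x).im = 0 := by
    have h3 := InfinitePlace.isReal_iff.1 h1
    have h4 : (starRingEnd ℂ) (v.embedding x) = v.embedding x := by
      have := ComplexEmbedding.isReal_iff.1 h3
      conv_rhs => rw [← this]
      rfl
    exact Complex.conj_eq_iff_im.1 h4
  have h5 := h.real v h1
  have h6 : (((Real.exp (y v / 2) : ℝ) : ℂ)).im = 0 := Complex.ofReal_im _
  unfold wv
  rw [Complex.mul_im, Complex.mul_im, h2, h5, h6]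
  ring

theorem Wg_ne {cp : InfinitePlace K → ℂ} {H : InfinitePlace K → ℝ}
    {p : InfinitePlace K → ℂ → ℂ} {x : K} {y : InfinitePlace K → ℝ} {ω : InfinitePlace K → ℂ}
    (hH : ∀ v, 1 ≤ H v) (hp : ∀ v x, 1 / 16 < ‖x‖ → p v x = 0)
    (h : Wg cp H p x y ω ≠ 0) (v : InfinitePlace K) : H v * ‖wv v x y ω - 1‖ ≤ 1 / 16 := by
  by_contra h1
  apply h
  unfold Wg
  refine Finset.prod_eq_zero (Finset.mem_univ v) ?_
  have h2 : ‖(H v : ℂ) * (wv v x y ω - 1)‖ = H v * ‖wv v x y ω - 1‖ := by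
    rw [norm_mul, Complex.norm_real, Real.norm_eq_abs,
      abs_of_pos (lt_of_lt_of_le one_pos (hH v))]
  unfold tw1
  rw [hp v _ (by rw [h2]; exact not_le.1 h1), mul_zero]

theorem Wg_zero {cp : InfinitePlace K → ℂ} {H : InfinitePlace K → ℝ}
    {p : InfinitePlace K → ℂ → ℂ} {y : InfinitePlace K → ℝ} {ω : InfinitePlace K → ℂ}
    (hH : ∀ v, 1 ≤ H v) (hp : ∀ v x, 1 / 16 < ‖x‖ → p v x = 0) :
    Wg cp H p (0 : K) y ω = 0 := by
  by_contra h
  have v : InfinitePlace K := Classical.arbitrary _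
  have h1 := Wg_ne hH hp h v
  rw [wv_zero, zero_sub, norm_neg, norm_one, mul_one] at h1
  linarith [hH v]

theorem norm_Wg (cp : InfinitePlace K → ℂ) (H : InfinitePlace K → ℝ)
    (p : InfinitePlace K → ℂ → ℂ) (x : K) (y : InfinitePlace K → ℝ) (ω : InfinitePlace K → ℂ) :
    ‖Wg cp H p x y ω‖ = ∏ v, ‖p v (H v * (wv v x y ω - 1))‖ := by
  unfold Wg
  rw [norm_prod]
  exact Finset.prod_congr rfl fun v _ => norm_tw1 _ _ _ _

theorem sum_mult {n : ℕ} (hn : Module.finrank ℚ K = n) :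
    ∑ v : InfinitePlace K, v.mult = n := by
  rw [← hn]
  exact InfinitePlace.sum_mult_eq

theorem mult_pos' (v : InfinitePlace K) : 1 ≤ v.mult ∧ v.mult ≤ 2 := by
  unfold InfinitePlace.mult
  split_ifs <;> simp

theorem card_places_le {n : ℕ} (hn : Module.finrank ℚ K = n) :
    Fintype.card (InfinitePlace K) ≤ n := by
  rw [← sum_mult hn, ← Finset.card_univ, Finset.card_eq_sum_ones]
  exact Finset.sum_le_sum fun v _ => (mult_pos' v).1

theorem Hpar_one_le (cp : InfinitePlace K → ℂ) (v : InfinitePlace K) : 1 ≤ Hpar cp v := by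
  unfold Hpar
  exact Real.one_le_rpow (le_max_left _ _) (by norm_num)

theorem Hpar_cube (cp : InfinitePlace K → ℂ) (v : InfinitePlace K) :
    Hpar cp v ^ 3 = max 1 ‖cp v‖ := by
  unfold Hpar
  rw [← Real.rpow_natCast, ← Real.rpow_mul (le_trans zero_le_one (le_max_left _ _))]
  norm_num

theorem Prm_cpar (k : InfinitePlace K → ℤ) (ν : InfinitePlace K → ℝ) (t : ℝ) :
    Prm (cpar k ν t) (Hpar (cpar k ν t)) := by
  refine ⟨fun v => ⟨Hpar_one_le _ v, Hpar_cube _ v, fun hv => ?_⟩⟩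
  have h1 : v.IsReal := (rv_iff v).1 hv
  unfold cpar
  rw [if_pos h1]
  exact Complex.ofReal_im _

theorem Prm.one_le {cp : InfinitePlace K → ℂ} {H : InfinitePlace K → ℝ} (h : Prm cp H)
    (v : InfinitePlace K) : 1 ≤ H v := (h.par v).one_le

theorem one_le_HH {H : InfinitePlace K → ℝ} (h : ∀ v, 1 ≤ H v) : 1 ≤ HH H := by
  unfold HH
  exact Finset.prod_induction _ (fun x : ℝ => 1 ≤ x)
    (fun a b ha hb => one_le_mul_of_one_le_of_one_le ha hb) le_rfl fun v _ => one_le_pow₀ (h v)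

theorem cpar_neg (k : InfinitePlace K → ℤ) (ν : InfinitePlace K → ℝ) (t : ℝ) :
    cpar (-k) (-ν) (-t) = fun v => -cpar k ν t v := by
  funext v
  unfold cpar
  split_ifs
  · simp only [Pi.neg_apply]
    push_cast
    ring
  · simp only [Pi.neg_apply]
    push_cast
    ring

theorem Ci_neg (k : InfinitePlace K → ℤ) (ν : InfinitePlace K → ℝ) (t : ℝ) :
    Ci (-k) (-ν) (-t) = Ci k ν t := by
  unfold Ci
  refine Finset.prod_congr rfl fun v _ => ?_
  congr 2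
  · rw [Pi.neg_apply, show -t - -ν v = -(t - ν v) by ring, abs_neg]
  · simp

theorem Hpar_neg (k : InfinitePlace K → ℤ) (ν : InfinitePlace K → ℝ) (t : ℝ) :
    Hpar (cpar (-k) (-ν) (-t)) = Hpar (cpar k ν t) := by
  funext v
  unfold Hpar
  rw [cpar_neg]
  simp

theorem norm_cpar_le (k : InfinitePlace K → ℤ) (ν : InfinitePlace K → ℝ) (t : ℝ)
    (v : InfinitePlace K) : ‖cpar k ν t v‖ ≤ 2 * (|t - ν v| + |(k v : ℝ)|) := by
  unfold cpar
  split_ifs
  · rw [Complex.norm_real, Real.norm_eq_abs]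
    have := abs_nonneg (t - ν v)
    have := abs_nonneg (k v : ℝ)
    linarith
  · refine (norm_add_le _ _).trans ?_
    rw [Complex.norm_real, norm_mul (k v : ℂ), Complex.norm_I, mul_one, Real.norm_eq_abs, abs_mul,
      Complex.norm_intCast]
    have := abs_nonneg (k v : ℝ)
    rw [abs_of_pos (by norm_num : (0 : ℝ) < 2)]
    linarith

theorem le_norm_cpar (k : InfinitePlace K → ℤ) (ν : InfinitePlace K → ℝ) (t : ℝ)
    (hk : ∀ v : InfinitePlace K, v.IsReal → k v = 0 ∨ k v = 1) (v : InfinitePlace K) :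
    1 + |t - ν v| + |(k v : ℝ)| ≤ 3 * max 1 ‖cpar k ν t v‖ := by
  by_cases hv : v.IsReal
  · have h1 : ‖cpar k ν t v‖ = |t - ν v| := by
      unfold cpar
      rw [if_pos hv, Complex.norm_real, Real.norm_eq_abs]
    have h2 : |(k v : ℝ)| ≤ 1 := by
      rcases hk v hv with h | h <;> simp [h]
    rw [h1]
    have h3 := le_max_left (1 : ℝ) |t - ν v|
    have h4 := le_max_right (1 : ℝ) |t - ν v|
    linarith
  · have h1 : |2 * (t - ν v)| ≤ ‖cpar k ν t v‖ := by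
      unfold cpar
      rw [if_neg hv]
      refine le_trans (le_of_eq ?_) (Complex.abs_re_le_norm _)
      simp
    have h2 : |(k v : ℝ)| ≤ ‖cpar k ν t v‖ := by
      unfold cpar
      rw [if_neg hv]
      refine le_trans (le_of_eq ?_) (Complex.abs_im_le_norm _)
      simp
    have h3 := le_max_left (1 : ℝ) ‖cpar k ν t v‖
    have h4 := le_max_right (1 : ℝ) ‖cpar k ν t v‖
    rw [abs_mul, abs_of_pos (by norm_num : (0 : ℝ) < 2)] at h1
    linarith

theorem one_le_Ci (k : InfinitePlace K → ℤ) (ν : InfinitePlace K → ℝ) (t : ℝ) :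
    1 ≤ Ci k ν t := by
  unfold Ci
  refine Finset.prod_induction _ (fun x : ℝ => 1 ≤ x)
    (fun a b ha hb => one_le_mul_of_one_le_of_one_le ha hb) le_rfl fun v _ => one_le_pow₀ ?_
  have := abs_nonneg (t - ν v)
  have := abs_nonneg (k v : ℝ)
  linarith

/-- `C_∞ ≤ 3 ^ n (∏ H_v ^ e_v) ^ 3` -/
theorem Ci_le {n : ℕ} (hn : Module.finrank ℚ K = n) (k : InfinitePlace K → ℤ)
    (ν : InfinitePlace K → ℝ) (t : ℝ)
    (hk : ∀ v : InfinitePlace K, v.IsReal → k v = 0 ∨ k v = 1) :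
    Ci k ν t ≤ 3 ^ n * HH (Hpar (cpar k ν t)) ^ 3 := by
  unfold Ci HH
  rw [← sum_mult hn, ← Finset.prod_pow_eq_pow_sum, ← Finset.prod_pow, ← Finset.prod_mul_distrib]
  refine Finset.prod_le_prod (fun v _ => by positivity) fun v _ => ?_
  rw [← pow_mul, mul_comm v.mult 3, pow_mul, Hpar_cube, ← mul_pow]
  refine pow_le_pow_left₀ (by positivity) (le_norm_cpar k ν t hk v) _

/-- `∏ H_v ^ e_v ≤ 2 ^ n C_∞ ^ (1/3)` -/
theorem HH_le {n : ℕ} (hn : Module.finrank ℚ K = n) (k : InfinitePlace K → ℤ)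
    (ν : InfinitePlace K → ℝ) (t : ℝ) :
    HH (Hpar (cpar k ν t)) ≤ 2 ^ n * Ci k ν t ^ (1 / 3 : ℝ) := by
  have h0 : ∀ v : InfinitePlace K, 0 ≤ 1 + |t - ν v| + |(k v : ℝ)| := fun v => by positivity
  have h1 : HH (Hpar (cpar k ν t)) ^ 3 ≤ 2 ^ n * Ci k ν t := by
    unfold Ci HH
    rw [← sum_mult hn, ← Finset.prod_pow_eq_pow_sum, ← Finset.prod_pow,
      ← Finset.prod_mul_distrib]
    refine Finset.prod_le_prod (fun v _ => ?_) fun v _ => ?_
    · have := Hpar_one_le (cpar k ν t) v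
      positivity
    · rw [← pow_mul, mul_comm v.mult 3, pow_mul, Hpar_cube, ← mul_pow]
      refine pow_le_pow_left₀ (le_trans zero_le_one (le_max_left _ _)) (max_le ?_ ?_) _
      · have := abs_nonneg (t - ν v)
        have := abs_nonneg (k v : ℝ)
        linarith
      · refine (norm_cpar_le k ν t v).trans ?_
        linarith
  have h2 : 0 ≤ HH (Hpar (cpar k ν t)) :=
    le_trans zero_le_one (one_le_HH fun v => Hpar_one_le _ v)
  have h3 : HH (Hpar (cpar k ν t)) = (HH (Hpar (cpar k ν t)) ^ 3) ^ (1 / 3 : ℝ) := by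
    rw [← Real.rpow_natCast, ← Real.rpow_mul h2]
    norm_num
  rw [h3]
  refine (Real.rpow_le_rpow (by positivity) h1 (by norm_num)).trans ?_
  rw [Real.mul_rpow (by positivity) (le_trans zero_le_one (one_le_Ci k ν t))]
  refine mul_le_mul_of_nonneg_right ?_ (Real.rpow_nonneg (le_trans zero_le_one (one_le_Ci k ν t)) _)
  conv_rhs => rw [← Real.rpow_one ((2 : ℝ) ^ n)]
  exact Real.rpow_le_rpow_of_exponent_le (one_le_pow₀ (by norm_num)) (by norm_num)

omit [NumberField K] in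
theorem GM.gk {l g k : Ideal (𝓞 K)} (h : GM K l g k) (hk : k ≠ ⊤) : GK l g k :=
  ⟨h.l_ne, h.g_ne, h.k_ne, hk, h.rad, h.cop, h.odd⟩

end NF

end Pool.Agent.H29.DW
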