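import Pool.Agent.H29.DW.Defs

/-!
# The hybrid Weyl bound: targets
-/

set_option autoImplicit false

open NumberField NumberField.InfinitePlace NumberField.Units
  NumberField.Units.dirichletUnitTheorem MeasureTheory Set Filter Complex
open scoped nonZeroDivisors ENNReal

namespace Pool.Agent.H29.DW

open Pool.Agent.H25.HK Pool.Agent.H23.LB Pool.Agent.H23.LC
open Pool.Agent.H28.RC (Rep ft idl)
open Pool.Agent.H29.TC (GK fk_le dvs cq LC Gn)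

/-! ### Part L: local analysis -/

/-- (FT) the Fourier transform of a bump function. -/
def V_FT : Prop :=
  ∀ A : ℕ, ∃ C : ℝ, 0 ≤ C ∧ ∀ (r : Bool) (B : ℝ) (q : ℂ → ℂ), 0 ≤ B → Bmp A B q →
    ∀ ξ : ℂ, Rl r ξ → ‖lf r q ξ‖ ≤ C * B * (1 + ‖ξ‖) ^ (-(A : ℝ))

/-- (AM) the ambiguity function. -/
def V_AM : Prop :=
  ∀ A : ℕ, ∃ C : ℝ, 0 ≤ C ∧ ∀ (r : Bool) (B H : ℝ) (c a ξ : ℂ) (p : ℂ → ℂ), 0 ≤ B →
    Bmp A B p → 1 ≤ H → Rl r c → Rl r a → Rl r ξ →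
    ‖lf r (fun w => tw1 c H p (w + a) * (starRingEnd ℂ) (tw1 c H p w)) ξ‖ ≤
      C * B ^ 2 * H ^ (-(dg r : ℝ)) * amb r A c H a ξ

/-- (LA) the average of the ambiguity function over a neighbourhood. -/
def V_LA : Prop :=
  ∀ n A : ℕ, 0 < n → 3 ≤ A → ∃ C : ℝ, 0 ≤ C ∧ ∀ (r : Bool) (H : ℝ) (c : ℂ), Par r c H →
    ∀ a ξ : ℂ, Rl r a → Rl r ξ →
    ∫⁻ b in Icc (-(1 / (n : ℝ))) (1 / (n : ℝ)), ∫⁻ θ in Icc (0 : ℝ) (2 * Real.pi),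
      ENNReal.ofReal (amb r A c H (a * ((Real.exp (b / 2) : ℝ) : ℂ) * aq r θ)
        (ξ * ((Real.exp (-b / 2) : ℝ) : ℂ) * (starRingEnd ℂ) (aq r θ))) ≤
    ENNReal.ofReal (C * ∑ i ∈ Finset.range (nH H + 1), (2 : ℝ) ^ (-((i * dg r : ℕ) : ℝ)) *
      ((1 + ‖a‖ * H ^ 2 / 2 ^ i) ^ (-(A : ℝ)) * (1 + ‖ξ‖ / (H * 2 ^ i)) ^ (-(A : ℝ))))

/-- (LD) the average of the square of the test function. -/
def V_LD : Prop :=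
  ∀ n A : ℕ, 0 < n → ∃ C : ℝ, 0 ≤ C ∧ ∀ (r : Bool) (B H : ℝ) (c a : ℂ) (p : ℂ → ℂ), 0 ≤ B →
    Bmp 0 B p → 1 ≤ H → Rl r a →
    ∫⁻ b in Icc (-(1 / (n : ℝ))) (1 / (n : ℝ)), ∫⁻ θ in Icc (0 : ℝ) (2 * Real.pi),
      ENNReal.ofReal (‖tw1 c H p (a * ((Real.exp (b / 2) : ℝ) : ℂ) * aq r θ)‖ ^ 2) ≤
    ENNReal.ofReal (C * B ^ 2 * H ^ (-(dg r : ℝ)) * (1 + ‖a‖) ^ (-(A : ℝ)))

/-- (ML) the local Mellin transform: integrability and a lower bound. -/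
def V_ML : Prop :=
  ∃ c₀ : ℝ, 0 < c₀ ∧ ∀ (r : Bool) (c : ℂ) (H : ℝ), Par r c H → ∀ (k : ℤ) (t : ℝ),
    (c = if r then (t : ℂ) else ((2 * t : ℝ) : ℂ) + (k : ℂ) * I) →
    Integrable (fun y : ℝ => ∫ θ in Icc (0 : ℝ) (2 * Real.pi), aq r θ ^ (-k) *
      cexp ((dg r * t * y / 2 : ℝ) * I) *
        tw1 c H (fun x => (b0 x : ℂ)) (((Real.exp (y / 2) : ℝ) : ℂ) * aq r θ)) ∧
    c₀ * H ^ (-(dg r : ℝ)) ≤ ‖∫ y : ℝ, ∫ θ in Icc (0 : ℝ) (2 * Real.pi), aq r θ ^ (-k) *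
      cexp ((dg r * t * y / 2 : ℝ) * I) *
        tw1 c H (fun x => (b0 x : ℂ)) (((Real.exp (y / 2) : ℝ) : ℂ) * aq r θ)‖

/-- (PB) the bump functions `pp`. -/
def V_PB : Prop :=
  ∀ A : ℕ, ∃ C : ℝ, 1 ≤ C ∧ ∀ (H : ℝ) (l : ℂ), 1 ≤ H → |l.re| ≤ 4 →
    Bmp A (C * (1 + ‖l‖) ^ A) (pp H l)

/-! ### Part P: Poisson summation -/

/-- (PM) Poisson summation for a lattice in `ℝ^n`. -/
def V_PM : Prop :=
  ∀ (ι : Type) [Fintype ι] [DecidableEq ι] (A : Matrix ι ι ℝ), A.det ≠ 0 →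
    ∀ (x₀ : ι → ℝ) (G : (ι → ℝ) → ℂ), Continuous G → HasCompactSupport G →
    (∃ C : ℝ, ∀ ξ : ι → ℝ, ‖∫ x : ι → ℝ, cexp (-(2 * Real.pi * (∑ i, ξ i * x i) : ℝ) * I) *
      G x‖ ≤ C * (1 + ‖ξ‖) ^ (-(Fintype.card ι + 1 : ℝ))) →
    Summable (fun k : ι → ℤ => ‖∫ x : ι → ℝ, cexp (-(2 * Real.pi *
      (∑ i, (A⁻¹).transpose.mulVec (fun i => (k i : ℝ)) i * x i) : ℝ) * I) * G x‖) ∧
    ∑' m : ι → ℤ, G (A.mulVec (fun i => (m i : ℝ) + x₀ i)) =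
      ((|A.det|⁻¹ : ℝ) : ℂ) * ∑' k : ι → ℤ,
        cexp ((2 * Real.pi * (∑ i, (k i : ℝ) * x₀ i) : ℝ) * I) *
          ∫ x : ι → ℝ, cexp (-(2 * Real.pi *
            (∑ i, (A⁻¹).transpose.mulVec (fun i => (k i : ℝ)) i * x i) : ℝ) * I) * G x

/-- (PG) Poisson summation for ideals and products of local functions. -/
def V_PG : Prop :=
  ∀ (K : Type) [Field K] [NumberField K] (j : Ideal (𝓞 K)) (M : FI K) (X : Finset K)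
    (c : K → ℂ) (G : InfinitePlace K → ℂ → ℂ), j ≠ ⊥ → M ≠ 0 → Rep K j M X →
    (∀ x ∈ M, ∀ t ∈ (j : FI K) * M, c (x + t) = c x) →
    (∀ v, Continuous (G v)) → (∃ R : ℝ, ∀ v w, R < ‖w‖ → G v w = 0) →
    (∃ C : ℝ, ∀ v ξ, Rl (rv v) ξ → ‖lf (rv v) (G v) ξ‖ ≤
      C * (1 + ‖ξ‖) ^ (-(Module.finrank ℚ K + 1 : ℝ))) →
    ∀ (y : InfinitePlace K → ℝ) (ω : InfinitePlace K → ℂ), Pos ω →
    Summable (fun x : {x : K // x ∈ M} => ‖∏ v, G v (wv v x y ω)‖) ∧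
    Summable (fun y' : {y' : K // y' ∈ du K ((j : FI K) * M)} => ‖∏ v, lf (rv v) (G v)
      (wv v y' (-y) (fun v => (starRingEnd ℂ) (ω v)))‖) ∧
    ∑' x : {x : K // x ∈ M}, c x * ∏ v, G v (wv v x y ω) =
      ((Real.exp (-(∑ v, (v.mult : ℝ) * y v) / 2) * (cv K ((j : FI K) * M))⁻¹ : ℝ) : ℂ) *
        ∑' y' : {y' : K // y' ∈ du K ((j : FI K) * M)}, ft K X c y' *
          ∏ v, lf (rv v) (G v) (wv v y' (-y) (fun v => (starRingEnd ℂ) (ω v)))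

/-- (QW) the mean square over the residue classes modulo `j`. -/
def V_QW : Prop :=
  ∀ n A : ℕ, 0 < n → n + 1 ≤ A → ∃ C : ℝ, 0 ≤ C ∧ ∀ (K : Type) [Field K] [NumberField K],
    Module.finrank ℚ K = n → ∀ (j k : Ideal (𝓞 K)) (M : FI K) (q : K → ℂ) (D : ℝ)
    (X₁ : Finset K) (cp : InfinitePlace K → ℂ) (H : InfinitePlace K → ℝ)
    (p : InfinitePlace K → ℂ → ℂ) (B : ℝ), j ≠ ⊥ → k ≠ ⊥ → M ≠ 0 → 0 ≤ D → Cor j k M q D →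
    Rep K j M X₁ → Prm cp H → 1 ≤ B → (∀ v, Bmp A B (p v)) →
    ∀ (y : InfinitePlace K → ℝ) (ω : InfinitePlace K → ℂ), Pos ω →
    ∑ r ∈ X₁, ENNReal.ofReal (‖Sq j M q r cp H p y ω‖ ^ 2) ≤
      ∑' x : {x : K // x ∈ M}, ENNReal.ofReal (‖Wg cp H p x y ω‖ ^ 2) +
      ENNReal.ofReal (C * B ^ (2 * n) * (HH H)⁻¹ * (D * Nf K k) *
        (Real.exp (-(∑ v, (v.mult : ℝ) * y v) / 2) *
          (cv K (((k ^ 2 : Ideal (𝓞 K)) : FI K) * M))⁻¹)) *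
        ∑ e ∈ dvs K k, ENNReal.ofReal (Nf K e) *
          ∑' h : {h : K // h ∈ ((j * e : Ideal (𝓞 K)) : FI K) * M ∧ h ≠ 0},
            ∑' y' : {y' : K // y' ∈ du K (((k ^ 2 : Ideal (𝓞 K)) : FI K) * M)},
              ENNReal.ofReal (Amb A cp H h y' y ω)

/-! ### Part A: averages -/

/-- a box in the logarithmic space -/
def BX (K : Type) [Field K] [NumberField K] (n : ℕ) : Set (logSpace K × ℝ) :=
  {b | ∀ v : InfinitePlace K, |yc K b.2 b.1 v| ≤ 1 / (n : ℝ)}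

open scoped Classical in
/-- (AVG) averaging over a box. -/
def V_AVG : Prop :=
  ∀ n : ℕ, 0 < n → ∃ C : ℝ, 0 ≤ C ∧ ∀ (K : Type) [Field K] [NumberField K],
    Module.finrank ℚ K = n → ∀ g : logSpace K × ℝ → ℝ≥0∞, Measurable g →
    (∀ z, ∀ l ∈ unitLattice K, ∀ τ, g (z + l, τ) = g (z, τ)) → ∀ τ₁ : ℝ,
    ∫⁻ z in Fd K, ∫⁻ τ in Icc τ₁ (τ₁ + 1), g (z, τ) ≤ ENNReal.ofReal C *
      ∫⁻ z in Fd K, ∫⁻ τ in Icc (τ₁ - 1) (τ₁ + 2), ∫⁻ b in BX K n, g (z + b.1, τ + b.2)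

open scoped Classical in
/-- (JB) integrals of products over the box. -/
def V_JB : Prop :=
  ∀ n : ℕ, 0 < n → ∃ C : ℝ, 0 ≤ C ∧ ∀ (K : Type) [Field K] [NumberField K],
    Module.finrank ℚ K = n → ∀ f : InfinitePlace K → ℝ → ℝ≥0∞, (∀ v, Measurable (f v)) →
    ∫⁻ b in BX K n, ∏ v, f v (yc K b.2 b.1 v) ≤ ENNReal.ofReal C *
      ∏ v, ∫⁻ s in Icc (-(1 / (n : ℝ))) (1 / (n : ℝ)), f v s

/-- (GS) from powers to Gaussians. -/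
def V_GS : Prop :=
  ∀ n A : ℕ, 1 ≤ A → ∃ C : ℝ, 0 ≤ C ∧ ∀ (ι : Type) [Fintype ι] (e : ι → ℕ) (a b : ι → ℝ),
    ∑ i, e i = n → (∀ i, 1 ≤ e i ∧ e i ≤ 2) → (∀ i, 0 ≤ a i ∧ 0 ≤ b i) →
    Summable (fun j : ℕ => (2 : ℝ) ^ (-((A * j : ℕ) : ℝ)) *
      Real.exp (-Real.pi * ∑ i, (e i : ℝ) * ((a i / 2 ^ j) ^ 2 + (b i / 2 ^ j) ^ 2))) ∧
    ∏ i, ((1 + a i) ^ (-(A : ℝ)) * (1 + b i) ^ (-(A : ℝ))) ≤
      C * ∑' j : ℕ, (2 : ℝ) ^ (-((A * j : ℕ) : ℝ)) *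
        Real.exp (-Real.pi * ∑ i, (e i : ℝ) * ((a i / 2 ^ j) ^ 2 + (b i / 2 ^ j) ^ 2))

open scoped Classical in
/-- (AO) the average of the sum over the pairs. -/
def V_AO : Prop :=
  ∀ n A : ℕ, 0 < n → 3 ≤ A → ∃ C : ℝ, 0 ≤ C ∧ ∀ (K : Type) [Field K] [NumberField K],
    Module.finrank ℚ K = n → ∀ (L₁ L₂ M : FI K) (cp : InfinitePlace K → ℂ)
    (H : InfinitePlace K → ℝ) (s : Bool) (τ₁ : ℝ), L₁ ≠ 0 → L₂ ≠ 0 → M ≠ 0 → Prm cp H →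
    ∫⁻ z in Fd K, ∫⁻ τ in Icc τ₁ (τ₁ + 1), ∫⁻ θ in An K,
      ∑' h : {h : K // h ∈ L₁ ∧ h ≠ 0}, ∑' y' : {y' : K // y' ∈ L₂},
        ENNReal.ofReal (Amb A cp H h y' (yM K M τ z) (om s θ)) ≤
    ENNReal.ofReal C * ∑ i ∈ Fintype.piFinset (fun v => Finset.range (nH (H v) + 1)),
      ENNReal.ofReal (∏ v : InfinitePlace K, (2 : ℝ) ^ (-((i v * v.mult : ℕ) : ℝ))) *
      ∑' j : ℕ, ENNReal.ofReal ((2 : ℝ) ^ (-((A * j : ℕ) : ℝ))) *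
        ∫⁻ z in Fd K, ∫⁻ τ in Icc (τ₁ - 1) (τ₁ + 2), ENNReal.ofReal
          ((th K L₁ (fun v => yM K M τ z v - 2 * Real.log (2 ^ (i v + j) / H v ^ 2)) - 1) *
            th K L₂ (fun v => -yM K M τ z v - 2 * Real.log (2 ^ (i v + j) * H v)))

open scoped Classical in
/-- (DI) the average of the diagonal. -/
def V_DI : Prop :=
  ∀ n A : ℕ, 0 < n → 1 ≤ A → ∃ C : ℝ, 0 ≤ C ∧ ∀ (K : Type) [Field K] [NumberField K],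
    Module.finrank ℚ K = n → ∀ (M : FI K) (cp : InfinitePlace K → ℂ)
    (H : InfinitePlace K → ℝ) (p : InfinitePlace K → ℂ → ℂ) (B : ℝ) (s : Bool) (τ₁ : ℝ),
    M ≠ 0 → Prm cp H → 1 ≤ B → (∀ v, Bmp 0 B (p v)) →
    ∫⁻ z in Fd K, ∫⁻ τ in Icc τ₁ (τ₁ + 1), ∫⁻ θ in An K,
      ∑' x : {x : K // x ∈ M}, ENNReal.ofReal (‖Wg cp H p x (yM K M τ z) (om s θ)‖ ^ 2) ≤
    ENNReal.ofReal (C * B ^ (2 * n) * (HH H)⁻¹) *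
      ∑' j : ℕ, ENNReal.ofReal ((2 : ℝ) ^ (-((A * j : ℕ) : ℝ))) *
        ∫⁻ z in Fd K, ∫⁻ τ in Icc (τ₁ - 1) (τ₁ + 2), ENNReal.ofReal
          (th K M (fun v => yM K M τ z v - 2 * Real.log (2 ^ j)) - 1)

/-! ### Part C: counting pairs -/

/-- (PT) products of theta functions of two ideal lattices of different shapes. -/
def V_PT : Prop :=
  ∀ n : ℕ, 0 < n → ∀ κ : ℝ, 0 < κ → κ ≤ 1 → ∃ C : ℝ, 0 ≤ C ∧ ∀ (K : Type) [Field K]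
    [NumberField K], Module.finrank ℚ K = n → ∀ (L₁ L₂ : FI K) (z₁ z₂ : logSpace K)
    (V₁ V₂ : ℝ), L₁ ≠ 0 → L₂ ≠ 0 → 0 < V₁ → 0 < V₂ →
    (FT K L₁ z₁ (1 / V₁) - 1) * FT K L₂ z₂ (1 / V₂) ≤
      C * (V₁ / V₂ + V₂ / V₁) ^ κ * (V₁ + V₂ + V₁ * V₂) *
        (AK K κ L₁ z₁ + AK K κ (du K L₁) (-z₁) + AK K κ L₂ z₂ + AK K κ (du K L₂) (-z₂))

/-- the volume parameter -/
noncomputable def VV (K : Type) [Field K] [NumberField K] (j : Ideal (𝓞 K))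
    (a : InfinitePlace K → ℝ) (τ : ℝ) : ℝ :=
  Real.exp (-τ - (∑ v, (v.mult : ℝ) * a v) / 2) / (Real.sqrt |(discr K : ℝ)| * Nf K j)

open scoped Classical in
/-- (CT) the mean values of the pair counts. -/
def V_CT : Prop :=
  ∀ n : ℕ, 0 < n → ∀ κ : ℝ, 0 < κ → κ ≤ 1 → ∃ C : ℝ, 0 ≤ C ∧ ∀ (K : Type) [Field K]
    [NumberField K], Module.finrank ℚ K = n → ∀ (ι : Type) [Fintype ι] (M : ι → FI K),
    Reps K M → ∀ (j₁ j₂ : Ideal (𝓞 K)) (a b : InfinitePlace K → ℝ) (τ : ℝ), j₁ ≠ ⊥ → j₂ ≠ ⊥ →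
    ∑ c, ∫⁻ z in Fd K, ENNReal.ofReal
      ((th K ((j₁ : FI K) * M c) (fun v => yM K (M c) τ z v + a v) - 1) *
        th K ((j₂ : FI K) * M c) (fun v => yM K (M c) τ z v + b v)) ≤
      ENNReal.ofReal (C * (cw K * |(discr K : ℝ)| ^ ((1 + κ) / 2)) *
        ((VV K j₁ a τ / VV K j₂ b τ + VV K j₂ b τ / VV K j₁ a τ) ^ κ *
          (VV K j₁ a τ + VV K j₂ b τ + VV K j₁ a τ * VV K j₂ b τ))) ∧
    ∑ c, ∫⁻ z in Fd K, ENNReal.ofReal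
      (th K ((j₁ : FI K) * M c) (fun v => yM K (M c) τ z v + a v) - 1) ≤
      ENNReal.ofReal (C * (cw K * |(discr K : ℝ)| ^ ((1 + κ) / 2)) * VV K j₁ a τ ^ (1 + κ))

open scoped Classical in
/-- (TT) the mean square for a system of representatives. -/
def V_TT : Prop :=
  ∀ n : ℕ, 0 < n → ∀ ε : ℝ, 0 < ε → ε ≤ 1 → ∃ C : ℝ, 0 ≤ C ∧ ∀ (K : Type) [Field K]
    [NumberField K], Module.finrank ℚ K = n → ∀ (ι : Type) [Fintype ι] (M : ι → FI K),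
    Reps K M → ∀ (j k : Ideal (𝓞 K)) (D : ℝ) (q : ι → K → ℂ) (X₁ : ι → Finset K)
    (cp : InfinitePlace K → ℂ) (H : InfinitePlace K → ℝ) (p : InfinitePlace K → ℂ → ℂ) (B : ℝ)
    (s : Bool) (τ₁ : ℝ), j ≠ ⊥ → k ≠ ⊥ → 1 ≤ D → (∀ c, Cor j k (M c) (q c) D) →
    (∀ c, Rep K j (M c) (X₁ c)) → Prm cp H → 1 ≤ B → (∀ v, Bmp (2 * n + 4) B (p v)) →
    ∑ c, ∫⁻ z in Fd K, ∫⁻ τ in Icc τ₁ (τ₁ + 1), ∫⁻ θ in An K, ∑ r ∈ X₁ c,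
      ENNReal.ofReal (‖Sq j (M c) (q c) r cp H p (yM K (M c) τ (zs s z)) (om s θ)‖ ^ 2) ≤
    ENNReal.ofReal (C * B ^ (2 * n) * cw K * ((dvs K k).card * D) *
      (|(discr K : ℝ)| * Nf K j * Nf K k * HH H * Real.exp |τ₁|) ^ ε *
      (Real.exp (-τ₁) * (HH H)⁻¹ * (1 + Nf K k / Nf K j +
        Real.exp (-τ₁) * (HH H ^ 2)⁻¹ / (Real.sqrt |(discr K : ℝ)| * Nf K j * Nf K k))))

/-! ### Part D: characters -/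

/-- (SG) the local component of a Hecke character at the primes dividing `k`. -/
def V_SG : Prop :=
  ∀ (K : Type) [Field K] [NumberField K] (l g k : Ideal (𝓞 K)), GK l g k →
    ∀ (χ : HG K (l * (g * k ^ 2))), PrG k χ → ∃ η : 𝓞 K ⧸ (g * k ^ 2) → ℂ,
    LC (g * k ^ 2) η ∧
    ∀ (M : FI K) (x₀ : K), M ≠ 0 → Gn (l * (g * k ^ 2)) M x₀ → ∃ c : K → ℂ,
      (∀ x ∈ M, ‖c x‖ ≤ 1) ∧ (∀ x ∈ M, ∀ t ∈ (l : FI K) * M, c (x + t) = c x) ∧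
      ∀ x ∈ M, cg χ M x = c x * cq (g * k ^ 2) η M x₀ x

/-- (CC) the correlations. -/
def V_CC : Prop :=
  (∀ (K : Type) [Field K] [NumberField K] (l g k : Ideal (𝓞 K)), GK l g k →
    ∀ (η : 𝓞 K ⧸ (g * k ^ 2) → ℂ), LC (g * k ^ 2) η → ∀ (M : FI K) (x₀ : K), M ≠ 0 →
    Gn (l * (g * k ^ 2)) M x₀ →
    Cor (l * g) k M (cq (g * k ^ 2) η M x₀) (dvs K k).card ∧
    Cor (l * g) k M (fun x => (starRingEnd ℂ) (cq (g * k ^ 2) η M x₀ x)) (dvs K k).card) ∧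
  ∀ (K : Type) [Field K] [NumberField K] (M : FI K), M ≠ 0 → Cor ⊤ ⊤ M (fun _ => 1) 1

/-! ### Part E: unfolding -/

open scoped Classical in
/-- (UP) unfolding. -/
def V_UP : Prop :=
  ∀ (K : Type) [Field K] [NumberField K] (f : Ideal (𝓞 K)), f ≠ ⊥ → ∀ (χ : HG K f)
    (ι : Type) [Fintype ι] (M : ι → FI K), Reps K M → ∀ (cp : InfinitePlace K → ℂ)
    (H : InfinitePlace K → ℝ) (t : ℝ) (v : ℝ → ℂ), Prm cp H →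
    (∃ C : ℝ, ∀ x : ℝ, 1 ≤ x → ‖v x‖ ≤ C * x ^ (-(3 / 2) : ℝ)) →
    ∑ c, ∫ p in Fd K ×ˢ (univ : Set ℝ) ×ˢ An K, ec K χ.ν p.1 * cexp (t * p.2.1 * I) *
      (ek χ.k p.2.2 * ∑' x : {x : K // x ∈ M c ∧ x ≠ 0}, cg χ (M c) x *
        v (Ideal.absNorm (idl K (M c) x)) *
          Wg cp H pb x (yM K (M c) p.2.1 (zs true p.1)) (om true p.2.2)) =
      (torsionOrder K : ℂ) * WH K cp H χ.k χ.ν t *
        ∑' J : NZI K, χ.ψ J.1 * v (Ideal.absNorm J.1) *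
          (Ideal.absNorm J.1 : ℂ) ^ (-(t * I : ℂ))

open scoped Classical in
/-- (UQ) dual unfolding. -/
def V_UQ : Prop :=
  ∀ (K : Type) [Field K] [NumberField K] (f : Ideal (𝓞 K)), f ≠ ⊥ → ∀ (D : Sys K f)
    (χ : HG K f) (cp : InfinitePlace K → ℂ) (H : InfinitePlace K → ℝ) (t : ℝ) (v : ℝ → ℂ),
    Prm cp H → (∃ C : ℝ, ∀ x : ℝ, 1 ≤ x → ‖v x‖ ≤ C * x ^ (-(3 / 2) : ℝ)) →
    ∑ c, ∫ p in Fd K ×ˢ (univ : Set ℝ) ×ˢ An K, ec K χ.ν p.1 * cexp (t * p.2.1 * I) *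
      (ek χ.k p.2.2 * ∑' x : {x : K // x ∈ du K ((f : FI K) * D.M c) ∧ x ≠ 0}, ch D χ c x *
        v (Ideal.absNorm (idl K (du K ((f : FI K) * D.M c)) x)) *
          Wg cp H pb x (yM K (du K ((f : FI K) * D.M c)) p.2.1 (zs false p.1))
            (om false p.2.2)) =
      (torsionOrder K : ℂ) * WH K cp H (-χ.k) (-χ.ν) t * ((Real.sqrt (Nf K f) : ℝ) : ℂ) *
        ∑' J : NZI K, cd D χ J.1 * v (Ideal.absNorm J.1) *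
          (Ideal.absNorm J.1 : ℂ) ^ (-(t * I : ℂ))

/-- (WL) the lower bound for the Mellin transform. -/
def V_WL : Prop :=
  ∀ n : ℕ, 0 < n → ∃ c₀ : ℝ, 0 < c₀ ∧ ∀ (K : Type) [Field K] [NumberField K],
    Module.finrank ℚ K = n → ∀ (k : InfinitePlace K → ℤ) (ν : InfinitePlace K → ℝ) (t : ℝ),
    ∑ v, (v.mult : ℝ) * ν v = 0 →
    c₀ * (HH (Hpar (cpar k ν t)))⁻¹ ≤ ‖WH K (cpar k ν t) (Hpar (cpar k ν t)) k ν t‖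

open scoped Classical in
/-- (MS) measurability, bounds, supports. -/
def V_MS : Prop :=
  ∀ (K : Type) [Field K] [NumberField K] (M : FI K) (cp : InfinitePlace K → ℂ)
    (H : InfinitePlace K → ℝ) (p : InfinitePlace K → ℂ → ℂ) (cc : K → ℂ) (s : Bool), M ≠ 0 →
    Prm cp H → (∀ v, ∃ B : ℝ, Bmp 0 B (p v)) → (∃ C : ℝ, ∀ x ∈ M, ‖cc x‖ ≤ C) →
    Measurable (fun u : logSpace K × ℝ × (InfinitePlace K → ℝ) =>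
      ∑' x : {x : K // x ∈ M}, cc x * Wg cp H p x (yM K M u.2.1 (zs s u.1)) (om s u.2.2)) ∧
    Measurable (fun u : logSpace K × ℝ × (InfinitePlace K → ℝ) =>
      ∑' x : {x : K // x ∈ M ∧ x ≠ 0}, cc x *
        Wg cp H p x (yM K M u.2.1 (zs s u.1)) (om s u.2.2)) ∧
    (∀ (z : logSpace K) (τ : ℝ) (θ : InfinitePlace K → ℝ) (x : K), x ∈ M →
      Wg cp H p x (yM K M τ z) (om s θ) ≠ 0 → x ≠ 0 ∧ τ ≤ Module.finrank ℚ K) ∧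
    ∀ T : ℝ, ∃ C : ℝ, ∀ (z : logSpace K) (τ : ℝ) (θ : InfinitePlace K → ℝ), z ∈ Fd K →
      -T ≤ τ → Summable (fun x : {x : K // x ∈ M} =>
        ‖Wg cp H p x (yM K M τ (zs s z)) (om s θ)‖) ∧
      ∑' x : {x : K // x ∈ M}, ‖Wg cp H p x (yM K M τ (zs s z)) (om s θ)‖ ≤ C

open scoped Classical in
/-- (IN) the integral representation of the weights. -/
def V_IN : Prop :=
  ∀ (K : Type) [Field K] [NumberField K] (M : FI K) (cp : InfinitePlace K → ℂ)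
    (H : InfinitePlace K → ℝ) (cc : K → ℂ) (s : Bool) (κ X B : ℝ) (v : ℝ → ℂ), M ≠ 0 →
    Prm cp H → (∃ C : ℝ, ∀ x ∈ M, ‖cc x‖ ≤ C) → 0 < κ → κ ≤ 1 → 0 < X → 0 ≤ B →
    Wt κ X B v → ∀ (z : logSpace K) (τ : ℝ) (θ : InfinitePlace K → ℝ) (σ : ℝ),
    (σ = κ ∨ σ = 1) →
    ENNReal.ofReal (‖∑' x : {x : K // x ∈ M ∧ x ≠ 0}, cc x *
        v (Ideal.absNorm (idl K M x)) * Wg cp H pb x (yM K M τ z) (om s θ)‖) ≤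
      ENNReal.ofReal (B * X ^ σ * Real.exp (τ * (1 / 2 + σ))) * ∫⁻ u : ℝ,
        ENNReal.ofReal (Real.exp (-u ^ 2 / 4) * ‖∑' x : {x : K // x ∈ M}, cc x *
          Wg cp H (pl H (1 / 2 + σ + u * I)) x (yM K M τ z) (om s θ)‖)

/-! ### Part F: the approximate functional equation -/

/-- (AE) the approximate functional equation. -/
def V_AE : Prop :=
  ∀ n : ℕ, ∃ C₀ : ℝ, 0 ≤ C₀ ∧ ∀ κ : ℝ, 0 < κ → κ ≤ 1 → ∀ (ι : Type) (L E G : ℂ → ℂ)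
    (a a' : ι → ℂ) (N : ι → ℝ) (X t B : ℝ), 0 < X → 1 ≤ B → (∀ i, 1 ≤ N i) →
    (∀ σ : ℝ, 1 < σ → Summable (fun i => N i ^ (-σ))) → (∃ A : ℝ, ∀ i, ‖a i‖ ≤ A ∧ ‖a' i‖ ≤ A) →
    Differentiable ℂ E → (∀ s : ℂ, s ≠ 0 → s ≠ 1 → E s = s * (s - 1) * L s) →
    (∃ C A : ℝ, ∀ s : ℂ, |s.re| ≤ 3 → ‖E s‖ ≤ C * Real.exp (A * |s.im|)) →
    (∀ s : ℂ, 1 < s.re → L s = ∑' i, a i * (N i : ℂ) ^ (-s)) →
    (∀ s : ℂ, 1 < s.re → L (1 - s) = G s * ∑' i, a' i * (N i : ℂ) ^ (-s)) →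
    (∀ s : ℂ, 0 < s.re → DifferentiableAt ℂ G s) →
    (∀ s : ℂ, 1 / 2 ≤ s.re → s.re ≤ 3 / 2 → ‖G s‖ ≤
      B * X ^ (2 * (s.re - 1 / 2)) * (1 + |s.im + t|) ^ n) →
    ∃ v v' : ℝ → ℂ, Wt κ X (C₀ * κ⁻¹ * B) v ∧ Wt κ X (C₀ * κ⁻¹ * B) v' ∧
      L (1 / 2 + t * I) = ∑' i, a i * v (N i) * (N i : ℂ) ^ (-(t * I : ℂ)) +
        ∑' i, a' i * v' (N i) * (N i : ℂ) ^ (t * I : ℂ)

/-- (GH) the quotient of the Gamma factors, hybrid bound. -/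
def V_GH : Prop :=
  ∀ n : ℕ, ∃ C : ℝ, 0 ≤ C ∧ ∀ (K : Type) [Field K] [NumberField K],
    Module.finrank ℚ K = n → ∀ (k : InfinitePlace K → ℤ) (ν : InfinitePlace K → ℝ) (t : ℝ),
    (∀ v : InfinitePlace K, v.IsReal → k v = 0 ∨ k v = 1) → ∀ s : ℂ, 1 / 2 ≤ s.re →
    s.re ≤ 3 / 2 → ‖gG K k (-ν) s * (gG K k ν (1 - s))⁻¹‖ ≤
      C * Ci k ν t ^ (s.re - 1 / 2) * (1 + |s.im + t|) ^ n

/-! ### Part G: the bound -/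

open scoped Classical in
/-- (BS) the bound for the integral over all positions. -/
def V_BS : Prop :=
  ∀ n : ℕ, 0 < n → ∀ ε κ : ℝ, 0 < ε → ε ≤ 1 → 0 < κ → κ ≤ ε / 16 → ∃ C : ℝ, 0 ≤ C ∧
    ∀ (K : Type) [Field K] [NumberField K], Module.finrank ℚ K = n → ∀ (ι : Type) [Fintype ι]
    (M : ι → FI K), Reps K M → ∀ (j k : Ideal (𝓞 K)) (D : ℝ) (q : ι → K → ℂ)
    (X₁ : ι → Finset K) (cp : InfinitePlace K → ℂ) (H : InfinitePlace K → ℝ)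
    (X B Λ : ℝ) (v : ℝ → ℂ) (cc : ι → K → ℂ) (s : Bool), j ≠ ⊥ → k ≠ ⊥ → 1 ≤ D →
    (∀ c, Cor j k (M c) (q c) D) → (∀ c, Rep K j (M c) (X₁ c)) → Prm cp H → 1 ≤ X →
    X ^ 2 ≤ 3 ^ n * (|(discr K : ℝ)| * Nf K j * Nf K k ^ 2 * HH H ^ 3) → 0 ≤ B →
    Wt κ X B v → 0 ≤ Λ → (∀ c, ∃ A : ℝ, ∀ x ∈ M c, ‖cc c x‖ ≤ A) →
    (∀ (c : ι) (p : InfinitePlace K → ℂ → ℂ) (y : InfinitePlace K → ℝ)
      (ω : InfinitePlace K → ℂ), (∀ v, ∃ B' : ℝ, Bmp (2 * n + 4) B' (p v)) → Pos ω →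
      ‖∑' x : {x : K // x ∈ M c}, cc c x * Wg cp H p x y ω‖ ^ 2 ≤
        Λ * ∑ r ∈ X₁ c, ‖Sq j (M c) (q c) r cp H p y ω‖ ^ 2) →
    (∑ c, ∫⁻ u in Fd K ×ˢ (univ : Set ℝ) ×ˢ An K,
      ENNReal.ofReal ‖∑' x : {x : K // x ∈ M c ∧ x ≠ 0}, cc c x *
        v (Ideal.absNorm (idl K (M c) x)) *
          Wg cp H pb x (yM K (M c) u.2.1 (zs s u.1)) (om s u.2.2)‖) ^ 2 ≤
    ENNReal.ofReal (C * B ^ 2 * Λ * (classNumber K * regulator K) * cw K *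
      ((dvs K k).card * D) * (|(discr K : ℝ)| * Nf K j * Nf K k * HH H) ^ ε * (HH H)⁻¹ *
      (1 + Nf K k / Nf K j))

/-- (BP) the bound for the first sum. -/
def V_BP : Prop :=
  ∀ n : ℕ, 0 < n → ∀ ε κ : ℝ, 0 < ε → ε ≤ 1 → 0 < κ → κ ≤ ε / 32 → ∃ C : ℝ, 0 ≤ C ∧
    ∀ (K : Type) [Field K] [NumberField K], Module.finrank ℚ K = n →
    ∀ (l g k : Ideal (𝓞 K)), GM K l g k → ∀ (χ : HG K (l * (g * k ^ 2))), PrG k χ →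
    ∀ (t B : ℝ) (v : ℝ → ℂ), 0 ≤ B →
    Wt κ (Real.sqrt (|(discr K : ℝ)| * Nf K (l * (g * k ^ 2)) * Ci χ.k χ.ν t)) B v →
    ‖∑' J : NZI K, χ.ψ J.1 * v (Ideal.absNorm J.1) *
      (Ideal.absNorm J.1 : ℂ) ^ (-(t * I : ℂ))‖ ^ 2 ≤
    C * B ^ 2 * (|(discr K : ℝ)| * Nf K (l * (g * k ^ 2)) * Ci χ.k χ.ν t) ^ ε *
      ((classNumber K * regulator K) * (Nf K (l * g) + Nf K k) *
        Ci χ.k χ.ν t ^ (1 / 3 : ℝ))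

/-- (BQ) the bound for the dual sum. -/
def V_BQ : Prop :=
  ∀ n : ℕ, 0 < n → ∀ ε κ : ℝ, 0 < ε → ε ≤ 1 → 0 < κ → κ ≤ ε / 32 → ∃ C : ℝ, 0 ≤ C ∧
    ∀ (K : Type) [Field K] [NumberField K], Module.finrank ℚ K = n →
    ∀ (l g k : Ideal (𝓞 K)), GM K l g k → ∀ (χ : HG K (l * (g * k ^ 2))), PrG k χ →
    ∀ (D : Sys K (l * (g * k ^ 2))) (t B : ℝ) (v : ℝ → ℂ), 0 ≤ B →
    Wt κ (Real.sqrt (|(discr K : ℝ)| * Nf K (l * (g * k ^ 2)) * Ci χ.k χ.ν t)) B v →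
    ‖∑' J : NZI K, cd D χ J.1 * v (Ideal.absNorm J.1) *
      (Ideal.absNorm J.1 : ℂ) ^ (t * I : ℂ)‖ ^ 2 ≤
    C * B ^ 2 * (|(discr K : ℝ)| * Nf K (l * (g * k ^ 2)) * Ci χ.k χ.ν t) ^ ε *
      ((classNumber K * regulator K) * (Nf K (l * g) + Nf K k) *
        Ci χ.k χ.ν t ^ (1 / 3 : ℝ))

/-- (WY) the hybrid Weyl bound. -/
def V_WY : Prop :=
  ∀ n : ℕ, 0 < n → ∀ ε : ℝ, 0 < ε → ∃ C : ℝ, ∀ (K : Type) [Field K] [NumberField K],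
    Module.finrank ℚ K = n → ∀ (l g k : Ideal (𝓞 K)), GM K l g k →
    ∀ (χ : HG K (l * (g * k ^ 2))), PrG k χ → ∃ L : ℂ → ℂ,
    (∀ s : ℂ, 1 < s.re → L s = χ.series s) ∧
    (∀ s : ℂ, s ≠ 0 → s ≠ 1 → DifferentiableAt ℂ L s) ∧
    ((∃ I : Ideal (𝓞 K), χ.ψ I ≠ 0 ∧ χ.ψ I ≠ 1) → Differentiable ℂ L) ∧
    ∀ t : ℝ, ‖L (1 / 2 + t * I)‖ ≤
      C * (|(discr K : ℝ)| * Ideal.absNorm (l * (g * k ^ 2)) * Ci χ.k χ.ν t) ^ ε *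
        (|(discr K : ℝ)| ^ (1 / 4 : ℝ) *
          (Ideal.absNorm (l * g) + Ideal.absNorm k) ^ (1 / 2 : ℝ) *
            Ci χ.k χ.ν t ^ (1 / 6 : ℝ))

end Pool.Agent.H29.DW
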