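import Pool.Agent.H29.DW.Tools
import Pool.Agent.H21.GLB.SM

/-!
# The mean square over the residue classes: finite sums
-/

set_option autoImplicit false
set_option linter.unusedVariables false

open NumberField NumberField.InfinitePlace NumberField.Units
  NumberField.Units.dirichletUnitTheorem MeasureTheory Set Filter Complex
open scoped nonZeroDivisors ENNReal

namespace Pool.Agent.H29.DW

open Pool.Agent.H25.HK Pool.Agent.H23.LB Pool.Agent.H23.LC
open Pool.Agent.H28.RC (Rep ft idl)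
open Pool.Agent.H29.TC (GK fk_le dvs cq LC Gn)

section

variable {K : Type} [Field K] [NumberField K]

theorem fin_W (hTH : T_TH) {M : FI K} (hM : M ≠ 0) {cp : InfinitePlace K → ℂ}
    {H : InfinitePlace K → ℝ} {p : InfinitePlace K → ℂ → ℂ} {y : InfinitePlace K → ℝ}
    {ω : InfinitePlace K → ℂ} (hω : Pos ω) (hH : ∀ v, 1 ≤ H v)
    (hp : ∀ v x, 1 / 16 < ‖x‖ → p v x = 0) :
    {x : {x : K // x ∈ M} | Wg cp H p x.1 y ω ≠ 0}.Finite := by
  set R : ℝ := ∑ v : InfinitePlace K, 2 * Real.exp (-(y v / 2)) with hR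
  refine (Pool.Agent.H21.GLB.fin_set hTH M hM R).subset ?_
  intro x hx v
  have h1 := Wg_ne hH hp hx v
  have h2 : ‖wv v x.1 y ω - 1‖ ≤ 1 / 16 := by
    have h3 := hH v
    have h4 := norm_nonneg (wv v x.1 y ω - 1)
    nlinarith
  have h3 : ‖wv v x.1 y ω‖ ≤ 2 := by
    have h4 := norm_le_norm_add_norm_sub (1 : ℂ) (wv v x.1 y ω)
    rw [norm_one, norm_sub_rev] at h4
    linarith
  rw [norm_wv v x.1 y hω] at h3
  have h4 : v x.1 ≤ 2 * Real.exp (-(y v / 2)) := by
    rw [Real.exp_neg, ← div_eq_mul_inv, le_div_iff₀ (Real.exp_pos _)]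
    exact h3
  refine h4.trans ?_
  rw [hR]
  exact Finset.single_le_sum (f := fun v : InfinitePlace K => 2 * Real.exp (-(y v / 2)))
    (fun v _ => by positivity) (Finset.mem_univ v)

theorem sub_mem' {L : FI K} {x x' : K} (h : x ∈ L) (h' : x' ∈ L) : x - x' ∈ L := by
  rw [← FractionalIdeal.mem_coe] at h h' ⊢
  exact Submodule.sub_mem _ h h'

theorem add_mem' {L : FI K} {x x' : K} (h : x ∈ L) (h' : x' ∈ L) : x + x' ∈ L := by
  rw [← FractionalIdeal.mem_coe] at h h' ⊢
  exact Submodule.add_mem _ h h'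

theorem mul_le' (j : Ideal (𝓞 K)) (M : FI K) : (j : FI K) * M ≤ M := by
  have h1 : (j : FI K) ≤ 1 := FractionalIdeal.coeIdeal_le_one
  calc (j : FI K) * M ≤ 1 * M := mul_le_mul_left h1 M
    _ = M := one_mul M

theorem ci_sum {j : Ideal (𝓞 K)} {M : FI K} {X₁ : Finset K} (hX : Rep K j M X₁) {x x' : K}
    (hx : x ∈ M) : ∑ r ∈ X₁, ci K j M r x * ci K j M r x' =
      open scoped Classical in if x - x' ∈ (j : FI K) * M then 1 else 0 := by
  classical
  obtain ⟨r₀, ⟨h1, h2⟩, h3⟩ := hX.2 x hx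
  rw [Finset.sum_eq_single r₀]
  · have h4 : x' - r₀ ∈ (j : FI K) * M ↔ x - x' ∈ (j : FI K) * M := by
      constructor
      · intro h
        have := sub_mem' h2 h
        rwa [show x - r₀ - (x' - r₀) = x - x' by ring] at this
      · intro h
        have := sub_mem' h2 h
        rwa [show x - r₀ - (x - x') = x' - r₀ by ring] at this
    unfold ci
    rw [if_pos h2, one_mul]
    by_cases h5 : x - x' ∈ (j : FI K) * M
    · rw [if_pos (h4.2 h5), if_pos h5]
    · rw [if_neg (fun h => h5 (h4.1 h)), if_neg h5]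
  · intro r hr hne
    unfold ci
    rw [if_neg, zero_mul]
    intro h4
    exact hne (h3 r ⟨hr, h4⟩)
  · intro h
    exact absurd h1 h

theorem conj_ci (j : Ideal (𝓞 K)) (M : FI K) (r x : K) :
    (starRingEnd ℂ) (ci K j M r x) = ci K j M r x := by
  unfold ci
  split_ifs <;> simp

theorem dbl {j : Ideal (𝓞 K)} {M : FI K} {X₁ : Finset K} (hX : Rep K j M X₁) (S : Finset K)
    (hS : ∀ x ∈ S, x ∈ M) (a : K → ℂ) (ha : ∀ x ∈ M, x ∉ S → a x = 0) :
    ∃ T : Finset K, (∀ h ∈ T, h ∈ (j : FI K) * M) ∧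
      ∑ r ∈ X₁, ‖∑ x ∈ S, ci K j M r x * a x‖ ^ 2 ≤
        ∑ h ∈ T, ‖∑ x ∈ S, a (x + h) * (starRingEnd ℂ) (a x)‖ := by
  classical
  set P : Finset (K × K) := (S ×ˢ S).filter (fun q => q.1 - q.2 ∈ (j : FI K) * M) with hP
  set T : Finset K := P.image (fun q => q.1 - q.2) with hT
  refine ⟨T, ?_, ?_⟩
  · intro h hh
    rw [hT, Finset.mem_image] at hh
    obtain ⟨q, hq, rfl⟩ := hh
    exact (Finset.mem_filter.1 hq).2
  · have h1 : ((∑ r ∈ X₁, ‖∑ x ∈ S, ci K j M r x * a x‖ ^ 2 : ℝ) : ℂ) =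
        ∑ h ∈ T, ∑ x ∈ S, a (x + h) * (starRingEnd ℂ) (a x) := by
      have h2 : ∀ r, ((‖∑ x ∈ S, ci K j M r x * a x‖ ^ 2 : ℝ) : ℂ) =
          ∑ q ∈ S ×ˢ S, (ci K j M r q.1 * ci K j M r q.2) *
            (a q.1 * (starRingEnd ℂ) (a q.2)) := by
        intro r
        rw [← Complex.normSq_eq_norm_sq, ← Complex.mul_conj, map_sum, Finset.sum_mul_sum,
          Finset.sum_product]
        refine Finset.sum_congr rfl fun x _ => Finset.sum_congr rfl fun x' _ => ?_
        rw [map_mul, conj_ci]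
        ring
      rw [Complex.ofReal_sum, Finset.sum_congr rfl fun r _ => h2 r, Finset.sum_comm]
      have h3 : ∀ q ∈ S ×ˢ S, ∑ r ∈ X₁, (ci K j M r q.1 * ci K j M r q.2) *
          (a q.1 * (starRingEnd ℂ) (a q.2)) =
          if q.1 - q.2 ∈ (j : FI K) * M then a q.1 * (starRingEnd ℂ) (a q.2) else 0 := by
        intro q hq
        rw [← Finset.sum_mul, ci_sum hX (hS _ (Finset.mem_product.1 hq).1)]
        split_ifs
        · rw [one_mul]
        · rw [zero_mul]
      rw [Finset.sum_congr rfl h3, ← Finset.sum_filter, ← hP,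
        ← Finset.sum_fiberwise_of_maps_to (s := P) (t := T) (g := fun q => q.1 - q.2)
          (fun q hq => Finset.mem_image_of_mem _ hq)]
      refine Finset.sum_congr rfl fun h hh => ?_
      have h4 : h ∈ (j : FI K) * M := by
        rw [hT, Finset.mem_image] at hh
        obtain ⟨q, hq, rfl⟩ := hh
        exact (Finset.mem_filter.1 hq).2
      have h5 : ∑ x ∈ S, a (x + h) * (starRingEnd ℂ) (a x) =
          ∑ x ∈ S.filter (fun x => x + h ∈ S), a (x + h) * (starRingEnd ℂ) (a x) := by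
        rw [Finset.sum_filter]
        refine Finset.sum_congr rfl fun x hx => ?_
        split_ifs with h6
        · rfl
        · rw [ha (x + h) (add_mem' (hS x hx) (mul_le' j M h4)) h6, zero_mul]
      rw [h5]
      refine Finset.sum_nbij' (fun q => q.2) (fun x => (x + h, x)) ?_ ?_ ?_ ?_ ?_
      · intro q hq
        rw [Finset.mem_filter, hP, Finset.mem_filter, Finset.mem_product] at hq
        obtain ⟨⟨⟨h7, h8⟩, -⟩, h9⟩ := hq
        rw [Finset.mem_filter]
        refine ⟨h8, ?_⟩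
        rw [← h9]
        simpa using h7
      · intro x hx
        rw [Finset.mem_filter] at hx
        rw [Finset.mem_filter, hP, Finset.mem_filter, Finset.mem_product]
        refine ⟨⟨⟨hx.2, hx.1⟩, ?_⟩, ?_⟩
        · simpa using h4
        · simp
      · intro q hq
        rw [Finset.mem_filter] at hq
        ext
        · simp [← hq.2]
        · rfl
      · intro x hx
        rfl
      · intro q hq
        rw [Finset.mem_filter] at hq
        simp [← hq.2]
    have h2 : ∑ r ∈ X₁, ‖∑ x ∈ S, ci K j M r x * a x‖ ^ 2 =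
        ‖((∑ r ∈ X₁, ‖∑ x ∈ S, ci K j M r x * a x‖ ^ 2 : ℝ) : ℂ)‖ := by
      rw [Complex.norm_real, Real.norm_eq_abs, abs_of_nonneg]
      exact Finset.sum_nonneg fun r _ => by positivity
    rw [h2, h1]
    exact norm_sum_le _ _

end

end Pool.Agent.H29.DW
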