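import Pool.Agent.H29.DW.BSb

/-!
# The bound for the integral over all positions
-/

set_option autoImplicit false
set_option linter.unusedVariables false
set_option linter.unusedSectionVars false

open NumberField NumberField.InfinitePlace NumberField.Units
  NumberField.Units.dirichletUnitTheorem MeasureTheory Set Filter Complex
open scoped nonZeroDivisors ENNReal

namespace Pool.Agent.H29.DW

open Pool.Agent.H25.HK Pool.Agent.H23.LB Pool.Agent.H23.LC
open Pool.Agent.H28.RC (Rep ft idl)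
open Pool.Agent.H29.TC (dvs)

section

variable {K : Type} [Field K] [NumberField K]

open scoped Classical in
/-- the pieces cover the support -/
theorem cover {n : ℕ} (hn : Module.finrank ℚ K = n)
    (F : logSpace K × ℝ × (InfinitePlace K → ℝ) → ℝ≥0∞) (hF : ∀ u, (n : ℝ) < u.2.1 → F u = 0) :
    ∫⁻ u in Fd K ×ˢ (univ : Set ℝ) ×ˢ An K, F u ≤
      ∑' i : ℕ, ∫⁻ u in Sp' K ((n : ℝ) - i), F u := by
  set T : Set (logSpace K × ℝ × (InfinitePlace K → ℝ)) := {u | u.2.1 ≤ n} with hT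
  have hTm : MeasurableSet T := by
    rw [hT]
    exact measurableSet_le (measurable_fst.comp measurable_snd) measurable_const
  have h1 : F = T.indicator F := by
    funext u
    by_cases h : u ∈ T
    · rw [indicator_of_mem h]
    · rw [indicator_of_notMem h]
      exact hF u (not_le.1 h)
  have h2 : ∫⁻ u in Fd K ×ˢ (univ : Set ℝ) ×ˢ An K, F u =
      ∫⁻ u in T ∩ (Fd K ×ˢ (univ : Set ℝ) ×ˢ An K), F u := by
    conv_lhs => rw [h1]
    rw [setLIntegral_indicator hTm]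
  rw [h2]
  refine (lintegral_mono_set ?_).trans
    (lintegral_iUnion_le (fun i : ℕ => Sp' K ((n : ℝ) - i)) F)
  rintro u ⟨hu1, hu2, -, hu3⟩
  have hu4 : u.2.1 ≤ n := hu1
  rw [mem_iUnion]
  refine ⟨⌈(n : ℝ) - u.2.1⌉₊, hu2, ⟨?_, ?_⟩, hu3⟩
  · have := Nat.le_ceil ((n : ℝ) - u.2.1)
    linarith
  · have := (Nat.ceil_lt_add_one (by linarith : 0 ≤ (n : ℝ) - u.2.1)).le
    linarith

end

/-- the last numerical step -/
theorem fin_num {n : ℕ} {ε κ X Q d j k H : ℝ} (hε : 0 < ε) (hε1 : ε ≤ 1) (hκ0 : 0 < κ)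
    (hκ : κ ≤ ε / 16) (hX : 1 ≤ X) (hd : 1 ≤ d) (hj : 1 ≤ j) (hk : 1 ≤ k) (hH : 1 ≤ H)
    (hX2 : X ^ 2 ≤ 3 ^ n * (d * j * k ^ 2 * H ^ 3)) (hQ : Q = d * j * k * H) :
    Q ^ (ε / 8) * Real.exp ((2 * κ + ε / 8 + 2 * (ε / 16)) * Real.log X) ≤ 3 ^ n * Q ^ ε := by
  have hX0 : 0 < X := by linarith
  have hQ1 : 1 ≤ Q := by
    rw [hQ]
    exact one_le_mul_of_one_le_of_one_le (one_le_mul_of_one_le_of_one_le
      (one_le_mul_of_one_le_of_one_le hd hj) hk) hH
  have hQ0 : 0 < Q := by linarith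
  have h1 : Real.exp ((2 * κ + ε / 8 + 2 * (ε / 16)) * Real.log X) =
      (X ^ 2) ^ (κ + ε / 8) := by
    rw [mul_comm, ← Real.rpow_def_of_pos hX0, ← Real.rpow_natCast, ← Real.rpow_mul hX0.le]
    congr 1
    push_cast
    ring
  have h2 : X ^ 2 ≤ 3 ^ n * Q ^ 3 := by
    refine hX2.trans (mul_le_mul_of_nonneg_left ?_ (by positivity))
    rw [hQ]
    have e : (d * j * k * H) ^ 3 = (d * j * k ^ 2 * H ^ 3) * (d ^ 2 * j ^ 2 * k) := by ring
    rw [e]
    refine le_mul_of_one_le_right (by positivity) ?_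
    exact one_le_mul_of_one_le_of_one_le (one_le_mul_of_one_le_of_one_le
      (one_le_pow₀ hd) (one_le_pow₀ hj)) hk
  have h3 : (X ^ 2) ^ (κ + ε / 8) ≤ 3 ^ n * Q ^ (3 * (κ + ε / 8)) := by
    refine (Real.rpow_le_rpow (by positivity) h2 (by positivity)).trans ?_
    rw [Real.mul_rpow (by positivity) (by positivity), ← Real.rpow_natCast Q 3,
      ← Real.rpow_mul hQ0.le]
    push_cast
    refine mul_le_mul_of_nonneg_right ?_ (by positivity)
    calc ((3 : ℝ) ^ n) ^ (κ + ε / 8) ≤ ((3 : ℝ) ^ n) ^ (1 : ℝ) :=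
          Real.rpow_le_rpow_of_exponent_le (one_le_pow₀ (by norm_num)) (by linarith)
      _ = 3 ^ n := Real.rpow_one _
  rw [h1]
  calc Q ^ (ε / 8) * (X ^ 2) ^ (κ + ε / 8)
      ≤ Q ^ (ε / 8) * (3 ^ n * Q ^ (3 * (κ + ε / 8))) :=
        mul_le_mul_of_nonneg_left h3 (by positivity)
    _ = 3 ^ n * Q ^ (ε / 8 + 3 * (κ + ε / 8)) := by
        rw [Real.rpow_add hQ0]
        ring
    _ ≤ 3 ^ n * Q ^ ε := by
        refine mul_le_mul_of_nonneg_left ?_ (by positivity)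
        exact Real.rpow_le_rpow_of_exponent_le hQ1 (by linarith)

theorem X_bound {n : ℕ} {X d j k H : ℝ} (hX : 1 ≤ X) (hd : 1 ≤ d) (hj : 1 ≤ j) (hk : 1 ≤ k)
    (hH : 1 ≤ H) (hX2 : X ^ 2 ≤ 3 ^ n * (d * j * k ^ 2 * H ^ 3)) :
    X * ((H ^ 2)⁻¹ / (Real.sqrt d * j * k)) ≤ 3 ^ n := by
  have hs : 0 < Real.sqrt d := Real.sqrt_pos.2 (by linarith)
  have hj0 : 0 < j := by linarith
  have hk0 : 0 < k := by linarith
  have hH0 : 0 < H := by linarith
  have h3 : (1 : ℝ) ≤ 3 ^ n := one_le_pow₀ (by norm_num)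
  have h1 : X ≤ 3 ^ n * (Real.sqrt d * j * k * H ^ 2) := by
    refine le_of_sq_le_sq ?_ (by positivity)
    refine hX2.trans ?_
    have e : (3 ^ n * (Real.sqrt d * j * k * H ^ 2)) ^ 2 =
        3 ^ n * (d * j * k ^ 2 * H ^ 3) * (3 ^ n * (j * H)) := by
      have h4 : Real.sqrt d ^ 2 = d := Real.sq_sqrt (by linarith)
      calc (3 ^ n * (Real.sqrt d * j * k * H ^ 2)) ^ 2 =
          3 ^ n * 3 ^ n * (Real.sqrt d ^ 2 * j ^ 2 * k ^ 2 * H ^ 4) := by ring
        _ = _ := by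
            rw [h4]
            ring
    rw [e]
    refine le_mul_of_one_le_right (by positivity) ?_
    exact one_le_mul_of_one_le_of_one_le h3 (one_le_mul_of_one_le_of_one_le hj hH)
  calc X * ((H ^ 2)⁻¹ / (Real.sqrt d * j * k))
      ≤ (3 ^ n * (Real.sqrt d * j * k * H ^ 2)) * ((H ^ 2)⁻¹ / (Real.sqrt d * j * k)) :=
        mul_le_mul_of_nonneg_right h1 (by positivity)
    _ = 3 ^ n := by field_simp

open scoped Classical in
/-- (BS) the bound for the integral over all positions. -/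
theorem pf_BS (hIN : V_IN) (hTT : V_TT) (hMS : V_MS) (hPB : V_PB) (hRR : T_RR) (hTH : T_TH)
    (hYC : T_YC) (hFD : T_FD) : V_BS := by
  intro n hn0 ε κ hε hε1 hκ0 hκ
  obtain ⟨C₅, hC₅, hpiece⟩ := piece hIN hTT hMS hPB hRR hTH hYC hFD n hn0 (ε / 8) (by positivity)
    (by linarith)
  have hκ1 : κ ≤ 1 := by linarith
  set S₀ : ℝ := Real.exp (ε / 16 * n) * (1 - Real.exp (-(ε / 16)))⁻¹ with hS₀
  have hexp1 : Real.exp (-(ε / 16)) < 1 := by
    rw [Real.exp_lt_one_iff]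
    linarith
  have hS₀0 : 0 ≤ S₀ := by
    rw [hS₀]
    have : 0 < 1 - Real.exp (-(ε / 16)) := by linarith
    positivity
  refine ⟨C₅ * (Real.exp (3 * n) * (1 + 3 ^ n)) * S₀ ^ 2 * 3 ^ n, by positivity, ?_⟩
  intro K _ _ hn ι _ M hM j k D q X₁ cp H X B Λ v cc s hj hk hD hcor hX₁ hP hX hX2 hB hv hΛ hcc
    hle
  have hH : ∀ v, 1 ≤ H v := fun v => hP.one_le v
  have hHH := one_le_HH hH
  have hNj : 1 ≤ Nf K j := by
    unfold Nf
    have h : Ideal.absNorm j ≠ 0 := fun h => hj (Ideal.absNorm_eq_zero_iff.1 h)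
    exact_mod_cast Nat.one_le_iff_ne_zero.2 h
  have hNk : 1 ≤ Nf K k := by
    unfold Nf
    have h : Ideal.absNorm k ≠ 0 := fun h => hk (Ideal.absNorm_eq_zero_iff.1 h)
    exact_mod_cast Nat.one_le_iff_ne_zero.2 h
  have hd : 1 ≤ |(discr K : ℝ)| := by
    have h : (1 : ℤ) ≤ |discr K| := Int.one_le_abs (discr_ne_zero K)
    have h2 : ((1 : ℤ) : ℝ) ≤ ((|discr K| : ℤ) : ℝ) := by exact_mod_cast h
    simpa using h2
  have hcw : 0 ≤ cw K := by unfold cw; positivity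
  have hreg : 0 < regulator K := regulator_pos K
  have hX0 : 0 < X := by linarith
  set x : ℝ := Real.log X with hx
  have hx0 : 0 ≤ x := Real.log_nonneg hX
  have hXe : Real.exp x = X := Real.exp_log hX0
  set ρ : ℝ := Nf K k / Nf K j with hρ
  have hρ0 : 0 ≤ ρ := by
    rw [hρ]
    positivity
  set a : ℝ := (HH H ^ 2)⁻¹ / (Real.sqrt |(discr K : ℝ)| * Nf K j * Nf K k) with ha
  have ha0 : 0 ≤ a := by
    rw [ha]
    positivity
  have ha1 : Real.exp x * a ≤ 3 ^ n := by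
    rw [hXe, ha]
    exact X_bound hX hd hNj hNk hHH hX2
  set Q : ℝ := |(discr K : ℝ)| * Nf K j * Nf K k * HH H with hQ
  have hQ1 : 1 ≤ Q := by
    rw [hQ]
    exact one_le_mul_of_one_le_of_one_le (one_le_mul_of_one_le_of_one_le
      (one_le_mul_of_one_le_of_one_le hd hNj) hNk) hHH
  set W : ℝ := C₅ * (classNumber K * regulator K) * B ^ 2 * Λ * (cw K * ((dvs K k).card * D)) *
    Q ^ (ε / 8) * (HH H)⁻¹ * ((Real.exp (3 * n) * (1 + 3 ^ n)) * (1 + ρ)) with hW
  have hW0 : 0 ≤ W := by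
    rw [hW]
    positivity
  set F : ι → logSpace K × ℝ × (InfinitePlace K → ℝ) → ℝ≥0∞ := fun c u =>
    ENNReal.ofReal ‖∑' x : {x : K // x ∈ M c ∧ x ≠ 0}, cc c x *
      v (Ideal.absNorm (idl K (M c) x)) *
        Wg cp H pb x (yM K (M c) u.2.1 (zs s u.1)) (om s u.2.2)‖ with hF
  -- the support
  have hsupp : ∀ c u, (n : ℝ) < u.2.1 → F c u = 0 := by
    intro c u hu
    have h1 := (hMS K (M c) cp H pb (cc c) s (hM.1 c) hP (fun v => ⟨1, pb_zero K v⟩)
      (hcc c)).2.2.1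
    rw [hF]
    simp only
    have h2 : ∀ x : {x : K // x ∈ M c ∧ x ≠ 0}, cc c x *
        v (Ideal.absNorm (idl K (M c) x)) *
          Wg cp H pb x (yM K (M c) u.2.1 (zs s u.1)) (om s u.2.2) = 0 := by
      intro x
      have h3 : Wg cp H pb x.1 (yM K (M c) u.2.1 (zs s u.1)) (om s u.2.2) = 0 := by
        by_contra h4
        have h5 := (h1 (zs s u.1) u.2.1 u.2.2 x.1 x.2.1 h4).2
        rw [hn] at h5
        linarith
      rw [h3, mul_zero]
    simp only [h2, tsum_zero, norm_zero, ENNReal.ofReal_zero]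
  -- the pieces
  set sg : ℕ → ℝ := fun i => Real.exp ((κ + ε / 16) * x + ε / 16 * (x + ((n : ℝ) - i))) with hsg
  have hpc : ∀ i : ℕ, ∑ c, ∫⁻ u in Sp' K ((n : ℝ) - i), F c u ≤
      ENNReal.ofReal (Real.sqrt W * sg i) := by
    intro i
    set τ : ℝ := (n : ℝ) - i with hτ
    have hτn : τ ≤ n := by
      rw [hτ]
      have : (0 : ℝ) ≤ i := Nat.cast_nonneg i
      linarith
    set σ : ℝ := if -τ ≤ x then κ else 1 with hσ
    have hσ' : σ = κ ∨ σ = 1 := by
      rw [hσ]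
      split_ifs
      · exact Or.inl rfl
      · exact Or.inr rfl
    have h1 := hpiece κ hκ0 hκ1 K hn ι M hM j k D q X₁ cp H X B Λ v cc s hj hk hD hcor hX₁ hP hX
      hB hv hΛ hcc hle τ σ hσ'
    have h2 := real_piece (n := n) (κ := κ) (e := ε / 8) (δ := ε / 16) (x := x) (τ := τ)
      (ρ := ρ) (a := a) hκ0 hκ1 (by positivity) (by positivity) (by linarith) hx0 hτn hρ0 ha0 ha1
      σ hσ
    have h3 : (Real.sqrt W * sg i) ^ 2 = W * (Real.exp ((2 * κ + ε / 8) * x) *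
        Real.exp (2 * (ε / 16) * (x + τ))) := by
      rw [mul_pow, Real.sq_sqrt hW0, hsg]
      simp only
      rw [← Real.exp_nat_mul, ← Real.exp_add]
      congr 2
      push_cast
      rw [← hτ]
      ring
    have h4 : (∑ c, ∫⁻ u in Sp' K τ, F c u) ^ 2 ≤ ENNReal.ofReal (Real.sqrt W * sg i) ^ 2 := by
      refine h1.trans ?_
      rw [← ENNReal.ofReal_pow (by positivity), h3]
      refine ENNReal.ofReal_le_ofReal ?_
      have e1 : (X ^ σ) ^ 2 * Real.exp (τ * (1 + 2 * σ)) * Real.exp (-τ) =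
          Real.exp (2 * σ * (x + τ)) := by
        rw [Real.rpow_def_of_pos hX0, ← hx, ← Real.exp_nat_mul, ← Real.exp_add, ← Real.exp_add]
        congr 1
        push_cast
        ring
      have e2 : (Q * Real.exp |τ|) ^ (ε / 8) = Q ^ (ε / 8) * Real.exp (ε / 8 * |τ|) := by
        rw [Real.mul_rpow (by positivity) (by positivity), ← Real.exp_mul, mul_comm |τ|]
      have e3 : Real.exp (-τ) * (HH H ^ 2)⁻¹ /
          (Real.sqrt |(discr K : ℝ)| * Nf K j * Nf K k) = Real.exp (-τ) * a := by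
        rw [ha, mul_div_assoc]
      rw [e2, e3]
      calc C₅ * (classNumber K * regulator K) * (B * X ^ σ) ^ 2 *
            Real.exp (τ * (1 + 2 * σ)) * Λ * (cw K * ((dvs K k).card * D) *
            (Q ^ (ε / 8) * Real.exp (ε / 8 * |τ|)) *
            (Real.exp (-τ) * (HH H)⁻¹ * (1 + ρ + Real.exp (-τ) * a)))
          = (C₅ * (classNumber K * regulator K) * B ^ 2 * Λ * (cw K * ((dvs K k).card * D)) *
            Q ^ (ε / 8) * (HH H)⁻¹) * (((X ^ σ) ^ 2 * Real.exp (τ * (1 + 2 * σ)) *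
              Real.exp (-τ)) * Real.exp (ε / 8 * |τ|) * (1 + ρ + Real.exp (-τ) * a)) := by ring
        _ = (C₅ * (classNumber K * regulator K) * B ^ 2 * Λ * (cw K * ((dvs K k).card * D)) *
            Q ^ (ε / 8) * (HH H)⁻¹) * (Real.exp (2 * σ * (x + τ)) *
              Real.exp (ε / 8 * |τ|) * (1 + ρ + Real.exp (-τ) * a)) := by rw [e1]
        _ ≤ (C₅ * (classNumber K * regulator K) * B ^ 2 * Λ * (cw K * ((dvs K k).card * D)) *
            Q ^ (ε / 8) * (HH H)⁻¹) * ((Real.exp (3 * n) * (1 + 3 ^ n)) * (1 + ρ) *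
              (Real.exp ((2 * κ + ε / 8) * x) * Real.exp (2 * (ε / 16) * (x + τ)))) :=
            mul_le_mul_of_nonneg_left h2 (by positivity)
        _ = W * (Real.exp ((2 * κ + ε / 8) * x) * Real.exp (2 * (ε / 16) * (x + τ))) := by
            rw [hW]
            ring
    exact (ENNReal.pow_le_pow_left_iff two_ne_zero).1 h4
  -- the sum
  have hsum : ∑ c, ∫⁻ u in Fd K ×ˢ (univ : Set ℝ) ×ˢ An K, F c u ≤
      ENNReal.ofReal (Real.sqrt W * (S₀ * Real.exp ((κ + ε / 16 + ε / 16) * x))) := by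
    calc ∑ c, ∫⁻ u in Fd K ×ˢ (univ : Set ℝ) ×ˢ An K, F c u
        ≤ ∑ c, ∑' i : ℕ, ∫⁻ u in Sp' K ((n : ℝ) - i), F c u :=
          Finset.sum_le_sum fun c _ => cover hn (F c) (hsupp c)
      _ = ∑' i : ℕ, ∑ c, ∫⁻ u in Sp' K ((n : ℝ) - i), F c u :=
          (Summable.tsum_finsetSum fun c _ => ENNReal.summable).symm
      _ ≤ ∑' i : ℕ, ENNReal.ofReal (Real.sqrt W * sg i) := ENNReal.tsum_le_tsum hpc
      _ = ENNReal.ofReal (Real.sqrt W * (S₀ * Real.exp ((κ + ε / 16 + ε / 16) * x))) := by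
          have h1 : ∀ i : ℕ, Real.sqrt W * sg i = (Real.sqrt W * (Real.exp (ε / 16 * n) *
              Real.exp ((κ + ε / 16 + ε / 16) * x))) * Real.exp (-(ε / 16)) ^ i := by
            intro i
            rw [hsg]
            simp only
            rw [← Real.exp_nat_mul, mul_assoc, ← Real.exp_add, ← Real.exp_add]
            congr 2
            ring
          have h2 : Summable (fun i : ℕ => (Real.sqrt W * (Real.exp (ε / 16 * n) *
              Real.exp ((κ + ε / 16 + ε / 16) * x))) * Real.exp (-(ε / 16)) ^ i) :=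
            (summable_geometric_of_lt_one (Real.exp_pos _).le hexp1).mul_left _
          simp only [h1]
          rw [← ENNReal.ofReal_tsum_of_nonneg (fun i => by positivity) h2, tsum_mul_left,
            tsum_geometric_of_lt_one (Real.exp_pos _).le hexp1, hS₀]
          congr 1
          ring
  have hfin := fin_num (n := n) hε hε1 hκ0 hκ hX hd hNj hNk hHH hX2 hQ
  refine (pow_le_pow_left₀ (zero_le) hsum 2).trans ?_
  rw [← ENNReal.ofReal_pow (by positivity)]
  refine ENNReal.ofReal_le_ofReal ?_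
  have e4 : Real.exp ((κ + ε / 16 + ε / 16) * x) ^ 2 =
      Real.exp ((2 * κ + ε / 8 + 2 * (ε / 16)) * Real.log X) := by
    rw [← Real.exp_nat_mul]
    congr 1
    push_cast
    rw [← hx]
    ring
  rw [mul_pow, mul_pow, Real.sq_sqrt hW0, e4]
  calc W * (S₀ ^ 2 * Real.exp ((2 * κ + ε / 8 + 2 * (ε / 16)) * Real.log X))
      = (C₅ * (classNumber K * regulator K) * B ^ 2 * Λ * (cw K * ((dvs K k).card * D)) *
        (HH H)⁻¹ * ((Real.exp (3 * n) * (1 + 3 ^ n)) * (1 + ρ)) * S₀ ^ 2) *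
          (Q ^ (ε / 8) * Real.exp ((2 * κ + ε / 8 + 2 * (ε / 16)) * Real.log X)) := by
        rw [hW]
        ring
    _ ≤ (C₅ * (classNumber K * regulator K) * B ^ 2 * Λ * (cw K * ((dvs K k).card * D)) *
        (HH H)⁻¹ * ((Real.exp (3 * n) * (1 + 3 ^ n)) * (1 + ρ)) * S₀ ^ 2) *
          (3 ^ n * Q ^ ε) := mul_le_mul_of_nonneg_left hfin (by positivity)
    _ = _ := by ring

end Pool.Agent.H29.DW
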