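import Pool.Agent.H29.THC.BaseA
import Pool.Agent.H11.HK.BD
import Pool.Agent.H25.GLB.FK
import Pool.Agent.H34.GLB.DC
import Pool.Agent.H60.GLB.CG
import Pool.Agent.H60.GLB.OG
import Pool.Agent.H64.GLB.AG
import Pool.Agent.H64.GLB.AN
import Pool.Agent.H18.GLB.GE
import Pool.Agent.H65.GLB.PX
import Pool.Agent.H50.GLB.PM
import Pool.Agent.H81.GLB.TK
import Pool.Agent.H25.GLB.SK
import Pool.Agent.H28.GLB.WK
import Pool.Agent.H56.GLB.GK
import Pool.Agent.H90.GLB.MK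
import Pool.Agent.H90.GLB.MM
import Pool.Agent.H19.GLB.VL
import Pool.Agent.H59.LC.PW
import Pool.Agent.H23.GLB.AK
import Pool.Agent.H19.GLB.ZN
import Pool.Agent.H68.RC.GM
import Pool.Agent.H87.HK.DC

/-!
# Closed forms of the facts used in the assembly
-/

set_option autoImplicit false

open NumberField NumberField.InfinitePlace Complex

namespace Pool.Agent.H29.DW.Base

open Pool.Agent.H23.LB Pool.Agent.H23.LC
open Pool.Agent.H29.THC.Base (c_TH c_YC c_UI c_DU c_CT c_ID c_RX c_PU c_RR c_FP c_NS c_ME)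

theorem u_AG : U_AG := Pool.Agent.H64.GLB.pf_AG

theorem u_AN : U_AN := Pool.Agent.H64.GLB.pf_AN

theorem u_CG : U_CG := Pool.Agent.H60.GLB.pf_CG u_AG

theorem u_OG : U_OG := Pool.Agent.H60.GLB.pf_OG u_AG u_CG c_PU

theorem u_DC : U_DC := Pool.Agent.H34.GLB.pf_DC u_AG u_CG c_RR c_PU

theorem u_GE : U_GE := Pool.Agent.H18.GLB.pf_GE

theorem u_VL : U_VL := Pool.Agent.H19.GLB.pf_VL

theorem u_PW : U_PW := Pool.Agent.H59.LC.pf_PW

theorem u_AK : U_AK := Pool.Agent.H23.GLB.pf_AK c_FP c_ME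

theorem u_ZN : U_ZN := Pool.Agent.H19.GLB.pf_ZN

theorem u_PM : U_PM := Pool.Agent.H50.GLB.pf_PM Pool.Agent.H65.GLB.pf_PX

theorem c_LBc : Pool.Agent.H28.RC.T_LBc := Pool.Agent.H68.RC.pf_LB Pool.Agent.H3.HK.lb

theorem c_GMc : Pool.Agent.H28.RC.T_GMc := Pool.Agent.H68.RC.pf_GM Pool.Agent.H3.HK.gm

theorem u_TK : U_TK := Pool.Agent.H81.GLB.pf_TK u_PM c_GMc c_LBc

theorem u_SK : U_SK := Pool.Agent.H25.GLB.pf_SK u_AG c_TH

theorem c_FD : Pool.Agent.H25.HK.T_FD := Pool.Agent.H66.HK.fd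

theorem c_DCh : Pool.Agent.H25.HK.T_DC := Pool.Agent.H87.HK.dc c_TH c_YC c_FD

theorem u_WK : U_WK :=
  Pool.Agent.H28.GLB.pf_WK u_TK u_SK u_CG c_PU c_TH c_DCh c_UI c_YC c_FD c_DU

theorem u_GK : U_GK := Pool.Agent.H56.GLB.pf_GK u_AG c_PU

theorem u_MK : U_MK := Pool.Agent.H90.GLB.pf_MK u_GK u_SK u_CG u_AG c_PU

theorem u_MM : U_MM := Pool.Agent.H90.GLB.pf_MM u_GK u_SK u_DC u_CG u_AG c_PU

theorem u_FK : U_FK :=
  Pool.Agent.H25.GLB.pf_FK u_WK u_MK u_MM u_GE u_OG c_RR u_CG u_DC Pool.Agent.H11.HK.bd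
    Pool.Agent.H63.HK.ds c_DU

end Pool.Agent.H29.DW.Base
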