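import Pool.Agent.H29.DW.QWa

/-!
# The mean square over the residue classes
-/

set_option autoImplicit false
set_option linter.unusedVariables false
set_option linter.unusedSectionVars false

open NumberField NumberField.InfinitePlace NumberField.Units
  NumberField.Units.dirichletUnitTheorem MeasureTheory Set Filter Complex
open scoped nonZeroDivisors ENNReal

namespace Pool.Agent.H29.DW

open Pool.Agent.H25.HK Pool.Agent.H23.LB Pool.Agent.H23.LC
open Pool.Agent.H28.RC (Rep ft idl)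
open Pool.Agent.H29.TC (GK fk_le dvs cq LC Gn)

theorem continuous_chp (c : ℂ) : Continuous (chp c) := by
  unfold chp
  fun_prop

theorem continuous_tw1 {c : ℂ} {H : ℝ} {p : ℂ → ℂ} (hp : Continuous p) :
    Continuous (tw1 c H p) := by
  unfold tw1
  exact (continuous_chp c).mul (hp.comp (by fun_prop))

/-- decay of the bound for the ambiguity function -/
theorem amb_le (r : Bool) {n A : ℕ} (hA : n + 1 ≤ A) (c : ℂ) {H : ℝ} (hH : 1 ≤ H) (a ξ : ℂ) :
    amb r A c H a ξ ≤ ((1 + ‖c * a / (2 * Real.pi * dg r)‖) * H) ^ (A : ℝ) *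
      (1 + ‖ξ‖) ^ (-(n + 1 : ℝ)) := by
  set ξ₀ : ℂ := c * a / (2 * Real.pi * dg r) with hξ₀
  have h0 : 0 ≤ ((1 + ‖ξ₀‖) * H) ^ (A : ℝ) * (1 + ‖ξ‖) ^ (-(n + 1 : ℝ)) := by positivity
  have hHp : 0 < H := lt_of_lt_of_le one_pos hH
  unfold amb
  split_ifs
  · rw [← hξ₀]
    have h1 : 1 + ‖ξ‖ ≤ ((1 + ‖ξ₀‖) * H) * (1 + ‖ξ - ξ₀‖ / H) := by
      have h2 : ‖ξ‖ ≤ ‖ξ₀‖ + ‖ξ - ξ₀‖ := by
        calc ‖ξ‖ = ‖ξ₀ + (ξ - ξ₀)‖ := by rw [add_sub_cancel]
          _ ≤ _ := norm_add_le _ _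
      have h3 : ((1 + ‖ξ₀‖) * H) * (1 + ‖ξ - ξ₀‖ / H) = (1 + ‖ξ₀‖) * (H + ‖ξ - ξ₀‖) := by
        field_simp
      rw [h3]
      nlinarith [norm_nonneg ξ₀, norm_nonneg (ξ - ξ₀), mul_nonneg (norm_nonneg ξ₀)
        (norm_nonneg (ξ - ξ₀))]
    have h2 : (1 + ‖ξ - ξ₀‖ / H) ^ (-(A : ℝ)) ≤
        ((1 + ‖ξ₀‖) * H) ^ (A : ℝ) * (1 + ‖ξ‖) ^ (-(A : ℝ)) := by
      rw [Real.rpow_neg (by positivity), Real.rpow_neg (by positivity), inv_eq_one_div,
        ← div_eq_mul_inv, div_le_div_iff₀ (by positivity) (by positivity), one_mul,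
        ← Real.mul_rpow (by positivity) (by positivity)]
      exact Real.rpow_le_rpow (by positivity) h1 (by positivity)
    refine h2.trans (mul_le_mul_of_nonneg_left ?_ (by positivity))
    refine Real.rpow_le_rpow_of_exponent_le (by linarith [norm_nonneg ξ]) ?_
    have : ((n + 1 : ℕ) : ℝ) ≤ A := by exact_mod_cast hA
    push_cast at this
    linarith
  · exact h0

theorem amb_nonneg (r : Bool) (A : ℕ) (c : ℂ) {H : ℝ} (hH : 1 ≤ H) (a ξ : ℂ) :
    0 ≤ amb r A c H a ξ := by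
  have hHp : 0 < H := lt_of_lt_of_le one_pos hH
  unfold amb
  split_ifs
  · positivity
  · exact le_rfl

section

variable {K : Type} [Field K] [NumberField K]

/-- the local functions of the correlation -/
noncomputable def Gl (cp : InfinitePlace K → ℂ) (H : InfinitePlace K → ℝ)
    (p : InfinitePlace K → ℂ → ℂ) (a : InfinitePlace K → ℂ) (v : InfinitePlace K) (w : ℂ) : ℂ :=
  tw1 (cp v) (H v) (p v) (w + a v) * (starRingEnd ℂ) (tw1 (cp v) (H v) (p v) w)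

theorem Gl_prod (cp : InfinitePlace K → ℂ) (H : InfinitePlace K → ℝ)
    (p : InfinitePlace K → ℂ → ℂ) (x h : K) (y : InfinitePlace K → ℝ)
    (ω : InfinitePlace K → ℂ) :
    ∏ v, Gl cp H p (fun v => wv v h y ω) v (wv v x y ω) =
      Wg cp H p (x + h) y ω * (starRingEnd ℂ) (Wg cp H p x y ω) := by
  unfold Wg Gl
  rw [map_prod, ← Finset.prod_mul_distrib]
  refine Finset.prod_congr rfl fun v _ => ?_
  rw [wv_add]

theorem Gl_cont {cp : InfinitePlace K → ℂ} {H : InfinitePlace K → ℝ}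
    {p : InfinitePlace K → ℂ → ℂ} (hp : ∀ v, Continuous (p v)) (a : InfinitePlace K → ℂ)
    (v : InfinitePlace K) : Continuous (Gl cp H p a v) := by
  unfold Gl
  exact ((continuous_tw1 (hp v)).comp (continuous_id.add continuous_const)).mul
    (Complex.continuous_conj.comp (continuous_tw1 (hp v)))

theorem Gl_supp {cp : InfinitePlace K → ℂ} {H : InfinitePlace K → ℝ}
    {p : InfinitePlace K → ℂ → ℂ} (hH : ∀ v, 1 ≤ H v)
    (hp : ∀ v x, 1 / 16 < ‖x‖ → p v x = 0) (a : InfinitePlace K → ℂ)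
    (v : InfinitePlace K) (w : ℂ) (hw : 2 < ‖w‖) : Gl cp H p a v w = 0 := by
  have h1 : 1 < ‖w - 1‖ := by
    have h4 := norm_le_norm_add_norm_sub (1 : ℂ) w
    rw [norm_one, norm_sub_rev] at h4
    linarith
  have h2 : 1 / 16 < ‖(H v : ℂ) * (w - 1)‖ := by
    rw [norm_mul, Complex.norm_real, Real.norm_eq_abs,
      abs_of_pos (lt_of_lt_of_le one_pos (hH v))]
    nlinarith [hH v]
  unfold Gl
  have h3 : tw1 (cp v) (H v) (p v) w = 0 := by
    unfold tw1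
    rw [hp v _ h2, mul_zero]
  rw [h3, map_zero, mul_zero]

theorem cv_nonneg (L : FI K) : 0 ≤ cv K L := by
  unfold cv
  have h : (0 : ℚ) ≤ FractionalIdeal.absNorm L := FractionalIdeal.absNorm_nonneg L
  exact mul_nonneg (Real.sqrt_nonneg _) (by exact_mod_cast h)

/-- the bound for one correlation -/
theorem corr_le (hPG : V_PG) {n A : ℕ} (hA : n + 1 ≤ A) {C₀ : ℝ} (hC₀ : 0 ≤ C₀)
    (hAM : ∀ (r : Bool) (B H : ℝ) (c a ξ : ℂ) (p : ℂ → ℂ), 0 ≤ B →
      Bmp A B p → 1 ≤ H → Rl r c → Rl r a → Rl r ξ →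
      ‖lf r (fun w => tw1 c H p (w + a) * (starRingEnd ℂ) (tw1 c H p w)) ξ‖ ≤
        C₀ * B ^ 2 * H ^ (-(dg r : ℝ)) * amb r A c H a ξ)
    (hn : Module.finrank ℚ K = n) {k : Ideal (𝓞 K)} (hk : k ≠ ⊥) {M : FI K} (hM : M ≠ 0)
    {X : Finset K} (hX : Rep K (k ^ 2) M X) {cp : InfinitePlace K → ℂ}
    {H : InfinitePlace K → ℝ} {p : InfinitePlace K → ℂ → ℂ} {B : ℝ} (hP : Prm cp H)
    (hB : 1 ≤ B) (hp : ∀ v, Bmp A B (p v)) {y : InfinitePlace K → ℝ}
    {ω : InfinitePlace K → ℂ} (hω : Pos ω) (c : K → ℂ) (h : K)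
    (hper : ∀ x ∈ M, ∀ t ∈ ((k ^ 2 : Ideal (𝓞 K)) : FI K) * M, c (x + t) = c x)
    {E : ℝ} (hE : 0 ≤ E)
    (hft : ∀ y' ∈ du K (((k ^ 2 : Ideal (𝓞 K)) : FI K) * M), ‖ft K X c y'‖ ≤ E) :
    ENNReal.ofReal ‖∑' x : {x : K // x ∈ M}, c x *
      (Wg cp H p (x + h) y ω * (starRingEnd ℂ) (Wg cp H p x y ω))‖ ≤
      ENNReal.ofReal (Real.exp (-(∑ v, (v.mult : ℝ) * y v) / 2) *
        (cv K (((k ^ 2 : Ideal (𝓞 K)) : FI K) * M))⁻¹) *
      (ENNReal.ofReal E * ENNReal.ofReal ((max 1 C₀) ^ n * B ^ (2 * n) * (HH H)⁻¹) *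
        ∑' y' : {y' : K // y' ∈ du K (((k ^ 2 : Ideal (𝓞 K)) : FI K) * M)},
          ENNReal.ofReal (Amb A cp H h y' y ω)) := by
  set a : InfinitePlace K → ℂ := fun v => wv v h y ω with ha
  have hB0 : 0 ≤ B := zero_le_one.trans hB
  have hloc : ∀ v ξ, Rl (rv v) ξ → ‖lf (rv v) (Gl cp H p a v) ξ‖ ≤
      C₀ * B ^ 2 * H v ^ (-(dg (rv v) : ℝ)) * amb (rv v) A (cp v) (H v) (a v) ξ := by
    intro v ξ hξ
    exact hAM (rv v) B (H v) (cp v) (a v) ξ (p v) hB0 (hp v) (hP.one_le v) (hP.par v).real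
      (Rl_wv v h y hω) hξ
  have hk2 : k ^ 2 ≠ ⊥ := by
    rw [← Ideal.zero_eq_bot]
    exact pow_ne_zero 2 hk
  have hdec : ∃ C : ℝ, ∀ v ξ, Rl (rv v) ξ → ‖lf (rv v) (Gl cp H p a v) ξ‖ ≤
      C * (1 + ‖ξ‖) ^ (-(Module.finrank ℚ K + 1 : ℝ)) := by
    refine ⟨∑ v : InfinitePlace K, C₀ * B ^ 2 * H v ^ (-(dg (rv v) : ℝ)) *
      ((1 + ‖cp v * a v / (2 * Real.pi * dg (rv v))‖) * H v) ^ (A : ℝ), fun v ξ hξ => ?_⟩
    have hnn : ∀ v : InfinitePlace K, 0 ≤ C₀ * B ^ 2 * H v ^ (-(dg (rv v) : ℝ)) *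
        ((1 + ‖cp v * a v / (2 * Real.pi * dg (rv v))‖) * H v) ^ (A : ℝ) := by
      intro v
      have := hP.one_le v
      positivity
    refine (hloc v ξ hξ).trans ?_
    have h1 := amb_le (rv v) hA (cp v) (hP.one_le v) (a v) ξ
    have h2 : 0 ≤ C₀ * B ^ 2 * H v ^ (-(dg (rv v) : ℝ)) := by
      have := hP.one_le v
      positivity
    refine (mul_le_mul_of_nonneg_left h1 h2).trans ?_
    rw [← mul_assoc, hn]
    refine mul_le_mul_of_nonneg_right ?_ (by positivity)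
    exact Finset.single_le_sum (f := fun v : InfinitePlace K => C₀ * B ^ 2 *
      H v ^ (-(dg (rv v) : ℝ)) *
        ((1 + ‖cp v * a v / (2 * Real.pi * dg (rv v))‖) * H v) ^ (A : ℝ))
      (fun v _ => hnn v) (Finset.mem_univ v)
  obtain ⟨-, hs2, heq⟩ := hPG K (k ^ 2) M X c (Gl cp H p a) hk2 hM hX hper
    (Gl_cont (fun v => (hp v).continuous) a)
    ⟨2, fun v w hw => Gl_supp (fun v => hP.one_le v) (fun v => (hp v).supp) a v w hw⟩ hdec y ω hω
  have heq' : ∑' x : {x : K // x ∈ M}, c x *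
      (Wg cp H p (x + h) y ω * (starRingEnd ℂ) (Wg cp H p x y ω)) =
      ∑' x : {x : K // x ∈ M}, c x * ∏ v, Gl cp H p a v (wv v x y ω) := by
    refine tsum_congr fun x => ?_
    rw [ha, Gl_prod]
  have hpref : 0 ≤ Real.exp (-(∑ v, (v.mult : ℝ) * y v) / 2) *
      (cv K (((k ^ 2 : Ideal (𝓞 K)) : FI K) * M))⁻¹ :=
    mul_nonneg (Real.exp_pos _).le (inv_nonneg.2 (cv_nonneg _))
  rw [heq', heq, norm_mul, Complex.norm_real, Real.norm_eq_abs, abs_of_nonneg hpref,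
    ENNReal.ofReal_mul hpref]
  refine mul_le_mul_right ?_ _
  -- the dual sum
  set Z := {y' : K // y' ∈ du K (((k ^ 2 : Ideal (𝓞 K)) : FI K) * M)} with hZ
  set F : Z → ℂ := fun y' => ∏ v, lf (rv v) (Gl cp H p a v)
    (wv v y'.1 (-y) (fun v => (starRingEnd ℂ) (ω v))) with hF
  have hs3 : Summable (fun y' : Z => ‖ft K X c y' * F y'‖) := by
    refine Summable.of_nonneg_of_le (fun _ => norm_nonneg _) (fun y' => ?_)
      (hs2.mul_left E)
    rw [norm_mul]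
    exact mul_le_mul_of_nonneg_right (hft y'.1 y'.2) (norm_nonneg _)
  have hFle : ∀ y' : Z, ‖F y'‖ ≤ ((max 1 C₀) ^ n * B ^ (2 * n) * (HH H)⁻¹) *
      Amb A cp H h y' y ω := by
    intro y'
    rw [hF]
    dsimp only
    rw [norm_prod]
    have h1 : ∏ v, ‖lf (rv v) (Gl cp H p a v)
        (wv v y'.1 (-y) (fun v => (starRingEnd ℂ) (ω v)))‖ ≤
        ∏ v : InfinitePlace K, ((C₀ * B ^ 2) * (H v ^ v.mult)⁻¹ * amb (rv v) A (cp v) (H v) (a v)
          (wv v y'.1 (-y) (fun v => (starRingEnd ℂ) (ω v)))) := by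
      refine Finset.prod_le_prod (fun v _ => norm_nonneg _) fun v _ => ?_
      refine (hloc v _ (Rl_wv v y'.1 (-y) hω.conj)).trans (le_of_eq ?_)
      rw [Real.rpow_neg (zero_le_one.trans (hP.one_le v)), dg_rv, Real.rpow_natCast]
    refine h1.trans ?_
    rw [Finset.prod_mul_distrib, Finset.prod_mul_distrib, Finset.prod_const, Finset.card_univ,
      Finset.prod_inv_distrib]
    unfold Amb
    have hHH : ∏ v : InfinitePlace K, H v ^ v.mult = HH H := rfl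
    rw [hHH]
    have h2 : 0 ≤ (HH H)⁻¹ := by
      have := one_le_HH (fun v => hP.one_le v)
      positivity
    have h3 : 0 ≤ ∏ v : InfinitePlace K, amb (rv v) A (cp v) (H v) (a v)
        (wv v y'.1 (-y) (fun v => (starRingEnd ℂ) (ω v))) :=
      Finset.prod_nonneg fun v _ => amb_nonneg _ _ _ (hP.one_le v) _ _
    refine mul_le_mul_of_nonneg_right (mul_le_mul_of_nonneg_right ?_ h2) h3
    have hc := card_places_le hn
    rw [mul_pow]
    have h4 : C₀ ^ Fintype.card (InfinitePlace K) ≤ (max 1 C₀) ^ n :=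
      (pow_le_pow_left₀ hC₀ (le_max_right _ _) _).trans (pow_le_pow_right₀ (le_max_left _ _) hc)
    have h5 : (B ^ 2) ^ Fintype.card (InfinitePlace K) ≤ B ^ (2 * n) := by
      rw [← pow_mul]
      exact pow_le_pow_right₀ hB (by omega)
    exact mul_le_mul h4 h5 (by positivity) (by positivity)
  calc ENNReal.ofReal ‖∑' y' : Z, ft K X c y' * F y'‖
      ≤ ENNReal.ofReal (∑' y' : Z, ‖ft K X c y' * F y'‖) :=
        ENNReal.ofReal_le_ofReal (norm_tsum_le_tsum_norm hs3)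
    _ = ∑' y' : Z, ENNReal.ofReal ‖ft K X c y' * F y'‖ :=
        ENNReal.ofReal_tsum_of_nonneg (fun _ => norm_nonneg _) hs3
    _ ≤ ∑' y' : Z, (ENNReal.ofReal E *
          ENNReal.ofReal ((max 1 C₀) ^ n * B ^ (2 * n) * (HH H)⁻¹)) *
            ENNReal.ofReal (Amb A cp H h y' y ω) := by
        refine ENNReal.tsum_le_tsum fun y' => ?_
        have hh : 0 ≤ (max 1 C₀) ^ n * B ^ (2 * n) * (HH H)⁻¹ := by
          have := one_le_HH (fun v => hP.one_le v)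
          have := le_max_left 1 C₀
          positivity
        rw [← ENNReal.ofReal_mul hE, ← ENNReal.ofReal_mul (mul_nonneg hE hh)]
        refine ENNReal.ofReal_le_ofReal ?_
        rw [norm_mul, mul_assoc]
        exact mul_le_mul (hft y'.1 y'.2) (hFle y') (norm_nonneg _) hE
    _ = _ := by rw [ENNReal.tsum_mul_left]

/-- (QW) the mean square over the residue classes modulo `j`. -/
theorem pf_QW (hTH : T_TH) (hRX : Pool.Agent.H28.RC.T_RX) (hAM : V_AM) (hPG : V_PG) : V_QW := by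
  classical
  intro n A hn0 hA
  obtain ⟨C₀, hC₀, hAM'⟩ := hAM A
  refine ⟨(max 1 C₀) ^ n, by positivity, ?_⟩
  intro K _ _ hn j k M q D X₁ cp H p B hj hk hM hD hcor hX₁ hP hB hp y ω hω
  have hH : ∀ v, 1 ≤ H v := fun v => hP.one_le v
  have hps : ∀ v x, 1 / 16 < ‖x‖ → p v x = 0 := fun v => (hp v).supp
  have hHH := one_le_HH hH
  set W : K → ℂ := fun x => Wg cp H p x y ω with hW
  set a : K → ℂ := fun x => q x * W x with ha
  have hfin := fin_W hTH hM (cp := cp) (y := y) hω hH hps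
  set S₀ : Finset {x : K // x ∈ M} := hfin.toFinset with hS₀
  set S : Finset K := S₀.map (Function.Embedding.subtype _) with hS
  have hSM : ∀ x ∈ S, x ∈ M := by
    intro x hx
    rw [hS, Finset.mem_map] at hx
    obtain ⟨x', -, rfl⟩ := hx
    exact x'.2
  have hW0 : ∀ x ∈ M, x ∉ S → W x = 0 := by
    intro x hx hxS
    by_contra h
    apply hxS
    rw [hS, Finset.mem_map]
    exact ⟨⟨x, hx⟩, by rw [hS₀, Set.Finite.mem_toFinset]; exact h, rfl⟩
  have ha0 : ∀ x ∈ M, x ∉ S → a x = 0 := fun x hx hxS => by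
    rw [ha]
    simp only
    rw [hW0 x hx hxS, mul_zero]
  -- sums over `M` are sums over `S`
  have hsum : ∀ F : K → ℂ, (∀ x ∈ M, x ∉ S → F x = 0) →
      ∑' x : {x : K // x ∈ M}, F x = ∑ x ∈ S, F x := by
    intro F hF
    rw [hS, Finset.sum_map]
    refine tsum_eq_sum fun x hx => hF x.1 x.2 fun h => hx ?_
    rw [hS, Finset.mem_map] at h
    obtain ⟨x', hx', h1⟩ := h
    have : x' = x := Subtype.ext h1
    rwa [← this]
  have hSq : ∀ r, Sq j M q r cp H p y ω = ∑ x ∈ S, ci K j M r x * a x := by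
    intro r
    unfold Sq
    rw [hsum (fun x => ci K j M r x * q x * Wg cp H p x y ω)
      (fun x hx hxS => by
        have := hW0 x hx hxS
        simp only [hW] at this
        rw [this, mul_zero])]
    exact Finset.sum_congr rfl fun x _ => by rw [ha, hW]; ring
  obtain ⟨T, hT, hle⟩ := dbl hX₁ S hSM a ha0
  have hstep : ∑ r ∈ X₁, ENNReal.ofReal (‖Sq j M q r cp H p y ω‖ ^ 2) ≤
      ∑ h ∈ T, ENNReal.ofReal ‖∑ x ∈ S, a (x + h) * (starRingEnd ℂ) (a x)‖ := by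
    rw [← ENNReal.ofReal_sum_of_nonneg (fun r _ => by positivity),
      ← ENNReal.ofReal_sum_of_nonneg (fun h _ => norm_nonneg _)]
    refine ENNReal.ofReal_le_ofReal ?_
    rw [Finset.sum_congr rfl fun r _ => by rw [hSq r]]
    exact hle
  -- the diagonal
  have hdiag : ENNReal.ofReal ‖∑ x ∈ S, a (x + 0) * (starRingEnd ℂ) (a x)‖ ≤
      ∑' x : {x : K // x ∈ M}, ENNReal.ofReal (‖Wg cp H p x y ω‖ ^ 2) := by
    have h1 : ‖∑ x ∈ S, a (x + 0) * (starRingEnd ℂ) (a x)‖ ≤ ∑ x ∈ S, ‖W x‖ ^ 2 := by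
      refine (norm_sum_le _ _).trans (Finset.sum_le_sum fun x hx => ?_)
      rw [add_zero, norm_mul, RCLike.norm_conj, ← sq]
      refine pow_le_pow_left₀ (norm_nonneg _) ?_ 2
      rw [ha]
      simp only
      rw [norm_mul]
      exact mul_le_of_le_one_left (norm_nonneg _) (hcor.norm x (hSM x hx))
    refine (ENNReal.ofReal_le_ofReal h1).trans ?_
    rw [ENNReal.ofReal_sum_of_nonneg (fun x _ => by positivity), hS, Finset.sum_map]
    exact ENNReal.sum_le_tsum (f := fun x : {x : K // x ∈ M} =>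
      ENNReal.ofReal (‖Wg cp H p x.1 y ω‖ ^ 2)) S₀
  -- the other correlations
  obtain ⟨X, hX, -⟩ := hRX K (k ^ 2) M (by
    rw [← Ideal.zero_eq_bot]
    exact pow_ne_zero 2 hk) hM
  set P₀ : ℝ≥0∞ := ENNReal.ofReal (Real.exp (-(∑ v, (v.mult : ℝ) * y v) / 2) *
    (cv K (((k ^ 2 : Ideal (𝓞 K)) : FI K) * M))⁻¹) with hP₀
  set Q₀ : ℝ≥0∞ := ENNReal.ofReal ((max 1 C₀) ^ n * B ^ (2 * n) * (HH H)⁻¹) with hQ₀
  set G : K → ℝ≥0∞ := fun h =>
    ∑' y' : {y' : K // y' ∈ du K (((k ^ 2 : Ideal (𝓞 K)) : FI K) * M)},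
      ENNReal.ofReal (Amb A cp H h y' y ω) with hG
  have hoff : ∀ h ∈ (j : FI K) * M, h ≠ 0 → ∃ e ∈ dvs K k,
      h ∈ ((j * e : Ideal (𝓞 K)) : FI K) * M ∧
      ENNReal.ofReal ‖∑ x ∈ S, a (x + h) * (starRingEnd ℂ) (a x)‖ ≤
        P₀ * (ENNReal.ofReal (D * (Nf K k * Nf K e)) * Q₀ * G h) := by
    intro h hh hne
    obtain ⟨e, he, h1, h2, h3⟩ := hcor.cor h hh hne
    refine ⟨e, he, h1, ?_⟩
    have h4 := corr_le hPG hA hC₀ hAM' hn hk hM hX hP hB hp (y := y) hω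
      (fun x => q (x + h) * (starRingEnd ℂ) (q x)) h
      (fun x hx t ht => h2 x hx t ht) (E := D * (Nf K k * Nf K e)) (by
        have : 0 ≤ Nf K k := by unfold Nf; positivity
        have : 0 ≤ Nf K e := by unfold Nf; positivity
        positivity) (h3 X hX)
    have h5 : ∑' x : {x : K // x ∈ M}, q (x + h) * (starRingEnd ℂ) (q x) *
        (Wg cp H p (x + h) y ω * (starRingEnd ℂ) (Wg cp H p x y ω)) =
        ∑ x ∈ S, a (x + h) * (starRingEnd ℂ) (a x) := by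
      rw [hsum (fun x => q (x + h) * (starRingEnd ℂ) (q x) *
        (Wg cp H p (x + h) y ω * (starRingEnd ℂ) (Wg cp H p x y ω)))
        (fun x hx hxS => by
          have := hW0 x hx hxS
          simp only [hW] at this
          rw [this, map_zero, mul_zero, mul_zero])]
      refine Finset.sum_congr rfl fun x _ => ?_
      rw [ha, hW]
      simp only
      rw [map_mul]
      ring
    rw [← h5]
    exact h4
  -- assembly
  refine hstep.trans ?_
  have hT' : ∑ h ∈ T, ENNReal.ofReal ‖∑ x ∈ S, a (x + h) * (starRingEnd ℂ) (a x)‖ ≤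
      ENNReal.ofReal ‖∑ x ∈ S, a (x + 0) * (starRingEnd ℂ) (a x)‖ +
        ∑ h ∈ T.filter (fun h => h ≠ 0),
          ENNReal.ofReal ‖∑ x ∈ S, a (x + h) * (starRingEnd ℂ) (a x)‖ := by
    rw [← Finset.sum_filter_add_sum_filter_not T (fun h => h = 0)]
    refine add_le_add ?_ le_rfl
    refine (Finset.sum_le_sum_of_subset (t := {0}) fun h hh => ?_).trans
      (le_of_eq (Finset.sum_singleton _ _))
    rw [Finset.mem_singleton]
    exact (Finset.mem_filter.1 hh).2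
  refine hT'.trans (add_le_add hdiag ?_)
  have hoff2 : ∀ h ∈ T.filter (fun h => h ≠ 0),
      ENNReal.ofReal ‖∑ x ∈ S, a (x + h) * (starRingEnd ℂ) (a x)‖ ≤
      P₀ * (ENNReal.ofReal (D * Nf K k) * Q₀) * ∑ e ∈ dvs K k, (ENNReal.ofReal (Nf K e) *
        (if h ∈ ((j * e : Ideal (𝓞 K)) : FI K) * M ∧ h ≠ 0 then G h else 0)) := by
    intro h hh
    rw [Finset.mem_filter] at hh
    obtain ⟨e, he, h1, h2⟩ := hoff h (hT h hh.1) hh.2
    refine h2.trans ?_
    have h3 : ENNReal.ofReal (Nf K e) *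
        (if h ∈ ((j * e : Ideal (𝓞 K)) : FI K) * M ∧ h ≠ 0 then G h else 0) ≤
        ∑ e ∈ dvs K k, (ENNReal.ofReal (Nf K e) *
          (if h ∈ ((j * e : Ideal (𝓞 K)) : FI K) * M ∧ h ≠ 0 then G h else 0)) :=
      Finset.single_le_sum (f := fun e => ENNReal.ofReal (Nf K e) *
        (if h ∈ ((j * e : Ideal (𝓞 K)) : FI K) * M ∧ h ≠ 0 then G h else 0))
        (fun _ _ => zero_le) he
    rw [if_pos ⟨h1, hh.2⟩] at h3
    refine le_trans (le_of_eq ?_) (mul_le_mul_right h3 _)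
    have hk0 : 0 ≤ Nf K k := by unfold Nf; positivity
    rw [← mul_assoc D, ENNReal.ofReal_mul (mul_nonneg hD hk0)]
    ring
  refine (Finset.sum_le_sum hoff2).trans ?_
  rw [← Finset.mul_sum, Finset.sum_comm]
  have hconst : P₀ * (ENNReal.ofReal (D * Nf K k) * Q₀) =
      ENNReal.ofReal ((max 1 C₀) ^ n * B ^ (2 * n) * (HH H)⁻¹ * (D * Nf K k) *
        (Real.exp (-(∑ v, (v.mult : ℝ) * y v) / 2) *
          (cv K (((k ^ 2 : Ideal (𝓞 K)) : FI K) * M))⁻¹)) := by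
    have hk0 : 0 ≤ Nf K k := by unfold Nf; positivity
    have h1 : 0 ≤ (max 1 C₀) ^ n * B ^ (2 * n) * (HH H)⁻¹ := by
      have := le_max_left 1 C₀
      positivity
    rw [hP₀, hQ₀, ENNReal.ofReal_mul (mul_nonneg h1 (mul_nonneg hD hk0)),
      ENNReal.ofReal_mul h1]
    ring
  rw [hconst]
  refine mul_le_mul_right ?_ _
  refine Finset.sum_le_sum fun e _ => ?_
  rw [← Finset.mul_sum]
  refine mul_le_mul_right ?_ _
  rw [← Finset.sum_filter]
  set U : Finset K := (T.filter (fun h => h ≠ 0)).filter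
    (fun h => h ∈ ((j * e : Ideal (𝓞 K)) : FI K) * M ∧ h ≠ 0) with hU
  have hU2 : ∀ h ∈ U, h ∈ ((j * e : Ideal (𝓞 K)) : FI K) * M ∧ h ≠ 0 := fun h hh =>
    (Finset.mem_filter.1 hh).2
  rw [← Finset.sum_attach]
  have h6 : ∑ h ∈ U.attach, G h.1 =
      ∑ h ∈ U.attach.map ⟨fun h => (⟨h.1, hU2 h.1 h.2⟩ :
        {h : K // h ∈ ((j * e : Ideal (𝓞 K)) : FI K) * M ∧ h ≠ 0}),
        fun h h' hh => Subtype.ext (congrArg (fun t :
          {h : K // h ∈ ((j * e : Ideal (𝓞 K)) : FI K) * M ∧ h ≠ 0} => t.1) hh)⟩, G h.1 := by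
    rw [Finset.sum_map]
    rfl
  rw [h6]
  exact ENNReal.sum_le_tsum (f := fun h :
    {h : K // h ∈ ((j * e : Ideal (𝓞 K)) : FI K) * M ∧ h ≠ 0} => G h.1) _

end

end Pool.Agent.H29.DW
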