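import Pool.Agent.H29.DW.Base
import Pool.Agent.H29.DW.CC
import Pool.Agent.H29.DW.QW
import Pool.Agent.H29.DW.WY
import Pool.Agent.H29.DW.BS
import Pool.Agent.H29.THC.All
import Pool.Agent.H64.DW.FT
import Pool.Agent.H33.DW.AM
import Pool.Agent.H45.DW.AE
import Pool.Agent.H45.DW.AO
import Pool.Agent.H47.DW.AVG
import Pool.Agent.H47.DW.JB
import Pool.Agent.H47.DW.IN
import Pool.Agent.H59.DW.CT
import Pool.Agent.H39.DW.DI
import Pool.Agent.H9.DW.GH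
import Pool.Agent.H64.DW.GS
import Pool.Agent.H21.DW.LA
import Pool.Agent.H21.DW.LD
import Pool.Agent.H21.DW.ML
import Pool.Agent.H79.DW.MS
import Pool.Agent.H42.DW.PB
import Pool.Agent.H9.DW.PM
import Pool.Agent.H56.DW.PT
import Pool.Agent.H56.DW.BP
import Pool.Agent.H56.DW.BQ
import Pool.Agent.H51.DW.SG
import Pool.Agent.H46.DW.WL
import Pool.Agent.H1.DW.PG
import Pool.Agent.H61.DW.UP
import Pool.Agent.H35.DW.UQ

/-!
# The hybrid Weyl bound: assembly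
-/

set_option autoImplicit false

open NumberField NumberField.InfinitePlace Complex

namespace Pool.Agent.H29.DW.All

open Pool.Agent.H23.LB Pool.Agent.H23.LC Pool.Agent.H29.DW Pool.Agent.H29.DW.Base
open Pool.Agent.H29.THC.Base (c_TH c_YC c_UI c_DU c_CT c_ID c_RX c_PU c_RR c_FP c_NS c_ME c_SY)
open Pool.Agent.H29.THC.All (a_CS a_EX a_CQ a_GX a_TR a_HR)

theorem d_FT : V_FT := Pool.Agent.H64.DW.pf_FT
theorem d_AM : V_AM := Pool.Agent.H33.DW.pf_AM d_FT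
theorem d_LA : V_LA := Pool.Agent.H21.DW.pf_LA
theorem d_LD : V_LD := Pool.Agent.H21.DW.pf_LD
theorem d_ML : V_ML := Pool.Agent.H21.DW.pf_ML
theorem d_PB : V_PB := Pool.Agent.H42.DW.pf_PB
theorem d_PM : V_PM := Pool.Agent.H9.DW.pf_PM
theorem d_PG : V_PG := Pool.Agent.H1.DW.pf_PG d_PM c_LBc c_GMc
theorem d_QW : V_QW := pf_QW c_TH c_RX d_AM d_PG
theorem d_AVG : V_AVG := Pool.Agent.H47.DW.pf_AVG u_VL
theorem d_JB : V_JB := Pool.Agent.H47.DW.pf_JB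
theorem d_GS : V_GS := Pool.Agent.H64.DW.pf_GS
theorem d_AO : V_AO := Pool.Agent.H45.DW.pf_AO c_TH d_AVG d_JB d_LA d_GS
theorem d_DI : V_DI := Pool.Agent.H39.DW.pf_DI d_AVG d_JB d_LD d_GS c_TH
theorem d_PT : V_PT := Pool.Agent.H56.DW.pf_PT u_PW c_NS c_FP
theorem d_CT : V_CT := Pool.Agent.H59.DW.pf_CT d_PT u_AK c_RR c_FP c_FD
theorem d_SG : V_SG := Pool.Agent.H51.DW.pf_SG u_AG
theorem d_CC : V_CC := pf_CC a_CS a_EX a_CQ Pool.Agent.H29.THC.pf_DF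
theorem d_UP : V_UP := Pool.Agent.H61.DW.pf_UP u_CG u_AG c_PU
theorem d_UQ : V_UQ := Pool.Agent.H35.DW.pf_UQ u_DC u_AG c_PU
theorem d_WL : V_WL := Pool.Agent.H46.DW.pf_WL d_ML c_PU
theorem d_MS : V_MS := Pool.Agent.H79.DW.pf_MS c_TH c_YC c_FD
theorem d_IN : V_IN := Pool.Agent.H47.DW.pf_IN c_TH c_YC d_MS
theorem d_AE : V_AE := Pool.Agent.H45.DW.pf_AE
theorem d_GH : V_GH := Pool.Agent.H9.DW.pf_GH

section
variable (hTT : V_TT)
include hTT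

theorem d_BS : V_BS := pf_BS d_IN hTT d_MS d_PB c_RR c_TH c_YC c_FD

theorem d_BP : V_BP :=
  Pool.Agent.H56.DW.pf_BP d_UP d_WL (d_BS hTT) d_SG d_CC u_CG a_GX Pool.Agent.H29.THC.pf_DV
    Pool.Agent.H29.THC.pf_DF c_RX c_SY

theorem d_BQ : V_BQ :=
  Pool.Agent.H56.DW.pf_BQ d_UQ d_WL (d_BS hTT) d_SG d_CC u_CG a_GX Pool.Agent.H29.THC.pf_DV
    Pool.Agent.H29.THC.pf_DF a_TR c_RX c_RR c_TH

theorem d_WY : V_WY :=
  pf_WY (d_BP hTT) (d_BQ hTT) d_AE d_GH u_FK a_HR c_SY Pool.Agent.H63.HK.ds u_DC u_GE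

end

end Pool.Agent.H29.DW.All
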