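import Pool.Agent.H29.DW.Tools
import Pool.Agent.H79.DW.MS
import Pool.Agent.H94.GLA.BE

/-!
# The bound for the integral over all positions: measurability, Cauchy-Schwarz, numbers
-/

set_option autoImplicit false
set_option linter.unusedVariables false
set_option linter.unusedSectionVars false

open NumberField NumberField.InfinitePlace NumberField.Units
  NumberField.Units.dirichletUnitTheorem MeasureTheory Set Filter Complex
open scoped nonZeroDivisors ENNReal

namespace Pool.Agent.H29.DW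

open Pool.Agent.H25.HK Pool.Agent.H23.LB Pool.Agent.H23.LC
open Pool.Agent.H28.RC (Rep ft idl)

/-- the inequality of Cauchy and Schwarz -/
theorem cs_lint {α : Type} [MeasurableSpace α] (μ : Measure α) {f g : α → ℝ≥0∞}
    (hf : AEMeasurable f μ) (hg : AEMeasurable g μ) :
    (∫⁻ a, f a * g a ∂μ) ^ 2 ≤ (∫⁻ a, f a ^ 2 ∂μ) * ∫⁻ a, g a ^ 2 ∂μ := by
  have h1 := ENNReal.lintegral_mul_le_Lp_mul_Lq μ Real.HolderConjugate.two_two hf hg
  have h2 : (∫⁻ a, f a * g a ∂μ) = ∫⁻ a, (f * g) a ∂μ := rfl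
  rw [h2]
  refine (pow_le_pow_left₀ (zero_le) h1 2).trans (le_of_eq ?_)
  rw [mul_pow, ← ENNReal.rpow_natCast, ← ENNReal.rpow_natCast, ← ENNReal.rpow_mul,
    ← ENNReal.rpow_mul]
  norm_num

/-- the same with a weight -/
theorem cs_weight {α : Type} [MeasurableSpace α] (μ : Measure α) {ρ g : α → ℝ≥0∞}
    (hρ : Measurable ρ) (hg : Measurable g) :
    (∫⁻ a, ρ a * g a ∂μ) ^ 2 ≤ (∫⁻ a, ρ a ∂μ) * ∫⁻ a, ρ a * g a ^ 2 ∂μ := by
  have h1 := cs_lint μ (f := fun a => ρ a ^ (1 / 2 : ℝ)) (g := fun a => ρ a ^ (1 / 2 : ℝ) * g a)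
    (hρ.pow_const _).aemeasurable ((hρ.pow_const _).mul hg).aemeasurable
  have e1 : ∀ a, ρ a ^ (1 / 2 : ℝ) * ρ a ^ (1 / 2 : ℝ) = ρ a := by
    intro a
    rw [← ENNReal.rpow_add_of_nonneg _ _ (by norm_num) (by norm_num)]
    norm_num
  have e2 : ∀ a, ρ a ^ (1 / 2 : ℝ) * (ρ a ^ (1 / 2 : ℝ) * g a) = ρ a * g a := by
    intro a
    rw [← mul_assoc, e1]
  have e3 : ∀ a, (ρ a ^ (1 / 2 : ℝ)) ^ 2 = ρ a := by
    intro a
    rw [sq, e1]
  have e4 : ∀ a, (ρ a ^ (1 / 2 : ℝ) * g a) ^ 2 = ρ a * g a ^ 2 := by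
    intro a
    rw [mul_pow, e3]
  simpa only [e2, e3, e4] using h1

theorem cs_sum {ι : Type} [Fintype ι] (a : ι → ℝ≥0∞) :
    (∑ c, a c) ^ 2 ≤ (Fintype.card ι : ℝ≥0∞) * ∑ c, a c ^ 2 := by
  have h1 := ENNReal.inner_le_Lp_mul_Lq Finset.univ (fun _ : ι => (1 : ℝ≥0∞)) a
    Real.HolderConjugate.two_two
  simp only [one_mul, ENNReal.one_rpow, Finset.sum_const, Finset.card_univ, nsmul_eq_mul,
    mul_one] at h1
  refine (pow_le_pow_left₀ (zero_le) h1 2).trans (le_of_eq ?_)
  rw [mul_pow, ← ENNReal.rpow_natCast, ← ENNReal.rpow_natCast, ← ENNReal.rpow_mul,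
    ← ENNReal.rpow_mul]
  norm_num

/-- the numerical part of one piece -/
theorem real_piece {n : ℕ} {κ e δ x τ ρ a : ℝ} (hκ0 : 0 < κ) (hκ1 : κ ≤ 1) (he0 : 0 < e)
    (hδ0 : 0 < δ) (heδ : e + 2 * δ ≤ 1) (hx : 0 ≤ x) (hτ : τ ≤ n) (hρ : 0 ≤ ρ)
    (ha0 : 0 ≤ a) (ha : Real.exp x * a ≤ 3 ^ n) (σ : ℝ) (hσ : σ = if -τ ≤ x then κ else 1) :
    Real.exp (2 * σ * (x + τ)) * Real.exp (e * |τ|) * (1 + ρ + Real.exp (-τ) * a) ≤
      (Real.exp (3 * n) * (1 + 3 ^ n)) * (1 + ρ) *
        (Real.exp ((2 * κ + e) * x) * Real.exp (2 * δ * (x + τ))) := by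
  have hn0 : (0 : ℝ) ≤ n := Nat.cast_nonneg n
  have h3 : (0 : ℝ) ≤ 3 ^ n := by positivity
  have he1 : e ≤ 1 := by linarith
  by_cases h : -τ ≤ x
  · rw [if_pos h] at hσ
    rw [hσ]
    have h1 : |τ| ≤ x + n := abs_le.2 ⟨by linarith, by linarith⟩
    have h2 : Real.exp (-τ) * a ≤ 3 ^ n :=
      (mul_le_mul_of_nonneg_right (Real.exp_le_exp.2 h) ha0).trans ha
    have h4 : 1 + ρ + Real.exp (-τ) * a ≤ (1 + 3 ^ n) * (1 + ρ) := by nlinarith
    have h5 : Real.exp (2 * κ * (x + τ)) * Real.exp (e * |τ|) ≤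
        Real.exp (3 * n) * (Real.exp ((2 * κ + e) * x) * Real.exp (2 * δ * (x + τ))) := by
      rw [← Real.exp_add, ← Real.exp_add, ← Real.exp_add]
      apply Real.exp_le_exp.2
      have h6 : 0 ≤ δ * (x + τ) := mul_nonneg hδ0.le (by linarith)
      have h7 : e * |τ| ≤ e * (x + n) := mul_le_mul_of_nonneg_left h1 he0.le
      have h8 : κ * τ ≤ κ * n := mul_le_mul_of_nonneg_left hτ hκ0.le
      have h9 : κ * n ≤ 1 * n := mul_le_mul_of_nonneg_right hκ1 hn0
      have h10 : e * n ≤ 1 * n := mul_le_mul_of_nonneg_right he1 hn0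
      nlinarith
    have h6 : 0 ≤ 1 + ρ + Real.exp (-τ) * a := by positivity
    calc Real.exp (2 * κ * (x + τ)) * Real.exp (e * |τ|) * (1 + ρ + Real.exp (-τ) * a)
        ≤ (Real.exp (3 * n) * (Real.exp ((2 * κ + e) * x) * Real.exp (2 * δ * (x + τ)))) *
          ((1 + 3 ^ n) * (1 + ρ)) := mul_le_mul h5 h4 h6 (by positivity)
      _ = _ := by ring
  · rw [if_neg h] at hσ
    rw [hσ]
    rw [not_le] at h
    set p : ℝ := x + τ with hp
    have hp0 : p < 0 := by linarith
    have h1 : |τ| = x - p := by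
      rw [abs_of_neg (by linarith)]
      linarith
    have h2 : Real.exp (-τ) * a ≤ 3 ^ n * Real.exp (-p) := by
      have h4 : Real.exp (-τ) = Real.exp x * Real.exp (-p) := by
        rw [← Real.exp_add]
        congr 1
        linarith
      rw [h4]
      calc Real.exp x * Real.exp (-p) * a = (Real.exp x * a) * Real.exp (-p) := by ring
        _ ≤ _ := mul_le_mul_of_nonneg_right ha (Real.exp_pos _).le
    have h3' : 1 ≤ Real.exp (-p) := Real.one_le_exp (by linarith)
    have h4 : 1 + ρ + Real.exp (-τ) * a ≤ ((1 + 3 ^ n) * (1 + ρ)) * Real.exp (-p) := by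
      have h5 : 1 + ρ ≤ (1 + ρ) * Real.exp (-p) := by nlinarith
      have h6 : 3 ^ n * Real.exp (-p) ≤ (3 ^ n * (1 + ρ)) * Real.exp (-p) := by
        refine mul_le_mul_of_nonneg_right ?_ (Real.exp_pos _).le
        nlinarith
      nlinarith
    have h5 : Real.exp (2 * 1 * p) * Real.exp (e * |τ|) * Real.exp (-p) ≤
        Real.exp (3 * n) * (Real.exp ((2 * κ + e) * x) * Real.exp (2 * δ * p)) := by
      rw [← Real.exp_add, ← Real.exp_add, ← Real.exp_add, ← Real.exp_add, h1]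
      apply Real.exp_le_exp.2
      have h6 : 0 ≤ κ * x := mul_nonneg hκ0.le hx
      have h7 : (1 - e - 2 * δ) * p ≤ 0 := mul_nonpos_of_nonneg_of_nonpos (by linarith) hp0.le
      nlinarith
    have h6 : 0 ≤ 1 + ρ + Real.exp (-τ) * a := by positivity
    calc Real.exp (2 * 1 * p) * Real.exp (e * |τ|) * (1 + ρ + Real.exp (-τ) * a)
        ≤ Real.exp (2 * 1 * p) * Real.exp (e * |τ|) *
          (((1 + 3 ^ n) * (1 + ρ)) * Real.exp (-p)) :=
          mul_le_mul_of_nonneg_left h4 (by positivity)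
      _ = (Real.exp (2 * 1 * p) * Real.exp (e * |τ|) * Real.exp (-p)) *
          ((1 + 3 ^ n) * (1 + ρ)) := by ring
      _ ≤ (Real.exp (3 * n) * (Real.exp ((2 * κ + e) * x) * Real.exp (2 * δ * p))) *
          ((1 + 3 ^ n) * (1 + ρ)) := mul_le_mul_of_nonneg_right h5 (by positivity)
      _ = _ := by ring

/-- Gaussian integrals of polynomials -/
theorem gauss_poly (N : ℕ) :
    ∫⁻ w : ℝ, ENNReal.ofReal (Real.exp (-w ^ 2 / 4) * (4 + 2 * |w|) ^ N) < ⊤ := by
  have h1 : Integrable (fun w : ℝ => (N.factorial * Real.exp 12) *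
      Real.exp (-(1 / 8) * w ^ 2)) :=
    (integrable_exp_neg_mul_sq (by norm_num)).const_mul _
  have h2 := h1.lintegral_lt_top
  refine lt_of_le_of_lt (lintegral_mono fun w => ENNReal.ofReal_le_ofReal ?_) h2
  have h3 : (4 + 2 * |w|) ^ N ≤ N.factorial * Real.exp (4 + 2 * |w|) := by
    have h4 := Real.pow_div_factorial_le_exp (4 + 2 * |w|) (by positivity) N
    rw [div_le_iff₀ (by positivity)] at h4
    linarith
  have h4 : 2 * |w| ≤ w ^ 2 / 8 + 8 := by
    have h5 : |w| ^ 2 = w ^ 2 := sq_abs w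
    nlinarith [sq_nonneg (|w| - 8)]
  calc Real.exp (-w ^ 2 / 4) * (4 + 2 * |w|) ^ N
      ≤ Real.exp (-w ^ 2 / 4) * (N.factorial * Real.exp (4 + 2 * |w|)) :=
        mul_le_mul_of_nonneg_left h3 (Real.exp_pos _).le
    _ = N.factorial * Real.exp (-w ^ 2 / 4 + (4 + 2 * |w|)) := by
        rw [Real.exp_add (-w ^ 2 / 4)]
        ring
    _ ≤ N.factorial * Real.exp (12 + -(1 / 8) * w ^ 2) := by
        refine mul_le_mul_of_nonneg_left (Real.exp_le_exp.2 ?_) (by positivity)
        linarith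
    _ = _ := by
        rw [Real.exp_add]
        ring

section

variable {K : Type} [Field K] [NumberField K]

/-- the sums in the integral representation -/
noncomputable def Gw (M : FI K) (cp : InfinitePlace K → ℂ) (H : InfinitePlace K → ℝ)
    (cc : K → ℂ) (s : Bool) (σ : ℝ) (w : ℝ) (u : logSpace K × ℝ × (InfinitePlace K → ℝ)) : ℂ :=
  ∑' x : {x : K // x ∈ M}, cc x * Wg cp H (pl H (1 / 2 + σ + w * I)) x
    (yM K M u.2.1 (zs s u.1)) (om s u.2.2)

theorem wv_measurable (hYC : T_YC) (M : FI K) (s : Bool) (x : K) (v : InfinitePlace K) :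
    Measurable (fun u : logSpace K × ℝ × (InfinitePlace K → ℝ) =>
      wv v x (yM K M u.2.1 (zs s u.1)) (om s u.2.2)) := by
  classical
  unfold wv
  refine Measurable.mul ?_ (Pool.Agent.H79.DW.om_measurable s v)
  refine Measurable.mul measurable_const ?_
  refine Complex.measurable_ofReal.comp (Real.measurable_exp.comp ?_)
  refine Measurable.div_const ?_ _
  have h2 : Continuous (fun u : logSpace K × ℝ × (InfinitePlace K → ℝ) =>
      (u.2.1 - Real.log (FractionalIdeal.absNorm M : ℝ), zs s u.1)) := by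
    refine Continuous.prodMk (by fun_prop) ?_
    unfold zs
    cases s
    · simp only [Bool.false_eq_true, if_false]
      exact continuous_fst.neg
    · simp only [if_true]
      exact continuous_fst
  have h3 := (hYC K).2.2.2.2.1.comp h2
  exact ((continuous_apply v).comp h3).measurable

theorem Wg_meas_joint (hYC : T_YC) (M : FI K) (cp : InfinitePlace K → ℂ)
    (H : InfinitePlace K → ℝ) (s : Bool) (σ : ℝ) (x : K) :
    Measurable (fun a : ℝ × (logSpace K × ℝ × (InfinitePlace K → ℝ)) =>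
      Wg cp H (pl H (1 / 2 + σ + a.1 * I)) x (yM K M a.2.2.1 (zs s a.2.1))
        (om s a.2.2.2)) := by
  classical
  unfold Wg
  refine Finset.measurable_prod _ fun v _ => ?_
  have h0 : Measurable (fun a : ℝ × (logSpace K × ℝ × (InfinitePlace K → ℝ)) =>
      wv v x (yM K M a.2.2.1 (zs s a.2.1)) (om s a.2.2.2)) :=
    (wv_measurable hYC M s x v).comp measurable_snd
  unfold tw1
  refine Measurable.mul ?_ ?_
  · have h1 : Continuous (chp (cp v)) := by
      unfold chp
      fun_prop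
    exact h1.measurable.comp h0
  · unfold pl pp
    have h1 : Measurable (fun a : ℝ × (logSpace K × ℝ × (InfinitePlace K → ℝ)) =>
        (H v : ℂ) * (wv v x (yM K M a.2.2.1 (zs s a.2.1)) (om s a.2.2.2) - 1)) :=
      measurable_const.mul (h0.sub measurable_const)
    refine Measurable.mul ?_ ?_
    · exact ((b0_contDiff 0).continuous.measurable).comp h1
    · refine Complex.measurable_exp.comp ?_
      refine Measurable.mul ?_ ?_
      · refine Measurable.neg ?_
        refine measurable_const.mul ?_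
        refine Measurable.add measurable_const ?_
        exact (Complex.measurable_ofReal.comp measurable_fst).mul measurable_const
      · refine Complex.measurable_ofReal.comp (Real.measurable_log.comp ?_)
        refine Measurable.norm ?_
        exact measurable_const.add (h1.div measurable_const)

theorem Gw_measurable (hTH : T_TH) (hYC : T_YC) (M : FI K) (hM : M ≠ 0)
    {cp : InfinitePlace K → ℂ} {H : InfinitePlace K → ℝ} (hH : ∀ v, 1 ≤ H v) (cc : K → ℂ)
    (s : Bool) (σ : ℝ) :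
    Measurable (fun a : ℝ × (logSpace K × ℝ × (InfinitePlace K → ℝ)) =>
      Gw M cp H cc s σ a.1 a.2) := by
  classical
  unfold Gw
  have hfin : ∀ B : ℝ, ∃ F : Finset {x : K // x ∈ M},
      ∀ a : ℝ × (logSpace K × ℝ × (InfinitePlace K → ℝ)), (∀ w, |a.2.1 w| ≤ B) →
      |a.2.2.1| ≤ B → ∀ x : {x : K // x ∈ M}, x ∉ F →
        cc x * Wg cp H (pl H (1 / 2 + σ + a.1 * I)) x (yM K M a.2.2.1 (zs s a.2.1))
          (om s a.2.2.2) = 0 := by
    intro B
    have hf := Pool.Agent.H79.DW.loc_fin hTH hYC M hM B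
    refine ⟨hf.toFinset, fun a h1 h2 x hx => ?_⟩
    by_contra hne
    apply hx
    rw [Set.Finite.mem_toFinset]
    refine ⟨a.2.2.1, zs s a.2.1, fun w => by rw [Pool.Agent.H79.DW.zs_abs]; exact h1 w, h2,
      fun v => ?_⟩
    have hp : ∀ v, ∀ x : ℂ, 1 / 16 < ‖x‖ → pl H (1 / 2 + σ + a.1 * I) v x = 0 :=
      fun v x hx => pp_zero hx.le
    have h3 := Pool.Agent.H79.DW.abs_near (Pool.Agent.H79.DW.Wg_near hH hp
      (right_ne_zero_of_mul hne) v)
    rw [norm_wv v _ _ (Pos_om s a.2.2.2)] at h3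
    have h4 := (abs_le.mp h3).2
    linarith
  choose F hF using hfin
  refine measurable_of_tendsto_metrizable
    (f := fun (k : ℕ) a => ∑ x ∈ F (k : ℝ), cc x *
      Wg cp H (pl H (1 / 2 + σ + a.1 * I)) x (yM K M a.2.2.1 (zs s a.2.1))
          (om s a.2.2.2)) ?_ ?_
  · intro k
    refine Finset.measurable_fun_sum _ fun x _ => ?_
    exact (Wg_meas_joint hYC M cp H s σ x.1).const_mul _
  · rw [tendsto_pi_nhds]
    intro a
    have h1 : ∃ B : ℝ, (∀ w, |a.2.1 w| ≤ B) ∧ |a.2.2.1| ≤ B := by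
      refine ⟨∑ w, |a.2.1 w| + |a.2.2.1|, fun w => ?_, ?_⟩
      · have := Finset.single_le_sum (f := fun w => |a.2.1 w|) (fun _ _ => abs_nonneg _)
          (Finset.mem_univ w)
        have h2 := abs_nonneg a.2.2.1
        linarith
      · have : 0 ≤ ∑ w, |a.2.1 w| := Finset.sum_nonneg fun _ _ => abs_nonneg _
        linarith
    obtain ⟨B, hB1, hB2⟩ := h1
    obtain ⟨k₀, hk₀⟩ := exists_nat_ge B
    refine tendsto_const_nhds.congr' ?_
    filter_upwards [eventually_ge_atTop k₀] with k hk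
    have hk' : B ≤ (k : ℝ) := hk₀.trans (by exact_mod_cast hk)
    exact tsum_eq_sum fun x hx =>
      hF (k : ℝ) a (fun w => (hB1 w).trans hk') (hB2.trans hk') x hx

end

end Pool.Agent.H29.DW
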