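import Pool.Agent.H23.LC.Targets2
import Pool.Agent.H29.TC.Targets

/-!
# The hybrid Weyl bound: definitions
-/

set_option autoImplicit false

open NumberField NumberField.InfinitePlace NumberField.Units
  NumberField.Units.dirichletUnitTheorem MeasureTheory Set Filter Complex
open scoped nonZeroDivisors ENNReal

namespace Pool.Agent.H29.DW

open Pool.Agent.H25.HK Pool.Agent.H23.LB Pool.Agent.H23.LC
open Pool.Agent.H28.RC (Rep ft idl)
open Pool.Agent.H29.TC (GK fk_le dvs)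

/-! ### Local objects (`r = true`: the real numbers, `r = false`: the complex numbers) -/

/-- the degree -/
def dg (r : Bool) : ℕ := if r then 1 else 2

/-- `w` is real if `r = true` -/
def Rl (r : Bool) (w : ℂ) : Prop := r = true → w.im = 0

/-- the Fourier transform with respect to the trace form -/
noncomputable def lf (r : Bool) (G : ℂ → ℂ) (ξ : ℂ) : ℂ :=
  if r then ∫ x : ℝ, cexp (-(2 * Real.pi * (x * ξ.re) : ℝ) * I) * G x
  else 2 * ∫ w : ℂ, cexp (-(2 * Real.pi * (2 * (w * ξ).re) : ℝ) * I) * G w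

/-- the angle function -/
noncomputable def aq (r : Bool) (θ : ℝ) : ℂ :=
  open scoped Classical in
  if r then (if θ < Real.pi then 1 else -1) else cexp (θ * I)

/-- the chirp `exp(-i Re(c ((w - 1) - (w - 1)^2 / 2)))` -/
noncomputable def chp (c w : ℂ) : ℂ :=
  cexp (-((c * ((w - 1) - (w - 1) ^ 2 / 2)).re : ℝ) * I)

/-- the test function -/
noncomputable def tw1 (c : ℂ) (H : ℝ) (p : ℂ → ℂ) (w : ℂ) : ℂ := chp c w * p (H * (w - 1))

/-- bump functions with support in `|x| ≤ 1/16` and derivatives at most `B` -/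
structure Bmp (A : ℕ) (B : ℝ) (p : ℂ → ℂ) : Prop where
  smooth : ∀ n : ℕ, ContDiff ℝ n p
  supp : ∀ x : ℂ, 1 / 16 < ‖x‖ → p x = 0
  bound : ∀ j : ℕ, j ≤ A → ∀ x : ℂ, ‖iteratedFDeriv ℝ j p x‖ ≤ B

/-- a fixed bump function -/
noncomputable def b0 : ContDiffBump (0 : ℂ) := ⟨1 / 32, 1 / 16, by norm_num, by norm_num⟩

/-- the bump function `b(x) |1 + x / H|^(-l)` -/
noncomputable def pp (H : ℝ) (l : ℂ) (x : ℂ) : ℂ :=
  (b0 x : ℂ) * cexp (-l * (Real.log ‖1 + x / H‖ : ℝ))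

/-- the size of the ambiguity function (without the factor `H ^ (-e)`) -/
noncomputable def amb (r : Bool) (A : ℕ) (c : ℂ) (H : ℝ) (a ξ : ℂ) : ℝ :=
  open scoped Classical in
  if H * ‖a‖ ≤ 1 / 4 then
    (1 + ‖ξ - c * a / (2 * Real.pi * dg r)‖ / H) ^ (-(A : ℝ)) else 0

/-- the admissible parameters: `H ^ 3 = max(1, |c|)` -/
structure Par (r : Bool) (c : ℂ) (H : ℝ) : Prop where
  one_le : 1 ≤ H
  cube : H ^ 3 = max 1 ‖c‖
  real : Rl r c

/-- a number with `H ≤ 2 ^ N < 4 H` -/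
noncomputable def nH (H : ℝ) : ℕ := Nat.clog 2 ⌈H⌉₊

/-! ### Global objects -/

section NF

variable {K : Type} [Field K] [NumberField K]

/-- the type of the place -/
noncomputable def rv (v : InfinitePlace K) : Bool :=
  open scoped Classical in decide v.IsReal

/-- the value at the place `v` of `x` at the position `(y, ω)` -/
noncomputable def wv (v : InfinitePlace K) (x : K) (y : InfinitePlace K → ℝ)
    (ω : InfinitePlace K → ℂ) : ℂ :=
  v.embedding x * ((Real.exp (y v / 2) : ℝ) : ℂ) * ω v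

/-- the test function -/
noncomputable def Wg (cp : InfinitePlace K → ℂ) (H : InfinitePlace K → ℝ)
    (p : InfinitePlace K → ℂ → ℂ) (x : K) (y : InfinitePlace K → ℝ)
    (ω : InfinitePlace K → ℂ) : ℂ :=
  ∏ v : InfinitePlace K, tw1 (cp v) (H v) (p v) (wv v x y ω)

/-- the bump functions of the unfolding -/
noncomputable def pb : InfinitePlace K → ℂ → ℂ := fun _ x => (b0 x : ℂ)

/-- the bump functions `b(x) |1 + x / H| ^ (-e_v l)` -/
noncomputable def pl (H : InfinitePlace K → ℝ) (l : ℂ) : InfinitePlace K → ℂ → ℂ :=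
  fun v => pp (H v) (v.mult * l)

/-- the angles (`s = true`) or the conjugate angles (`s = false`) -/
noncomputable def om (s : Bool) (θ : InfinitePlace K → ℝ) : InfinitePlace K → ℂ := fun v =>
  if s then an v (θ v) else (starRingEnd ℂ) (an v (θ v))

/-- `z` or `-z` -/
noncomputable def zs (s : Bool) (z : logSpace K) : logSpace K := if s then z else -z

/-- admissible positions -/
structure Pos (ω : InfinitePlace K → ℂ) : Prop where
  one : ∀ v, ‖ω v‖ = 1
  real : ∀ v : InfinitePlace K, v.IsReal → (ω v).im = 0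

/-- the parameters of the test function -/
structure Prm (cp : InfinitePlace K → ℂ) (H : InfinitePlace K → ℝ) : Prop where
  par : ∀ v, Par (rv v) (cp v) (H v)

/-- the size of the ambiguity function -/
noncomputable def Amb (A : ℕ) (cp : InfinitePlace K → ℂ) (H : InfinitePlace K → ℝ) (h y' : K)
    (y : InfinitePlace K → ℝ) (ω : InfinitePlace K → ℂ) : ℝ :=
  ∏ v : InfinitePlace K, amb (rv v) A (cp v) (H v) (wv v h y ω)
    (wv v y' (-y) (fun v => (starRingEnd ℂ) (ω v)))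

/-- the local frequencies of the character at `t` -/
noncomputable def cpar (k : InfinitePlace K → ℤ) (ν : InfinitePlace K → ℝ) (t : ℝ)
    (v : InfinitePlace K) : ℂ :=
  open scoped Classical in
  if v.IsReal then ((t - ν v : ℝ) : ℂ) else ((2 * (t - ν v) : ℝ) : ℂ) + (k v : ℂ) * I

/-- `H_v = max(1, |c_v|) ^ (1/3)` -/
noncomputable def Hpar (cp : InfinitePlace K → ℂ) (v : InfinitePlace K) : ℝ :=
  (max 1 ‖cp v‖) ^ (1 / 3 : ℝ)

/-- the analytic conductor at infinity -/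
noncomputable def Ci (k : InfinitePlace K → ℤ) (ν : InfinitePlace K → ℝ) (t : ℝ) : ℝ :=
  ∏ v : InfinitePlace K, (1 + |t - ν v| + |(k v : ℝ)|) ^ v.mult

/-- the product of the `H_v ^ e_v` -/
noncomputable def HH (H : InfinitePlace K → ℝ) : ℝ := ∏ v : InfinitePlace K, H v ^ v.mult

variable (K)

/-- The modulus is `l g k ^ 2`: `k` is odd and has the same prime divisors as `g`, and `l` is prime
to `k`. -/
structure GM (l g k : Ideal (𝓞 K)) : Prop where
  l_ne : l ≠ ⊥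
  g_ne : g ≠ ⊥
  k_ne : k ≠ ⊥
  rad : ∀ P : Ideal (𝓞 K), P.IsPrime → (g ≤ P ↔ k ≤ P)
  cop : l ⊔ k = ⊤
  odd : Ideal.span {(2 : 𝓞 K)} ⊔ k = ⊤
  triv : k = ⊤ → l = ⊤

variable {K}

/-- The character modulo `f` is primitive at the primes dividing `k`. -/
def PrG {f : Ideal (𝓞 K)} (k : Ideal (𝓞 K)) (χ : HG K f) : Prop :=
  ∀ P : Ideal (𝓞 K), P.IsPrime → k ≤ P → ∃ a : 𝓞 K, a ≠ 0 ∧ Ideal.span {a} ⊔ f = ⊤ ∧
    (∀ x ∈ P, (a - 1) * x ∈ f) ∧ χ.ψ (Ideal.span {a}) ≠ ag χ.k (a : K) * ph χ.ν (a : K)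

/-- Bounds for the correlations of the function `q` on `M`: the differences are in `j M`, the
correlations have the period `k ^ 2`. -/
structure Cor (j k : Ideal (𝓞 K)) (M : FI K) (q : K → ℂ) (D : ℝ) : Prop where
  norm : ∀ x ∈ M, ‖q x‖ ≤ 1
  cor : ∀ h ∈ (j : FI K) * M, h ≠ 0 → ∃ e ∈ dvs K k, h ∈ ((j * e : Ideal (𝓞 K)) : FI K) * M ∧
    (∀ x ∈ M, ∀ t ∈ ((k ^ 2 : Ideal (𝓞 K)) : FI K) * M,
      q (x + t + h) * (starRingEnd ℂ) (q (x + t)) = q (x + h) * (starRingEnd ℂ) (q x)) ∧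
    ∀ X : Finset K, Rep K (k ^ 2) M X → ∀ y ∈ du K (((k ^ 2 : Ideal (𝓞 K)) : FI K) * M),
      ‖ft K X (fun x => q (x + h) * (starRingEnd ℂ) (q x)) y‖ ≤ D * (Nf K k * Nf K e)

/-- Weights: `v(x)` is an integral over `x ^ (-1/2 - σ - i y)` for `σ = κ` and `σ = 1`. -/
def Wt (κ X B : ℝ) (v : ℝ → ℂ) : Prop :=
  ∀ σ : ℝ, (σ = κ ∨ σ = 1) → ∃ g : ℝ → ℂ, Measurable g ∧
    (∀ y, ‖g y‖ ≤ B * X ^ σ * Real.exp (-y ^ 2 / 4)) ∧
    ∀ x : ℝ, 0 < x → v x = ∫ y : ℝ, g y * (x : ℂ) ^ (-(1 / 2 + σ + y * I : ℂ))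

/-- the sum over the points of the residue class `r + j M` -/
noncomputable def Sq (j : Ideal (𝓞 K)) (M : FI K) (q : K → ℂ) (r : K)
    (cp : InfinitePlace K → ℂ) (H : InfinitePlace K → ℝ) (p : InfinitePlace K → ℂ → ℂ)
    (y : InfinitePlace K → ℝ) (ω : InfinitePlace K → ℂ) : ℂ :=
  ∑' x : {x : K // x ∈ M}, ci K j M r x * q x * Wg cp H p x y ω

variable (K)

open scoped Classical in
/-- the Mellin transform of the test function (with `p = b0`) -/
noncomputable def WH (cp : InfinitePlace K → ℂ) (H : InfinitePlace K → ℝ)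
    (k : InfinitePlace K → ℤ) (ν : InfinitePlace K → ℝ) (t : ℝ) : ℂ :=
  ∫ u : logSpace K × ℝ, ec K ν u.1 * cexp (t * u.2 * I) *
    ∫ θ in An K, ek k θ * Wg cp H pb (1 : K) (yc K u.2 u.1) (om true θ)

end NF

end Pool.Agent.H29.DW
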