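import Pool.Agent.H29.DW.All
import Pool.Agent.H16.DW.TT

/-!
# The hybrid Weyl bound: end
-/

set_option autoImplicit false

open NumberField NumberField.InfinitePlace Complex

namespace Pool.Agent.H29.DW.All

open Pool.Agent.H23.LB Pool.Agent.H23.LC Pool.Agent.H29.DW Pool.Agent.H29.DW.Base
open Pool.Agent.H29.THC.Base (c_TH c_YC c_UI c_DU c_CT c_ID c_RX c_PU c_RR c_FP c_NS c_ME c_SY)

theorem d_TT : V_TT := Pool.Agent.H16.DW.pf_TT d_QW d_AO d_DI d_CT u_ZN c_TH

theorem final : V_WY := d_WY d_TT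

end Pool.Agent.H29.DW.All
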